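import Pool.Agent.Helper55.PS.Defs

/-!
# Block PS-A: a Diophantine lemma

Primes `x ≤ r ≤ 4x`, a set `Z` of `Y ≥ 13` of them, `Λ = 12 x / Y`, `0 < δ`, `32 Λ² δ ≤ 1`.
If `α` is farther than `16 δ / Y` from the integers then at most half of the `r ∈ Z` satisfy
`dI (α r) ≤ δ`.

Proof. Let `G = {r ∈ Z : dI (α r) ≤ δ}` and suppose `|G| > Y / 2`.
(0) `Y ≤ 4x` (the elements of `Z` are in `[1, 4x]`), so `Λ ≥ 3`; `Λ < x` because `Y > 12`.
(1) Pigeonhole with the map `r ↦ ⌊(r - x) / Λ⌋` (at most `3x/Λ + 1 = Y/4 + 1 < Y/2 < |G|` values):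
two elements `r < r'` of `G` have `d = r' - r ≤ Λ` (same floor: difference `< Λ`).
Then `dI (α d) ≤ 2 δ`, i.e. `|α d - A| ≤ 2 δ` for an integer `A`.
Let `a / q = A / d` in lowest terms (`q ≤ d ≤ Λ`, `gcd (a, q) = 1`), `β = α - a / q`, so
`|β| ≤ 2 δ / d ≤ 2 δ / q`.
(2) If `r < r'` are in `G`, `g = r' - r` and `|β| g ≤ 1 / (4 q)`, then `|β| g ≤ 2 δ`:
`dI (α g) ≤ 2 δ` and `α g = a g / q + β g`; if `q ∤ g` (so `q ∤ a g`) then
`dI (a g / q) ≥ 1 / q`, so `dI (α g) ≥ 1/q - 1/(4q) = 3/(4q) > 2 δ`, contradiction; so `q ∣ g`,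
`dI (α g) = dI (β g)` and `|β g| ≤ 1/4` gives `dI (β g) = |β| g`.
(3) Suppose `β ≠ 0` and `|β| > 16 δ / Y`. Put `w = 1 / (4 q |β|)`. The map `r ↦ ⌊(r - x) / w⌋` takes
at most `3x/w + 1 = 12 q |β| x + 1` values on `G`, and the elements of one fibre differ by less than
`w`, so by (2) by at most `2 δ / |β|`: the fibre has at most `2 δ / |β| + 1` elements. So
`|G| ≤ (12 q |β| x + 1) (2 δ / |β| + 1) = 24 q δ x + 12 q |β| x + 2 δ / |β| + 1
 ≤ 24 Λ δ x + 24 δ x + Y / 8 + 1 ≤ 32 Λ δ x + Y/8 + 1 ≤ x / Λ + Y/8 + 1 = Y/12 + Y/8 + 1 ≤ Y/2`.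
(`q |β| ≤ 2 δ`, `Λ + 1 ≤ 4 Λ / 3`.) Contradiction.
(4) So `|β| ≤ 16 δ / Y`. Take any `r ∈ G`: `|β r| ≤ (16 δ / Y) 4 x = (16/3) δ Λ`, so
`dI (a r / q) ≤ δ + (16/3) δ Λ ≤ 6 δ Λ < 1 / Λ ≤ 1 / q`; so `q ∣ a r`, `q ∣ r`, and
`q ≤ Λ < x ≤ r`, `r` prime, gives `q = 1`. So `dI α ≤ |β| ≤ 16 δ / Y`, contradiction.
-/

open Finset

namespace Pool.Agent.Helper55.PS

private lemma fiber_diff {x w : ℝ} (hw : 0 < w) {r r' : ℕ} (h : x ≤ r) (h' : x ≤ r')
    (he : ⌊((r : ℝ) - x) / w⌋₊ = ⌊((r' : ℝ) - x) / w⌋₊) : |(r' : ℝ) - r| < w := by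
  have h1 : (⌊((r : ℝ) - x) / w⌋₊ : ℝ) ≤ ((r : ℝ) - x) / w :=
    Nat.floor_le (div_nonneg (by linarith) hw.le)
  have h2 : ((r : ℝ) - x) / w < (⌊((r : ℝ) - x) / w⌋₊ : ℝ) + 1 := Nat.lt_floor_add_one _
  have h3 : (⌊((r' : ℝ) - x) / w⌋₊ : ℝ) ≤ ((r' : ℝ) - x) / w :=
    Nat.floor_le (div_nonneg (by linarith) hw.le)
  have h4 : ((r' : ℝ) - x) / w < (⌊((r' : ℝ) - x) / w⌋₊ : ℝ) + 1 := Nat.lt_floor_add_one _
  rw [← he] at h3 h4
  rw [le_div_iff₀ hw] at h1 h3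
  rw [div_lt_iff₀ hw] at h2 h4
  rw [abs_lt]
  constructor <;> nlinarith

private lemma fiber_maps {x w : ℝ} (hw : 0 < w) {r : ℕ} (h : (r : ℝ) ≤ 4 * x) :
    ⌊((r : ℝ) - x) / w⌋₊ ∈ Finset.range (⌊3 * x / w⌋₊ + 1) := by
  rw [Finset.mem_range, Nat.lt_succ_iff]
  exact Nat.floor_le_floor (div_le_div_of_nonneg_right (by linarith) hw.le)

private lemma card_le_of_diff {s : Finset ℕ} {m : ℕ} (h : ∀ r ∈ s, ∀ r' ∈ s, r < r' → r' - r ≤ m) :
    s.card ≤ m + 1 := by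
  rcases s.eq_empty_or_nonempty with rfl | hs
  · simp
  · have h1 : s ⊆ Finset.Icc (s.min' hs) (s.min' hs + m) := by
      intro r hr
      rw [Finset.mem_Icc]
      refine ⟨s.min'_le r hr, ?_⟩
      rcases (s.min'_le r hr).eq_or_lt with h2 | h2
      · omega
      · have := h _ (s.min'_mem hs) r hr h2
        omega
    refine (Finset.card_le_card h1).trans ?_
    rw [Nat.card_Icc]
    omega

private lemma one_le_abs {n : ℤ} (h : n ≠ 0) : (1 : ℝ) ≤ |(n : ℝ)| := by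
  rw [← Int.cast_abs]
  exact_mod_cast Int.one_le_abs h

private lemma dI_sub (a b : ℝ) : dI (a - b) ≤ dI a + dI b := by
  refine (dI_le_abs_sub (a - b) (round a - round b)).trans ?_
  have : a - b - ((round a - round b : ℤ) : ℝ) = (a - round a) - (b - round b) := by
    push_cast; ring
  rw [this]
  exact abs_sub _ _

/-- Step (2). -/
private lemma key_step {α δ Λ : ℝ} {q : ℕ} {a : ℤ} (hq : 0 < q) (hcop : IsCoprime a (q : ℤ))
    (hΛ : 3 ≤ Λ) (hqΛ : (q : ℝ) ≤ Λ) (hδ : 0 < δ) (hδ2 : 32 * Λ ^ 2 * δ ≤ 1) {g : ℕ}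
    (hg : dI (α * g) ≤ 2 * δ) (hb : |α - a / q| * g ≤ 1 / (4 * q)) :
    |α - a / q| * g ≤ 2 * δ := by
  have hq0 : (0 : ℝ) < q := by exact_mod_cast hq
  have hq1 : (1 : ℝ) ≤ q := by exact_mod_cast hq
  have hΛ0 : 0 < Λ := by linarith
  set β : ℝ := α - a / q with hβ
  have hα : α = a / q + β := by rw [hβ]; ring
  have habs : |β * g| ≤ 1 / (4 * q) := by rw [abs_mul, Nat.abs_cast]; exact hb
  have hδ3 : 2 * δ ≤ 1 / (48 * q) := by
    rw [le_div_iff₀ (by positivity)]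
    have h1 : 3 * (q : ℝ) ≤ Λ ^ 2 := by nlinarith
    nlinarith
  set n := round (α * g) with hn
  have h1 : |α * g - n| ≤ 2 * δ := hg
  have hdiv : (q : ℤ) ∣ a * g := by
    by_contra hnd
    have hne : a * g - n * q ≠ 0 := by
      intro h0
      exact hnd ⟨n, by linarith⟩
    have h2 := one_le_abs hne
    have h3 : ((a * g - n * q : ℤ) : ℝ) = q * ((α * g - n) - β * g) := by
      push_cast
      rw [hα]
      field_simp
      ring
    rw [h3, abs_mul, abs_of_pos hq0] at h2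
    have h4 : |α * g - n - β * g| ≤ 1 / (48 * q) + 1 / (4 * q) := by
      refine (abs_sub _ _).trans ?_
      linarith
    have h5 : (q : ℝ) * |α * g - n - β * g| ≤ q * (1 / (48 * q) + 1 / (4 * q)) :=
      mul_le_mul_of_nonneg_left h4 hq0.le
    have h6 : (q : ℝ) * (1 / (48 * q) + 1 / (4 * q)) = 13 / 48 := by field_simp; norm_num
    linarith
  have hdiv2 : (q : ℤ) ∣ g := by
    have := hcop.symm.dvd_of_dvd_mul_left hdiv
    exact this
  obtain ⟨m, hm⟩ := hdiv2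
  have hm' : (g : ℝ) = q * m := by exact_mod_cast congrArg (Int.cast : ℤ → ℝ) hm
  have h7 : α * g - n = β * g + ((a * m - n : ℤ) : ℝ) := by
    push_cast
    rw [hα, hm']
    field_simp
    ring
  have h8 : a * m - n = 0 := by
    by_contra hne
    have h9 := one_le_abs hne
    have h10 : |((a * m - n : ℤ) : ℝ)| ≤ 2 * δ + 1 / (4 * q) := by
      have : ((a * m - n : ℤ) : ℝ) = (α * g - n) - β * g := by rw [h7]; ring
      rw [this]
      refine (abs_sub _ _).trans ?_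
      linarith
    have h11 : 1 / (4 * (q : ℝ)) ≤ 1 / 4 := by
      apply div_le_div_of_nonneg_left <;> linarith
    have h12 : 1 / (48 * (q : ℝ)) ≤ 1 / 48 := by
      apply div_le_div_of_nonneg_left <;> linarith
    linarith
  rw [h8, Int.cast_zero, add_zero] at h7
  rw [h7, abs_mul, Nat.abs_cast] at h1
  exact h1

theorem minor_count {x δ α : ℝ} {Z : Finset ℕ} (hx : 0 < x)
    (hp : ∀ r ∈ Z, r.Prime) (h1 : ∀ r ∈ Z, x ≤ r) (h2 : ∀ r ∈ Z, (r : ℝ) ≤ 4 * x)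
    (hY : 13 ≤ Z.card) (hδ : 0 < δ) (hδ2 : 32 * (12 * x / Z.card) ^ 2 * δ ≤ 1)
    (hα : 16 * δ / Z.card < dI α) :
    ((Z.filter fun r : ℕ => dI (α * r) ≤ δ).card : ℝ) ≤ Z.card / 2 := by
  by_contra hcon
  push Not at hcon
  set G := Z.filter fun r : ℕ => dI (α * r) ≤ δ with hG
  set Y : ℝ := (Z.card : ℝ) with hYdef
  have hY' : (13 : ℝ) ≤ Y := by rw [hYdef]; exact_mod_cast hY
  have hY0 : 0 < Y := by linarith
  set Λ : ℝ := 12 * x / Y with hΛdef
  have hΛ0 : 0 < Λ := by positivity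
  have hΛY : Λ * Y = 12 * x := by rw [hΛdef]; field_simp
  have hY4 : Y ≤ 4 * x := by
    have hsub : Z ⊆ Finset.Icc 1 ⌊4 * x⌋₊ := by
      intro r hr
      rw [Finset.mem_Icc]
      exact ⟨(hp r hr).one_le, Nat.le_floor (h2 r hr)⟩
    have h3 := Finset.card_le_card hsub
    rw [Nat.card_Icc] at h3
    have h4 : (Z.card : ℝ) ≤ (⌊4 * x⌋₊ : ℝ) := by exact_mod_cast (by omega : Z.card ≤ ⌊4 * x⌋₊)
    exact h4.trans (Nat.floor_le (by positivity))
  have hΛ3 : 3 ≤ Λ := by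
    rw [hΛdef, le_div_iff₀ hY0]; linarith
  have hΛx : Λ < x := by
    rw [hΛdef, div_lt_iff₀ hY0]; nlinarith
  have hGZ : ∀ r ∈ G, r ∈ Z := fun r hr => (Finset.mem_filter.1 hr).1
  have hGd : ∀ r ∈ G, dI (α * r) ≤ δ := fun r hr => (Finset.mem_filter.1 hr).2
  have hdd : ∀ r ∈ G, ∀ r' ∈ G, r < r' → dI (α * ((r' - r : ℕ) : ℝ)) ≤ 2 * δ := by
    intro r hr r' hr' hlt
    rw [Nat.cast_sub hlt.le, mul_sub]
    refine (dI_sub _ _).trans ?_
    have := hGd r hr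
    have := hGd r' hr'
    linarith
  -- step 1
  have hpig : ∃ r ∈ G, ∃ r' ∈ G, r < r' ∧ ((r' - r : ℕ) : ℝ) < Λ := by
    have hcard : (Finset.range (⌊3 * x / Λ⌋₊ + 1)).card < G.card := by
      rw [Finset.card_range]
      have h3 : ((⌊3 * x / Λ⌋₊ + 1 : ℕ) : ℝ) < (G.card : ℝ) := by
        push_cast
        have h4 : (⌊3 * x / Λ⌋₊ : ℝ) ≤ 3 * x / Λ := Nat.floor_le (by positivity)
        have h5 : 3 * x / Λ = Y / 4 := by
          rw [div_eq_div_iff hΛ0.ne' (by norm_num)]; nlinarith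
        linarith
      exact_mod_cast h3
    obtain ⟨r, hr, r', hr', hne, he⟩ := Finset.exists_ne_map_eq_of_card_lt_of_maps_to hcard
      (f := fun r : ℕ => ⌊((r : ℝ) - x) / Λ⌋₊) (fun r hr => fiber_maps hΛ0 (h2 r (hGZ r hr)))
    have h3 := fiber_diff hΛ0 (h1 r (hGZ r hr)) (h1 r' (hGZ r' hr')) he
    rw [abs_lt] at h3
    rcases lt_or_gt_of_ne hne with hlt | hlt
    · refine ⟨r, hr, r', hr', hlt, ?_⟩
      rw [Nat.cast_sub hlt.le]; exact h3.2
    · refine ⟨r', hr', r, hr, hlt, ?_⟩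
      rw [Nat.cast_sub hlt.le]; linarith [h3.1]
  obtain ⟨r₀, hr₀, r₁, hr₁, hlt, hdΛ⟩ := hpig
  set d : ℕ := r₁ - r₀ with hd
  have hd0 : 0 < d := by omega
  have hd0' : (0 : ℝ) < d := by exact_mod_cast hd0
  set A : ℤ := round (α * d) with hA
  have hAd : |α * d - A| ≤ 2 * δ := hdd r₀ hr₀ r₁ hr₁ hlt
  set ρ : ℚ := (A : ℚ) / (d : ℤ) with hρ
  set q : ℕ := ρ.den with hq
  set a : ℤ := ρ.num with ha
  have hq0 : 0 < q := ρ.den_pos
  have hq0' : (0 : ℝ) < q := by exact_mod_cast hq0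
  have hq1' : (1 : ℝ) ≤ q := by exact_mod_cast hq0
  have hqd : q ≤ d := by
    have h3 : (q : ℤ) ∣ (d : ℤ) := by
      have := Rat.den_dvd A (d : ℤ)
      rw [hq, hρ]
      exact_mod_cast this
    exact Nat.le_of_dvd hd0 (by exact_mod_cast h3)
  have hqΛ : (q : ℝ) ≤ Λ := by
    have : (q : ℝ) ≤ d := by exact_mod_cast hqd
    linarith
  have hcop : IsCoprime a (q : ℤ) := by
    have h3 : Nat.Coprime a.natAbs q := ρ.reduced
    rw [Int.isCoprime_iff_gcd_eq_one]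
    simpa [Int.gcd] using h3
  have hρR : (a : ℝ) / q = A / d := by
    have h3 : ((ρ : ℚ) : ℝ) = (a : ℝ) / q := by
      rw [Rat.cast_def]
    have h4 : ((ρ : ℚ) : ℝ) = A / d := by
      rw [hρ]; push_cast; rfl
    rw [← h3, h4]
  set β : ℝ := α - a / q with hβ
  have hβd : |β| * d ≤ 2 * δ := by
    have h3 : α * d - A = β * d := by
      rw [hβ, hρR]; field_simp
    rw [h3, abs_mul, Nat.abs_cast] at hAd
    exact hAd
  have hβq : |β| * q ≤ 2 * δ := by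
    have : (q : ℝ) ≤ d := by exact_mod_cast hqd
    have := mul_le_mul_of_nonneg_left this (abs_nonneg β)
    linarith
  have hδΛ : 32 * Λ * δ * Λ ≤ 1 := by
    have : 32 * Λ * δ * Λ = 32 * Λ ^ 2 * δ := by ring
    rw [this]; exact hδ2
  -- step 3
  have hβsmall : |β| ≤ 16 * δ / Y := by
    by_contra hbig
    push Not at hbig
    have hβ0 : 0 < |β| := lt_of_le_of_lt (by positivity) hbig
    set w : ℝ := 1 / (4 * q * |β|) with hw
    have hw0 : 0 < w := by positivity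
    set m : ℕ := ⌊2 * δ / |β|⌋₊ with hm
    have hfib : ∀ k ∈ Finset.range (⌊3 * x / w⌋₊ + 1),
        (G.filter fun r : ℕ => ⌊((r : ℝ) - x) / w⌋₊ = k).card ≤ m + 1 := by
      intro k _
      apply card_le_of_diff
      intro r hr r' hr' hlt'
      rw [Finset.mem_filter] at hr hr'
      have h3 := fiber_diff hw0 (h1 r (hGZ r hr.1)) (h1 r' (hGZ r' hr'.1)) (hr.2.trans hr'.2.symm)
      have h4 : ((r' - r : ℕ) : ℝ) ≤ w := by
        rw [Nat.cast_sub hlt'.le]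
        exact (le_abs_self _).trans h3.le
      have h5 : |β| * ((r' - r : ℕ) : ℝ) ≤ 1 / (4 * q) := by
        refine (mul_le_mul_of_nonneg_left h4 hβ0.le).trans (le_of_eq ?_)
        rw [hw]; field_simp
      have h6 := key_step hq0 hcop hΛ3 hqΛ hδ hδ2 (hdd r hr.1 r' hr'.1 hlt') h5
      rw [hm]
      apply Nat.le_floor
      rw [le_div_iff₀ hβ0, mul_comm]
      exact h6
    have h3 := Finset.card_le_mul_card_image_of_maps_to (s := G) (t := Finset.range (⌊3 * x / w⌋₊ + 1))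
      (f := fun r : ℕ => ⌊((r : ℝ) - x) / w⌋₊) (fun r hr => fiber_maps hw0 (h2 r (hGZ r hr))) (m + 1) hfib
    rw [Finset.card_range] at h3
    have h4 : (G.card : ℝ) ≤ ((m : ℝ) + 1) * ((⌊3 * x / w⌋₊ : ℝ) + 1) := by exact_mod_cast h3
    have h5 : (m : ℝ) ≤ 2 * δ / |β| := Nat.floor_le (by positivity)
    have h6 : (⌊3 * x / w⌋₊ : ℝ) ≤ 12 * (|β| * q) * x := by
      refine (Nat.floor_le (by positivity)).trans (le_of_eq ?_)
      rw [hw]; field_simp; ring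
    have h7 : 2 * δ / |β| ≤ Y / 8 := by
      rw [div_le_div_iff₀ hβ0 (by norm_num)]
      rw [div_lt_iff₀ hY0] at hbig
      nlinarith
    have h8 : (G.card : ℝ) ≤ (2 * δ / |β| + 1) * (12 * (|β| * q) * x + 1) := by
      refine h4.trans (mul_le_mul (by linarith) (by linarith) (by positivity) (by positivity))
    have h9 : (2 * δ / |β| + 1) * (12 * (|β| * q) * x + 1) =
        24 * q * δ * x + 12 * (|β| * q) * x + 2 * δ / |β| + 1 := by
      field_simp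
      ring
    have hδx : 0 ≤ δ * x := by positivity
    have h10 : 24 * q * δ * x ≤ 24 * Λ * δ * x := by
      have := mul_le_mul_of_nonneg_right hqΛ hδx
      linarith
    have h11 : 12 * (|β| * q) * x ≤ 24 * δ * x := by
      have := mul_le_mul_of_nonneg_right hβq hx.le
      linarith
    have h12 : 24 * δ * x ≤ 8 * Λ * δ * x := by
      have := mul_le_mul_of_nonneg_right hΛ3 hδx
      linarith
    have h13 : 32 * Λ * δ * x ≤ Y / 12 := by
      have h14 : 32 * Λ * δ * x = (32 * Λ * δ * Λ) * (Y / 12) := by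
        linear_combination (-(32 * Λ * δ) / 12) * hΛY
      have h15 : 0 ≤ Y / 12 := by linarith
      rw [h14]
      exact mul_le_of_le_one_left h15 hδΛ
    linarith
  -- step 4
  have hq1 : q = 1 := by
    have hr := hGZ r₀ hr₀
    have hpr := hp r₀ hr
    have h3 : dI (α * r₀) ≤ δ := hGd r₀ hr₀
    set n := round (α * r₀) with hn
    have h4 : |α * r₀ - n| ≤ δ := h3
    have hdvd : (q : ℤ) ∣ a * r₀ := by
      by_contra hnd
      have hne : a * r₀ - n * q ≠ 0 := fun h0 => hnd ⟨n, by linarith⟩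
      have h5 := one_le_abs hne
      have h6 : ((a * r₀ - n * q : ℤ) : ℝ) = q * ((α * r₀ - n) - β * r₀) := by
        push_cast
        rw [hβ]
        field_simp
        ring
      rw [h6, abs_mul, abs_of_pos hq0'] at h5
      have h7 : |β * r₀| ≤ 16 / 3 * δ * Λ := by
        rw [abs_mul, Nat.abs_cast]
        have h8 : |β| * r₀ ≤ 16 * δ / Y * (4 * x) :=
          mul_le_mul hβsmall (h2 r₀ hr) (by positivity) (by positivity)
        refine h8.trans (le_of_eq ?_)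
        rw [div_mul_eq_mul_div, div_eq_iff hY0.ne']
        linear_combination (-(16 / 3) * δ) * hΛY
      have h9 : |α * r₀ - n - β * r₀| ≤ δ + 16 / 3 * δ * Λ := (abs_sub _ _).trans (by linarith)
      have h10 : (q : ℝ) * |α * r₀ - n - β * r₀| ≤ Λ * (6 * δ * Λ) := by
        refine mul_le_mul hqΛ (h9.trans ?_) (abs_nonneg _) hΛ0.le
        nlinarith
      nlinarith
    have hdvd2 : (q : ℤ) ∣ r₀ := hcop.symm.dvd_of_dvd_mul_left hdvd
    have hdvd3 : q ∣ r₀ := by exact_mod_cast hdvd2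
    rcases (Nat.dvd_prime hpr).1 hdvd3 with h5 | h5
    · exact h5
    · exfalso
      have h6 := h1 r₀ hr
      rw [← h5] at h6
      linarith
  have h3 : dI α ≤ |β| := by
    have := dI_le_abs_sub α a
    rw [hβ, hq1, Nat.cast_one, div_one]
    exact this
  linarith

end Pool.Agent.Helper55.PS
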