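import Pool.Agent.Helper55.PS.A

/-!
# Block PS-A2: minor and major arcs for sums with weights

`s` is a finite set of indices `i` with `x ≤ pr i ≤ 4x`.

* `minor_sum`: apply `minor_count` to `Z = s.image pr` (`pr` is injective, so `Z.card = s.card`).
  The elements of `s` with `dI (α pr i) > δ` are at least `s.card / 2` many and each contributes at
  least `τ₀ δ²`.
* `major_dI`: `|α| ≤ 16 δ / Y`, `Λ = 12 x / Y`, `32 Λ² δ ≤ 1`, `Y ≤ 4 x` (because the `Y` primes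
  `pr i` are in `[1, 4x]`), so `Λ ≥ 3` and `|α| r ≤ (16 δ / Y) 4 x = (16/3) δ Λ ≤ 1/18 < 1/2`; so
  `round (α r) = 0` and `dI (α r) = |α| r ≥ |α| x`.
-/

open Finset

namespace Pool.Agent.Helper55.PS

theorem minor_sum {x δ α τ0 : ℝ} {s : Finset ℕ} {τ : ℕ → ℝ} (hx : 0 < x)
    (h1 : ∀ i ∈ s, x ≤ pr i) (h2 : ∀ i ∈ s, (pr i : ℝ) ≤ 4 * x)
    (hY : 13 ≤ s.card) (hδ : 0 < δ) (hδ2 : 32 * (12 * x / s.card) ^ 2 * δ ≤ 1)
    (hτ0 : 0 ≤ τ0) (hτ : ∀ i ∈ s, τ0 ≤ τ i)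
    (hα : 16 * δ / s.card < dI α) :
    τ0 * s.card / 2 * δ ^ 2 ≤ ∑ i ∈ s, τ i * dI (α * pr i) ^ 2 := by
  classical
  have hcard : (s.image pr).card = s.card :=
    Finset.card_image_of_injective s pr_strictMono.injective
  have hm := minor_count (x := x) (δ := δ) (α := α) (Z := s.image pr) hx
    (by
      intro r hr
      obtain ⟨i, _, rfl⟩ := Finset.mem_image.1 hr
      exact pr_prime i)
    (by
      intro r hr
      obtain ⟨i, hi, rfl⟩ := Finset.mem_image.1 hr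
      exact h1 i hi)
    (by
      intro r hr
      obtain ⟨i, hi, rfl⟩ := Finset.mem_image.1 hr
      exact h2 i hi)
    (by rw [hcard]; exact hY) hδ (by rw [hcard]; exact hδ2) (by rw [hcard]; exact hα)
  rw [hcard] at hm
  have h3 : ((s.filter fun i => dI (α * pr i) ≤ δ).card : ℝ) ≤ s.card / 2 := by
    refine le_trans ?_ hm
    have h4 : (s.filter fun i => dI (α * pr i) ≤ δ).image pr ⊆
        (s.image pr).filter fun r : ℕ => dI (α * r) ≤ δ := by
      intro r hr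
      obtain ⟨i, hi, rfl⟩ := Finset.mem_image.1 hr
      obtain ⟨hi1, hi2⟩ := Finset.mem_filter.1 hi
      exact Finset.mem_filter.2 ⟨Finset.mem_image_of_mem pr hi1, hi2⟩
    have h5 := Finset.card_le_card h4
    rw [Finset.card_image_of_injective _ pr_strictMono.injective] at h5
    exact_mod_cast h5
  have h6 : (s.card : ℝ) / 2 ≤ ((s.filter fun i => ¬ dI (α * pr i) ≤ δ).card : ℝ) := by
    have h7 := Finset.card_filter_add_card_filter_not (s := s) (fun i => dI (α * pr i) ≤ δ)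
    have h8 : ((s.filter fun i => dI (α * pr i) ≤ δ).card : ℝ) +
        ((s.filter fun i => ¬ dI (α * pr i) ≤ δ).card : ℝ) = s.card := by exact_mod_cast h7
    linarith
  have hnn : ∀ i ∈ s, 0 ≤ τ i * dI (α * pr i) ^ 2 := fun i hi =>
    mul_nonneg (hτ0.trans (hτ i hi)) (sq_nonneg _)
  calc τ0 * s.card / 2 * δ ^ 2 = (s.card / 2) * (τ0 * δ ^ 2) := by ring
    _ ≤ ((s.filter fun i => ¬ dI (α * pr i) ≤ δ).card : ℝ) * (τ0 * δ ^ 2) :=
        mul_le_mul_of_nonneg_right h6 (mul_nonneg hτ0 (sq_nonneg _))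
    _ = ∑ i ∈ s.filter fun i => ¬ dI (α * pr i) ≤ δ, τ0 * δ ^ 2 := by
        rw [Finset.sum_const, nsmul_eq_mul]
    _ ≤ ∑ i ∈ s.filter fun i => ¬ dI (α * pr i) ≤ δ, τ i * dI (α * pr i) ^ 2 := by
        refine Finset.sum_le_sum (fun i hi => ?_)
        obtain ⟨hi1, hi2⟩ := Finset.mem_filter.1 hi
        have h9 : δ ≤ dI (α * pr i) := (not_le.1 hi2).le
        exact mul_le_mul (hτ i hi1) (pow_le_pow_left₀ hδ.le h9 2) (sq_nonneg _)
          (hτ0.trans (hτ i hi1))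
    _ ≤ ∑ i ∈ s, τ i * dI (α * pr i) ^ 2 :=
        Finset.sum_le_sum_of_subset_of_nonneg (Finset.filter_subset _ _)
          (fun i hi _ => hnn i hi)

theorem major_dI {x δ α : ℝ} {s : Finset ℕ} (hx : 0 < x)
    (h1 : ∀ i ∈ s, x ≤ pr i) (h2 : ∀ i ∈ s, (pr i : ℝ) ≤ 4 * x)
    (hY : 1 ≤ s.card) (hδ : 0 < δ) (hδ2 : 32 * (12 * x / s.card) ^ 2 * δ ≤ 1)
    (hα : |α| ≤ 16 * δ / s.card) :
    ∀ i ∈ s, |α| * x ≤ dI (α * pr i) := by
  classical
  intro i hi
  have hYpos : (0 : ℝ) < s.card := by exact_mod_cast hY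
  have hY4 : (s.card : ℝ) ≤ 4 * x := by
    have h3 : s.image pr ⊆ Finset.Icc 1 ⌊4 * x⌋₊ := by
      intro r hr
      obtain ⟨j, hj, rfl⟩ := Finset.mem_image.1 hr
      exact Finset.mem_Icc.2 ⟨pr_pos j, Nat.le_floor (h2 j hj)⟩
    have h4 := Finset.card_le_card h3
    rw [Finset.card_image_of_injective _ pr_strictMono.injective, Nat.card_Icc] at h4
    have h5 : s.card ≤ ⌊4 * x⌋₊ := by omega
    exact (Nat.cast_le.2 h5).trans (Nat.floor_le (by positivity))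
  set Λ : ℝ := 12 * x / s.card with hΛ
  have hΛ3 : 3 ≤ Λ := by
    rw [hΛ, le_div_iff₀ hYpos]
    linarith
  have h3 : |α| * pr i ≤ 16 * δ / s.card * (4 * x) :=
    mul_le_mul hα (h2 i hi) (by positivity) (by positivity)
  have h4 : 16 * δ / s.card * (4 * x) = 16 / 3 * (δ * Λ) := by
    rw [hΛ]
    field_simp
    ring
  have h5 : δ * Λ ≤ 1 / 96 := by
    have h6 : 32 * Λ ^ 2 * δ = 32 * Λ * (δ * Λ) := by ring
    rw [h6] at hδ2
    have h7 : 96 * (δ * Λ) ≤ 32 * Λ * (δ * Λ) :=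
      mul_le_mul_of_nonneg_right (by linarith) (by positivity)
    linarith
  have h6 : |α| * pr i < 1 / 2 := by
    rw [h4] at h3
    linarith
  have h7 : |α * pr i| = |α| * pr i := by
    rw [abs_mul, Nat.abs_cast]
  have h8 : round (α * pr i) = 0 := by
    rw [round_eq_zero_iff]
    rw [← h7, abs_lt] at h6
    exact ⟨h6.1.le, h6.2⟩
  unfold dI
  rw [h8, Int.cast_zero, sub_zero, h7]
  exact mul_le_mul_of_nonneg_left (h1 i hi) (abs_nonneg α)

end Pool.Agent.Helper55.PS
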