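import Pool.Agent.Helper55.PS.Defs

/-!
# Block PS-Ab: from the weighted to the unweighted count (Abel summation, deterministic)

Let `w i = 1 / pr i - 1 / pr (i+1) ≥ 0`. For a sequence `a` with `a 0 = 0`:
`∑_{i<N} (a (i+1) - a i) / pr i = a N / pr N + ∑_{i<N} a (i+1) w i` (induction). With `a = G S` the
left side is `F S N` and with `a = T S` it is `K S N` (`st S i / pr i` is `0` or `1`;
`pr i > 0`, so `st S i = pr i` iff `i ∉ S`).
For `M ≤ N`: `∑_{i<M} G (i+1) w i ≤ F S M ≤ M`, `∑_{i<M} T (i+1) w i ≤ K S M ≤ M`.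
Given `ε > 0` let `η = ε/4 (< 1/4)`, `M = ⌈N^(1-η)⌉`; for `M ≤ i + 1 ≤ N` and large `N`:
`log (i+1) ∈ [(1-η) log N, log N]` and `|G (i+1) - T (i+1) / (2 log (i+1))| ≤ η T(i+1) / (2 log (i+1))`,
so `|G (i+1) - T (i+1) / (2 log N)| ≤ 3 η T (i+1) / (2 log N)`. Summing with the weights:
`|F N - K N / (2 log N)| ≤ 2 M + 3 η K N / (2 log N)`, and `2 M ≤ η K N / (2 log N)` for large `N`
since `K N ≥ N / 16`.
-/

open Finset Filter
open scoped Topology

namespace Pool.Agent.Helper55.PS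

open Classical in
private theorem ab_st_div (S : Set ℕ) (i : ℕ) : (st S i : ℝ) / pr i = if i ∈ S then 0 else 1 := by
  have h : (pr i : ℝ) ≠ 0 := by exact_mod_cast (pr_pos i).ne'
  unfold st
  split_ifs
  · simp
  · exact div_self h

private theorem ab_step (a b s : ℝ) (p q : ℝ) :
    (a + s) / q + (b + (a + s) * (1 / p - 1 / q)) = a / p + b + s / p := by
  ring

theorem F_eq (S : Set ℕ) (N : ℕ) :
    (F S N : ℝ) = (G S N : ℝ) / pr N + ∑ i ∈ range N, (G S (i + 1) : ℝ) * (1 / pr i - 1 / pr (i + 1)) := by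
  classical
  induction N with
  | zero => simp [F, G]
  | succ N ih =>
    have h1 : (F S (N + 1) : ℝ) = F S N + (if (T S (N + 1)).Prime then (st S N : ℝ) / pr N else 0) := by
      have h2 : F S (N + 1) = F S N + if (N ∉ S ∧ (T S (N + 1)).Prime) then 1 else 0 := by
        unfold F
        rw [Finset.range_add_one, Finset.filter_insert]
        split_ifs with h
        · rw [Finset.card_insert_of_notMem (by simp)]
        · rfl
      rw [h2, ab_st_div]
      push_cast
      congr 1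
      by_cases hN : N ∈ S <;> by_cases hp : (T S (N + 1)).Prime <;> simp [hN, hp]
    have h3 : (G S (N + 1) : ℝ) = G S N + (if (T S (N + 1)).Prime then (st S N : ℝ) else 0) := by
      rw [G_succ]
      push_cast
      rfl
    have h4 : (if (T S (N + 1)).Prime then (st S N : ℝ) / pr N else 0) =
        (if (T S (N + 1)).Prime then (st S N : ℝ) else 0) / pr N := by
      split_ifs <;> simp
    rw [Finset.sum_range_succ, h1, h4, ih, h3, ab_step]

theorem K_eq (S : Set ℕ) (N : ℕ) :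
    (K S N : ℝ) = (T S N : ℝ) / pr N + ∑ i ∈ range N, (T S (i + 1) : ℝ) * (1 / pr i - 1 / pr (i + 1)) := by
  classical
  induction N with
  | zero => simp [K, T]
  | succ N ih =>
    have h1 : (K S (N + 1) : ℝ) = K S N + (st S N : ℝ) / pr N := by
      have h2 : K S (N + 1) = K S N + if N ∉ S then 1 else 0 := by
        unfold K
        rw [Finset.range_add_one, Finset.filter_insert]
        by_cases h : N ∈ S
        · rw [if_neg (not_not.2 h), if_neg (not_not.2 h), add_zero]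
        · rw [if_pos h, if_pos h, Finset.card_insert_of_notMem (by simp)]
      rw [h2, ab_st_div]
      push_cast
      congr 1
      by_cases hN : N ∈ S <;> simp [hN]
    have h3 : (T S (N + 1) : ℝ) = T S N + (st S N : ℝ) := by
      rw [T_succ]
      push_cast
      rfl
    rw [Finset.sum_range_succ, h1, ih, h3, ab_step]

private theorem ab_w_nonneg (i : ℕ) : (0 : ℝ) ≤ 1 / pr i - 1 / pr (i + 1) := by
  have h1 : (0 : ℝ) < pr i := by exact_mod_cast pr_pos i
  have h2 : (pr i : ℝ) ≤ pr (i + 1) := by exact_mod_cast (pr_strictMono (Nat.lt_succ_self i)).le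
  have := one_div_le_one_div_of_le h1 h2
  linarith

private theorem ab_F_le (S : Set ℕ) (M : ℕ) :
    ∑ i ∈ range M, (G S (i + 1) : ℝ) * (1 / pr i - 1 / pr (i + 1)) ≤ M := by
  classical
  have h := F_eq S M
  have h1 : (F S M : ℝ) ≤ M := by
    have : F S M ≤ M := by
      unfold F
      exact (Finset.card_filter_le _ _).trans (by simp)
    exact_mod_cast this
  have h2 : (0 : ℝ) ≤ (G S M : ℝ) / pr M := by positivity
  linarith

private theorem ab_K_le (S : Set ℕ) (M : ℕ) :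
    ∑ i ∈ range M, (T S (i + 1) : ℝ) * (1 / pr i - 1 / pr (i + 1)) ≤ M := by
  classical
  have h := K_eq S M
  have h1 : (K S M : ℝ) ≤ M := by
    have : K S M ≤ M := by
      unfold K
      exact (Finset.card_filter_le _ _).trans (by simp)
    exact_mod_cast this
  have h2 : (0 : ℝ) ≤ (T S M : ℝ) / pr M := by positivity
  linarith

/-- The main inequality. -/
private theorem ab_main (S : Set ℕ) {M N : ℕ} (hMN : M ≤ N) {l c : ℝ} (hl : 1 ≤ 2 * l) (hc : 0 ≤ c)
    (h : ∀ j, M ≤ j → j ≤ N → |(G S j : ℝ) - T S j / (2 * l)| ≤ c * T S j) :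
    |(F S N : ℝ) - K S N / (2 * l)| ≤ 2 * M + c * K S N := by
  have hl0 : 0 < 2 * l := by linarith
  set w : ℕ → ℝ := fun i => 1 / pr i - 1 / pr (i + 1) with hw
  have hw0 : ∀ i, 0 ≤ w i := ab_w_nonneg
  have hF : (F S N : ℝ) = (G S N : ℝ) / pr N + ∑ i ∈ range N, (G S (i + 1) : ℝ) * w i := F_eq S N
  have hK : (K S N : ℝ) = (T S N : ℝ) / pr N + ∑ i ∈ range N, (T S (i + 1) : ℝ) * w i := K_eq S N
  have hF2 : ∑ i ∈ range N, (G S (i + 1) : ℝ) * w i = ∑ i ∈ range M, (G S (i + 1) : ℝ) * w i +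
      ∑ i ∈ Finset.Ico M N, (G S (i + 1) : ℝ) * w i := (Finset.sum_range_add_sum_Ico _ hMN).symm
  have hK2 : ∑ i ∈ range N, (T S (i + 1) : ℝ) * w i = ∑ i ∈ range M, (T S (i + 1) : ℝ) * w i +
      ∑ i ∈ Finset.Ico M N, (T S (i + 1) : ℝ) * w i := (Finset.sum_range_add_sum_Ico _ hMN).symm
  have hFM : ∑ i ∈ range M, (G S (i + 1) : ℝ) * w i ≤ M := ab_F_le S M
  have hKM : ∑ i ∈ range M, (T S (i + 1) : ℝ) * w i ≤ M := ab_K_le S M
  have hFM0 : 0 ≤ ∑ i ∈ range M, (G S (i + 1) : ℝ) * w i :=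
    Finset.sum_nonneg fun i _ => mul_nonneg (Nat.cast_nonneg _) (hw0 i)
  have hKM0 : 0 ≤ ∑ i ∈ range M, (T S (i + 1) : ℝ) * w i :=
    Finset.sum_nonneg fun i _ => mul_nonneg (Nat.cast_nonneg _) (hw0 i)
  have hprN : (0 : ℝ) < pr N := by exact_mod_cast pr_pos N
  -- the tail
  have htail : |∑ i ∈ Finset.Ico M N, (G S (i + 1) : ℝ) * w i -
      (∑ i ∈ Finset.Ico M N, (T S (i + 1) : ℝ) * w i) / (2 * l)| ≤
      c * ∑ i ∈ Finset.Ico M N, (T S (i + 1) : ℝ) * w i := by
    rw [Finset.sum_div, ← Finset.sum_sub_distrib, Finset.mul_sum]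
    refine (Finset.abs_sum_le_sum_abs _ _).trans (Finset.sum_le_sum fun i hi => ?_)
    have hi' := Finset.mem_Ico.1 hi
    have h1 := h (i + 1) (by omega) (by omega)
    have h2 : (G S (i + 1) : ℝ) * w i - (T S (i + 1) : ℝ) * w i / (2 * l) =
        ((G S (i + 1) : ℝ) - T S (i + 1) / (2 * l)) * w i := by ring
    rw [h2, abs_mul, abs_of_nonneg (hw0 i)]
    calc _ ≤ c * T S (i + 1) * w i := mul_le_mul_of_nonneg_right h1 (hw0 i)
      _ = _ := by ring
  have hlast : |(G S N : ℝ) / pr N - (T S N : ℝ) / pr N / (2 * l)| ≤ c * ((T S N : ℝ) / pr N) := by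
    have h1 := h N hMN le_rfl
    have h2 : (G S N : ℝ) / pr N - (T S N : ℝ) / pr N / (2 * l) =
        ((G S N : ℝ) - T S N / (2 * l)) / pr N := by ring
    rw [h2, abs_div, abs_of_pos hprN, div_le_iff₀ hprN]
    calc _ ≤ c * T S N := h1
      _ = _ := by field_simp
  have hKMl : (∑ i ∈ range M, (T S (i + 1) : ℝ) * w i) / (2 * l) ≤ M := by
    rw [div_le_iff₀ hl0]
    have : (0 : ℝ) ≤ M := Nat.cast_nonneg M
    nlinarith
  have hKMl0 : 0 ≤ (∑ i ∈ range M, (T S (i + 1) : ℝ) * w i) / (2 * l) := by positivity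
  have hM0 : (0 : ℝ) ≤ M := Nat.cast_nonneg M
  have hcK : 0 ≤ c * ∑ i ∈ range M, (T S (i + 1) : ℝ) * w i := mul_nonneg hc hKM0
  have e1 := abs_le.1 htail
  have e2 := abs_le.1 hlast
  have hKl : (K S N : ℝ) / (2 * l) = (T S N : ℝ) / pr N / (2 * l) +
      (∑ i ∈ range M, (T S (i + 1) : ℝ) * w i) / (2 * l) +
      (∑ i ∈ Finset.Ico M N, (T S (i + 1) : ℝ) * w i) / (2 * l) := by
    rw [hK, hK2]; ring
  have hcKN : c * K S N = c * ((T S N : ℝ) / pr N) + c * ∑ i ∈ range M, (T S (i + 1) : ℝ) * w i +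
      c * ∑ i ∈ Finset.Ico M N, (T S (i + 1) : ℝ) * w i := by
    rw [hK, hK2]; ring
  rw [hKl, hcKN, hF, hF2, abs_le]
  constructor
  · linarith [e1.1, e2.1]
  · linarith [e1.2, e2.2]

private theorem ab_local {g t l L η : ℝ} (ht : 0 < t) (hη0 : 0 < η) (hη : η ≤ 1 / 4) (hL : 0 < L)
    (hl1 : (1 - η) * L ≤ l) (hl2 : l ≤ L) (h : |g / (t / (2 * l)) - 1| ≤ η) :
    |g - t / (2 * L)| ≤ 3 * η / (2 * L) * t := by
  have hl0 : 0 < l := by nlinarith
  have h1 : 0 < t / (2 * l) := by positivity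
  have h2 : |g - t / (2 * l)| ≤ η * (t / (2 * l)) := by
    have h3 : g - t / (2 * l) = (g / (t / (2 * l)) - 1) * (t / (2 * l)) := by
      rw [sub_mul, div_mul_cancel₀ _ h1.ne', one_mul]
    rw [h3, abs_mul, abs_of_pos h1]
    gcongr
  have h4 : t / (2 * L) ≤ t / (2 * l) := by gcongr
  have h5 : t / (2 * l) ≤ (1 + 4 / 3 * η) * (t / (2 * L)) := by
    rw [div_le_iff₀ (by positivity)]
    have h6 : (1 + 4 / 3 * η) * (t / (2 * L)) * (2 * l) = t * ((1 + 4 / 3 * η) * (l / L)) := by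
      field_simp
    rw [h6]
    have h7 : 1 ≤ (1 + 4 / 3 * η) * (l / L) := by
      have h8 : 1 - η ≤ l / L := by rwa [le_div_iff₀ hL]
      nlinarith
    nlinarith
  have h9 : η * (t / (2 * l)) ≤ 4 / 3 * η * (t / (2 * L)) := by
    have h10 : t / (2 * l) ≤ 4 / 3 * (t / (2 * L)) := by
      refine h5.trans ?_
      have : 0 < t / (2 * L) := by positivity
      nlinarith
    nlinarith
  have h11 : 0 < t / (2 * L) := by positivity
  have h12 : 3 * η / (2 * L) * t = 3 * η * (t / (2 * L)) := by ring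
  rw [h12]
  obtain ⟨h13, h14⟩ := abs_le.1 h2
  have h15 : 0 < η * (t / (2 * L)) := by positivity
  rw [abs_le]
  constructor
  · linarith
  · linarith

theorem F_asymp {S : Set ℕ}
    (hG : Tendsto (fun N : ℕ => (G S N : ℝ) / (T S N / (2 * Real.log N))) atTop (𝓝 1))
    (hK : ∀ᶠ N : ℕ in atTop, N ≤ 16 * K S N) :
    Tendsto (fun N : ℕ => (F S N : ℝ) / (K S N / (2 * Real.log N))) atTop (𝓝 1) := by
  rw [Metric.tendsto_atTop]
  intro ε hε
  set η : ℝ := min (ε / 8) (1 / 8) with hη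
  have hη0 : 0 < η := lt_min (by positivity) (by norm_num)
  have hη1 : η ≤ 1 / 8 := min_le_right _ _
  have hηε : η ≤ ε / 8 := min_le_left _ _
  obtain ⟨J, hJ⟩ := Metric.tendsto_atTop.1 hG η hη0
  have hpow : Tendsto (fun N : ℕ => (N : ℝ) ^ (1 - η)) atTop atTop :=
    (tendsto_rpow_atTop (by linarith)).comp tendsto_natCast_atTop_atTop
  have hlog : ∀ᶠ N : ℕ in atTop, Real.log (N : ℝ) ≤ η / 128 * (N : ℝ) ^ η := by
    have h := (isLittleO_log_rpow_atTop hη0).bound (show (0 : ℝ) < η / 128 by positivity)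
    filter_upwards [tendsto_natCast_atTop_atTop.eventually h, eventually_ge_atTop 1] with N hN hN1
    have hN1' : (1 : ℝ) ≤ N := by exact_mod_cast hN1
    rw [Real.norm_of_nonneg (Real.log_nonneg hN1'), Real.norm_of_nonneg (by positivity)] at hN
    exact hN
  have hev : ∀ᶠ N : ℕ in atTop, dist ((F S N : ℝ) / (K S N / (2 * Real.log N))) 1 < ε := by
    filter_upwards [hK, hpow.eventually_ge_atTop ((J : ℝ) + 2), hlog, eventually_ge_atTop 3]
      with N hN1 hN2 hN3 hN4
    have hN4' : (3 : ℝ) ≤ N := by exact_mod_cast hN4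
    have hN0 : (0 : ℝ) < N := by linarith
    have hL : 1 < Real.log (N : ℝ) := by
      rw [Real.lt_log_iff_exp_lt hN0]
      have := Real.exp_one_lt_d9
      linarith
    set L := Real.log (N : ℝ) with hLdef
    have hKN : (N : ℝ) ≤ 16 * K S N := by exact_mod_cast hN1
    have hK0 : (0 : ℝ) < K S N := by linarith
    set M : ℕ := ⌈(N : ℝ) ^ (1 - η)⌉₊ with hM
    have hM1 : (N : ℝ) ^ (1 - η) ≤ M := Nat.le_ceil _
    have hpow0 : 0 < (N : ℝ) ^ (1 - η) := by positivity
    have hM2 : (M : ℝ) < (N : ℝ) ^ (1 - η) + 1 := Nat.ceil_lt_add_one hpow0.le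
    have hMN : M ≤ N := by
      rw [hM, Nat.ceil_le]
      calc (N : ℝ) ^ (1 - η) ≤ (N : ℝ) ^ (1 : ℝ) :=
            Real.rpow_le_rpow_of_exponent_le (by linarith) (by linarith)
        _ = N := Real.rpow_one _
    have hMJ : J + 2 ≤ M := by
      have : ((J + 2 : ℕ) : ℝ) ≤ M := by push_cast; linarith
      exact_mod_cast this
    have hloc : ∀ j, M ≤ j → j ≤ N → |(G S j : ℝ) - T S j / (2 * L)| ≤
        3 * η / (2 * L) * T S j := by
      intro j hj1 hj2
      have hd := hJ j (by omega)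
      rw [Real.dist_eq] at hd
      have hj2' : (2 : ℝ) ≤ j := by
        have : 2 ≤ j := by omega
        exact_mod_cast this
      have hjN : (j : ℝ) ≤ N := by exact_mod_cast hj2
      have hT : (0 : ℝ) < T S j := by
        rcases Nat.eq_zero_or_pos (T S j) with h0 | h0
        · rw [h0] at hd
          simp at hd
          linarith
        · exact_mod_cast h0
      have hlj : (1 - η) * L ≤ Real.log j := by
        rw [hLdef, ← Real.log_rpow hN0]
        refine Real.log_le_log hpow0 (hM1.trans ?_)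
        exact_mod_cast hj1
      exact ab_local hT hη0 (by linarith) (by linarith) hlj
        (Real.log_le_log (by linarith) hjN) hd.le
    have hmain := ab_main S hMN (l := L) (c := 3 * η / (2 * L)) (by linarith)
      (by positivity) hloc
    have hM3 : 2 * (M : ℝ) ≤ η * (K S N / (2 * L)) := by
      have h1 : (1 : ℝ) ≤ (N : ℝ) ^ (1 - η) := by
        have : (0 : ℝ) ≤ J := Nat.cast_nonneg J
        linarith
      have h2 : 2 * (M : ℝ) ≤ 4 * (N : ℝ) ^ (1 - η) := by linarith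
      have h3 : (N : ℝ) ^ (1 - η) * (N : ℝ) ^ η = N := by
        rw [← Real.rpow_add hN0]
        simp
      have h4 : (N : ℝ) ^ (1 - η) * L ≤ η / 128 * N := by
        calc (N : ℝ) ^ (1 - η) * L ≤ (N : ℝ) ^ (1 - η) * (η / 128 * (N : ℝ) ^ η) := by gcongr
          _ = η / 128 * ((N : ℝ) ^ (1 - η) * (N : ℝ) ^ η) := by ring
          _ = η / 128 * N := by rw [h3]
      refine h2.trans ?_
      rw [← mul_div_assoc, le_div_iff₀ (by positivity)]
      nlinarith
    have hKL : 0 < (K S N : ℝ) / (2 * L) := by positivity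
    have hfin : |(F S N : ℝ) - K S N / (2 * L)| ≤ 4 * η * (K S N / (2 * L)) := by
      refine hmain.trans ?_
      have : 3 * η / (2 * L) * K S N = 3 * η * (K S N / (2 * L)) := by ring
      rw [this]
      linarith
    rw [Real.dist_eq]
    have h5 : (F S N : ℝ) / (K S N / (2 * L)) - 1 =
        ((F S N : ℝ) - K S N / (2 * L)) / (K S N / (2 * L)) := by
      rw [sub_div, div_self hKL.ne']
    rw [h5, abs_div, abs_of_pos hKL, div_lt_iff₀ hKL]
    refine hfin.trans_lt ?_
    nlinarith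
  exact eventually_atTop.1 hev

end Pool.Agent.Helper55.PS
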