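import Pool.Agent.Helper55.PS.A2

/-!
# Block PS-B: the characteristic function is small away from `0`

* `factor_le`: for `0 ≤ t ≤ 1/2`: `|t + (1 - t) e(θ)|² = 1 - 2 t (1 - t) (1 - cos 2πθ)
  = 1 - 4 t (1 - t) sin² πθ ≤ 1 - 16 t (1 - t) dI(θ)² ≤ 1 - 8 t dI(θ)² ≤ exp (-8 t dI(θ)²)`, where
  `|sin πθ| = sin (π dI θ) ≥ 2 dI θ` (Jordan's inequality `Real.mul_le_sin`, `0 ≤ dI θ ≤ 1/2`).
* `phi_sq_le`: multiply over `i ∈ s`.
* `phi_bound`: for `|α| ≤ 1/2` one has `dI α = |α|`. If `|α| ≤ 16 δ / s.card` use `major_dI`: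
  `∑ τ i dI² ≥ (∑ τ i) x² α² = σ² α²`. Otherwise use `minor_sum`.
-/

open Finset

namespace Pool.Agent.Helper55.PS

private lemma psb_cos (θ : ℝ) : 8 * dI θ ^ 2 ≤ 1 - Real.cos (2 * Real.pi * θ) := by
  have h0 : 0 ≤ dI θ := dI_nonneg θ
  have h1 : dI θ ≤ 1 / 2 := dI_le_half θ
  have hpi := Real.pi_pos
  have e : Real.cos (2 * Real.pi * θ) = Real.cos (2 * (Real.pi * dI θ)) := by
    have e1 : Real.cos (2 * Real.pi * θ) = Real.cos (2 * Real.pi * (θ - round θ)) := by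
      have : 2 * Real.pi * (θ - round θ) = 2 * Real.pi * θ - (round θ : ℤ) * (2 * Real.pi) := by
        ring
      rw [this, Real.cos_sub_int_mul_two_pi]
    rw [e1]
    unfold dI
    rw [← Real.cos_abs, abs_mul, abs_of_pos (by positivity : (0 : ℝ) < 2 * Real.pi), mul_assoc]
  have h2 : 2 * dI θ ≤ Real.sin (Real.pi * dI θ) := by
    have h3 := Real.mul_le_sin (x := Real.pi * dI θ) (by positivity) (by nlinarith)
    have h4 : 2 / Real.pi * (Real.pi * dI θ) = 2 * dI θ := by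
      field_simp
    rwa [h4] at h3
  have h5 : (2 * dI θ) ^ 2 ≤ Real.sin (Real.pi * dI θ) ^ 2 := by
    apply pow_le_pow_left₀ (by positivity) h2
  rw [e, Real.cos_two_mul]
  have h6 := Real.sin_sq_add_cos_sq (Real.pi * dI θ)
  nlinarith

private lemma psb_norm (t θ : ℝ) :
    ‖(t : ℂ) + (1 - (t : ℂ)) * Complex.exp (2 * Real.pi * Complex.I * θ)‖ ^ 2 =
      1 - 2 * t * (1 - t) * (1 - Real.cos (2 * Real.pi * θ)) := by
  have e : (2 * Real.pi * Complex.I * θ : ℂ) = ((2 * Real.pi * θ : ℝ) : ℂ) * Complex.I := by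
    push_cast; ring
  rw [e, Complex.exp_mul_I, ← Complex.ofReal_cos, ← Complex.ofReal_sin, ← Complex.normSq_eq_norm_sq,
    Complex.normSq_apply]
  have h6 := Real.sin_sq_add_cos_sq (2 * Real.pi * θ)
  simp only [Complex.add_re, Complex.add_im, Complex.mul_re, Complex.mul_im, Complex.sub_re,
    Complex.sub_im, Complex.one_re, Complex.one_im, Complex.ofReal_re, Complex.ofReal_im,
    Complex.I_re, Complex.I_im]
  generalize Real.cos (2 * Real.pi * θ) = c at *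
  generalize Real.sin (2 * Real.pi * θ) = s at *
  have h7 : s ^ 2 = 1 - c ^ 2 := by linarith
  ring_nf
  rw [h7]
  ring

theorem factor_le {t : ℝ} (h0 : 0 ≤ t) (h1 : t ≤ 1 / 2) (θ : ℝ) :
    ‖(t : ℂ) + (1 - (t : ℂ)) * Complex.exp (2 * Real.pi * Complex.I * θ)‖ ^ 2 ≤
      Real.exp (-8 * t * dI θ ^ 2) := by
  rw [psb_norm]
  have h2 := psb_cos θ
  have h3 := Real.add_one_le_exp (-8 * t * dI θ ^ 2)
  have h4 : 0 ≤ dI θ ^ 2 := sq_nonneg _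
  have h5 : t ≤ 2 * t * (1 - t) := by nlinarith
  have h6 : 2 * t * (1 - t) * (8 * dI θ ^ 2) ≤
      2 * t * (1 - t) * (1 - Real.cos (2 * Real.pi * θ)) :=
    mul_le_mul_of_nonneg_left h2 (h0.trans h5)
  have h7 : t * (8 * dI θ ^ 2) ≤ 2 * t * (1 - t) * (8 * dI θ ^ 2) :=
    mul_le_mul_of_nonneg_right h5 (by positivity)
  linarith

theorem phi_sq_le {τ : ℕ → ℝ} {s : Finset ℕ} (h0 : ∀ i ∈ s, 0 ≤ τ i) (h1 : ∀ i ∈ s, τ i ≤ 1 / 2)
    (α : ℝ) :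
    ‖phi τ s α‖ ^ 2 ≤ Real.exp (-8 * ∑ i ∈ s, τ i * dI (α * pr i) ^ 2) := by
  unfold phi
  rw [norm_prod, ← Finset.prod_pow, Finset.mul_sum, Real.exp_sum]
  refine Finset.prod_le_prod (fun i _ => by positivity) fun i hi => ?_
  have h := factor_le (h0 i hi) (h1 i hi) (α * pr i)
  have e : (-8 : ℝ) * (τ i * dI (α * pr i) ^ 2) = -8 * τ i * dI (α * pr i) ^ 2 := by ring
  rw [e]
  have e2 : ((α : ℂ) * ((pr i : ℝ) : ℂ)) = ((α * (pr i : ℝ) : ℝ) : ℂ) := by push_cast; ring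
  rw [e2]
  exact h

private lemma psb_dI {α : ℝ} (hα : |α| ≤ 1 / 2) : |α| ≤ dI α := by
  unfold dI
  by_cases h : round α = 0
  · rw [h]; simp
  · have h1 : (1 : ℝ) ≤ |(round α : ℝ)| := by
      have : (1 : ℤ) ≤ |round α| := Int.one_le_abs h
      have h2 : ((1 : ℤ) : ℝ) ≤ ((|round α| : ℤ) : ℝ) := by exact_mod_cast this
      rw [Int.cast_abs] at h2
      simpa using h2
    have h3 : |(round α : ℝ)| - |α| ≤ |α - round α| := by
      rw [abs_sub_comm α]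
      exact abs_sub_abs_le_abs_sub _ _
    linarith

theorem phi_bound {x δ τ0 : ℝ} {s : Finset ℕ} {τ : ℕ → ℝ} (hx : 0 < x)
    (h1 : ∀ i ∈ s, x ≤ pr i) (h2 : ∀ i ∈ s, (pr i : ℝ) ≤ 4 * x)
    (hY : 13 ≤ s.card) (hδ : 0 < δ) (hδ2 : 32 * (12 * x / s.card) ^ 2 * δ ≤ 1)
    (hτ0 : 0 ≤ τ0) (hτ : ∀ i ∈ s, τ0 ≤ τ i) (hτ1 : ∀ i ∈ s, τ i ≤ 1 / 2)
    {α : ℝ} (hα : |α| ≤ 1 / 2) :
    ‖phi τ s α‖ ^ 2 ≤
      Real.exp (-8 * ((∑ i ∈ s, τ i) * x ^ 2) * α ^ 2) + Real.exp (-4 * (τ0 * s.card * δ ^ 2)) := by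
  have hp := phi_sq_le (τ := τ) (s := s) (fun i hi => hτ0.trans (hτ i hi)) hτ1 α
  rcases le_or_gt |α| (16 * δ / s.card) with h | h
  · have h3 := major_dI hx h1 h2 (by omega) hδ hδ2 h
    have h4 : (∑ i ∈ s, τ i) * x ^ 2 * α ^ 2 ≤ ∑ i ∈ s, τ i * dI (α * pr i) ^ 2 := by
      rw [Finset.sum_mul, Finset.sum_mul]
      refine Finset.sum_le_sum fun i hi => ?_
      have h5 : (|α| * x) ^ 2 ≤ dI (α * pr i) ^ 2 :=
        pow_le_pow_left₀ (by positivity) (h3 i hi) 2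
      rw [mul_pow, sq_abs] at h5
      have h6 : 0 ≤ τ i := hτ0.trans (hτ i hi)
      calc τ i * x ^ 2 * α ^ 2 = τ i * (α ^ 2 * x ^ 2) := by ring
        _ ≤ _ := mul_le_mul_of_nonneg_left h5 h6
    have h7 : Real.exp (-8 * ∑ i ∈ s, τ i * dI (α * pr i) ^ 2) ≤
        Real.exp (-8 * ((∑ i ∈ s, τ i) * x ^ 2) * α ^ 2) := by
      apply Real.exp_le_exp.mpr
      linarith
    have h8 := Real.exp_pos (-4 * (τ0 * s.card * δ ^ 2))
    linarith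
  · have h3 := minor_sum hx h1 h2 hY hδ hδ2 hτ0 hτ (h.trans_le (psb_dI hα))
    have h7 : Real.exp (-8 * ∑ i ∈ s, τ i * dI (α * pr i) ^ 2) ≤
        Real.exp (-4 * (τ0 * s.card * δ ^ 2)) := by
      apply Real.exp_le_exp.mpr
      linarith
    have h8 := Real.exp_pos (-8 * ((∑ i ∈ s, τ i) * x ^ 2) * α ^ 2)
    linarith

end Pool.Agent.Helper55.PS
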