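import Pool.Agent.Helper55.PS.SMO

/-!
# Block PS-BM: the mean over the zone of one block

A block of indices `[m, m + L)`; its zone `A = [m, m + Y)`. `S'` = the deletions outside the zone,
fixed; `S ⊆ A` random. Write `g` for the indicator function of the primes, `t₀ = T S' m`
(`= T (S' ∪ S) m`), `ρ = rho A S`, so `T (S' ∪ S) (m + Y) = t₀ + ρ`; `n = L - Y`,
`s j = st S' (m + Y + j)` for `j < n`, `v j = ∑_{i<j} s i`. Then
`D (S' ∪ S) (m + L) - D (S' ∪ S) m = [D (m + Y) - D m] + Φ (t₀ + ρ)`,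
`Φ t = ∑_{i<n} s i * g (t + v (i+1)) - ∑_{w < v n} g (t + w + 1)`
(`π(t + v) - π(t) = ∑_{w<v} g (t + w + 1)`). The first bracket is at most `P Y` in absolute value
(`abs_D_sub_le`), `|Φ| ≤ v n ≤ P L` (both sums lie in `[0, v n]`). By `hTV` with
`f y = Φ (t₀ + y) / (P L)` (if `P L = 0` then `Φ = 0`), for each `h < H`:
`|E Φ (t₀ + ρ) - E Φ (t₀ + ρ + h)| ≤ P L TV`; average over `h < H` and use
`smooth`: `|∑_{h<H} Φ (t + h)| ≤ P v n ≤ P² L` for each `t`. So
`|E Φ (t₀ + ρ)| ≤ P L TV + P² L / H`.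
-/

open Finset

namespace Pool.Agent.Helper55.PS

/-- the indicator function of the primes -/
private noncomputable def h97_g (n : ℕ) : ℝ := if n.Prime then 1 else 0

private lemma h97_g_nonneg (n : ℕ) : 0 ≤ h97_g n := by
  unfold h97_g
  split_ifs <;> norm_num

private lemma h97_g_le (n : ℕ) : h97_g n ≤ 1 := by
  unfold h97_g
  split_ifs <;> norm_num

private lemma h97_pi_succ (t : ℕ) :
    (Nat.primeCounting (t + 1) : ℝ) = Nat.primeCounting t + h97_g (t + 1) := by
  unfold Nat.primeCounting Nat.primeCounting' h97_g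
  rw [Nat.count_succ]
  push_cast
  rfl

private lemma h97_pi_add (t v : ℕ) :
    (Nat.primeCounting (t + v) : ℝ) = Nat.primeCounting t + ∑ w ∈ range v, h97_g (t + w + 1) := by
  induction v with
  | zero => simp
  | succ v ih =>
    rw [← add_assoc, h97_pi_succ, ih, Finset.sum_range_succ]
    ring

private lemma h97_T_add (U : Set ℕ) (a n : ℕ) :
    T U (a + n) = T U a + ∑ j ∈ range n, st U (a + j) := by
  unfold T
  rw [Finset.sum_range_add]

private lemma h97_G_add (U : Set ℕ) (a n : ℕ) :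
    (G U (a + n) : ℝ) = G U a + ∑ i ∈ range n, (st U (a + i) : ℝ) *
      h97_g (T U a + ∑ j ∈ range (i + 1), st U (a + j)) := by
  induction n with
  | zero => simp
  | succ n ih =>
    rw [← add_assoc, G_succ, Finset.sum_range_succ]
    push_cast
    rw [ih, ← h97_T_add U a (n + 1), show a + (n + 1) = a + n + 1 from rfl]
    have e : ((if (T U (a + n + 1)).Prime then st U (a + n) else 0 : ℕ) : ℝ) =
        (st U (a + n) : ℝ) * h97_g (T U (a + n + 1)) := by
      unfold h97_g
      split_ifs <;> simp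
    push_cast at e
    rw [← e]
    ring

/-- the discrepancy after the zone -/
private noncomputable def h97_Phi (s : ℕ → ℕ) (n t : ℕ) : ℝ :=
  (∑ i ∈ range n, (s i : ℝ) * h97_g (t + ∑ j ∈ range (i + 1), s j)) -
    ∑ v ∈ range (∑ j ∈ range n, s j), h97_g (t + v + 1)

private lemma h97_Phi_le (s : ℕ → ℕ) (n t : ℕ) :
    |h97_Phi s n t| ≤ ((∑ j ∈ range n, s j : ℕ) : ℝ) := by
  unfold h97_Phi
  have a1 : 0 ≤ ∑ i ∈ range n, (s i : ℝ) * h97_g (t + ∑ j ∈ range (i + 1), s j) :=
    Finset.sum_nonneg fun i _ => mul_nonneg (Nat.cast_nonneg _) (h97_g_nonneg _)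
  have a2 : ∑ i ∈ range n, (s i : ℝ) * h97_g (t + ∑ j ∈ range (i + 1), s j) ≤
      ((∑ j ∈ range n, s j : ℕ) : ℝ) := by
    push_cast
    refine Finset.sum_le_sum fun i _ => ?_
    have := h97_g_le (t + ∑ j ∈ range (i + 1), s j)
    have h0 : (0 : ℝ) ≤ s i := Nat.cast_nonneg _
    nlinarith
  have b1 : 0 ≤ ∑ v ∈ range (∑ j ∈ range n, s j), h97_g (t + v + 1) :=
    Finset.sum_nonneg fun i _ => h97_g_nonneg _
  have b2 : ∑ v ∈ range (∑ j ∈ range n, s j), h97_g (t + v + 1) ≤ ((∑ j ∈ range n, s j : ℕ) : ℝ) := by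
    calc ∑ v ∈ range (∑ j ∈ range n, s j), h97_g (t + v + 1)
        ≤ ∑ v ∈ range (∑ j ∈ range n, s j), (1 : ℝ) := Finset.sum_le_sum fun i _ => h97_g_le _
      _ = ((∑ j ∈ range n, s j : ℕ) : ℝ) := by
        rw [Finset.sum_const, Finset.card_range]
        simp
  rw [abs_le]
  constructor <;> linarith

private lemma h97_D_add (U : Set ℕ) (a n : ℕ) :
    D U (a + n) = D U a + h97_Phi (fun j => st U (a + j)) n (T U a) := by
  unfold D h97_Phi
  rw [h97_G_add, h97_T_add, h97_pi_add]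
  ring

private lemma h97_T_zone {m Y : ℕ} {S' : Set ℕ} (hS' : ∀ i ∈ S', i ∉ Ico m (m + Y)) {S : Finset ℕ}
    (hS : S ⊆ Ico m (m + Y)) :
    T (S' ∪ (S : Set ℕ)) (m + Y) = T S' m + rho (Ico m (m + Y)) S := by
  classical
  rw [h97_T_add, T_congr (S' := S') (n := m)]
  · congr 1
    unfold rho
    have e0 := Finset.sum_sdiff hS (f := pr)
    have e1 : ∑ i ∈ S, pr i = ∑ i ∈ Ico m (m + Y), if i ∈ S then pr i else 0 := by
      rw [Finset.sum_ite_mem, Finset.inter_eq_right.2 hS]
    have e2 : ∑ j ∈ range Y, st (S' ∪ (S : Set ℕ)) (m + j) = ∑ i ∈ Ico m (m + Y), st (S' ∪ (S : Set ℕ)) i := by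
      rw [Finset.sum_Ico_eq_sum_range]
      simp
    have e3 : ∑ i ∈ Ico m (m + Y), pr i = ∑ i ∈ Ico m (m + Y), st (S' ∪ (S : Set ℕ)) i + ∑ i ∈ S, pr i := by
      rw [e1, ← Finset.sum_add_distrib]
      refine Finset.sum_congr rfl fun i hi => ?_
      have h2 : i ∉ S' := fun h => hS' i h hi
      unfold st
      by_cases h3 : i ∈ S
      · have h4 : i ∈ S' ∪ (S : Set ℕ) := Or.inr h3
        rw [if_pos h3, if_pos h4, zero_add]
      · have h4 : i ∉ S' ∪ (S : Set ℕ) := by
          rintro (h | h)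
          · exact h2 h
          · exact h3 h
        rw [if_neg h3, if_neg h4, add_zero]
    omega
  · intro i hi
    constructor
    · rintro (h | h)
      · exact h
      · have := Finset.mem_Ico.1 (hS h)
        omega
    · intro h
      exact Or.inl h

theorem block_mean {τ : ℕ → ℝ} (h0 : ∀ i, 0 ≤ τ i) (h1 : ∀ i, τ i ≤ 1) {m Y L P H : ℕ}
    (hYL : Y ≤ L) (hH : 0 < H) (hP : ∀ i < m + L, pr i ≤ P) {TV : ℝ}
    (hTV : ∀ h < H, ∀ f : ℕ → ℝ, (∀ n, |f n| ≤ 1) →
      |E τ (Ico m (m + Y)) (fun S => f (rho (Ico m (m + Y)) S)) -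
        E τ (Ico m (m + Y)) (fun S => f (rho (Ico m (m + Y)) S + h))| ≤ TV)
    {S' : Set ℕ} (hS' : ∀ i ∈ S', i ∉ Ico m (m + Y)) :
    |E τ (Ico m (m + Y)) (fun S => D (S' ∪ (S : Set ℕ)) (m + L) - D (S' ∪ (S : Set ℕ)) m)| ≤
      P * Y + P * L * TV + (P : ℝ) ^ 2 * L / H := by
  classical
  set A := Ico m (m + Y) with hA
  set n := L - Y with hn
  set s : ℕ → ℕ := fun j => st S' (m + Y + j) with hs
  set t0 := T S' m with ht0
  have hsP : ∀ i < n, s i ≤ P := fun i hi => (st_le _ _).trans (hP _ (by omega))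
  have hvn : (∑ j ∈ range n, s j) ≤ P * L := by
    calc (∑ j ∈ range n, s j) ≤ ∑ j ∈ range n, P :=
          Finset.sum_le_sum fun i hi => hsP i (Finset.mem_range.1 hi)
      _ = n * P := by rw [Finset.sum_const, Finset.card_range, smul_eq_mul]
      _ ≤ L * P := Nat.mul_le_mul_right _ (Nat.sub_le _ _)
      _ = P * L := Nat.mul_comm _ _
  have hvnR : ((∑ j ∈ range n, s j : ℕ) : ℝ) ≤ P * L := by exact_mod_cast hvn
  have hPhi : ∀ t, |h97_Phi s n t| ≤ P * L := fun t => (h97_Phi_le s n t).trans hvnR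
  have hdec : ∀ S ⊆ A, D (S' ∪ (S : Set ℕ)) (m + L) - D (S' ∪ (S : Set ℕ)) m =
      (D (S' ∪ (S : Set ℕ)) (m + Y) - D (S' ∪ (S : Set ℕ)) m) + h97_Phi s n (t0 + rho A S) := by
    intro S hS
    have e1 : m + L = (m + Y) + n := by omega
    rw [e1, h97_D_add, h97_T_zone hS' hS]
    have e2 : (fun j => st (S' ∪ (S : Set ℕ)) (m + Y + j)) = s := by
      funext j
      apply st_congr
      constructor
      · rintro (h | h)
        · exact h
        · have := Finset.mem_Ico.1 (hS h)
          omega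
      · intro h
        exact Or.inl h
    rw [e2]
    ring
  rw [E_congr hdec, E_add]
  have hz : |E τ A (fun S => D (S' ∪ (S : Set ℕ)) (m + Y) - D (S' ∪ (S : Set ℕ)) m)| ≤ P * Y :=
    abs_E_le h0 h1 fun S _ => abs_D_sub_le _ fun i hi => hP i (by omega)
  have hHR : (0 : ℝ) < H := by exact_mod_cast hH
  have hmain : |E τ A (fun S => h97_Phi s n (t0 + rho A S))| ≤ P * L * TV + (P : ℝ) ^ 2 * L / H := by
    have hshift : ∀ h < H, |E τ A (fun S => h97_Phi s n (t0 + rho A S)) -
        E τ A (fun S => h97_Phi s n (t0 + rho A S + h))| ≤ P * L * TV := by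
      intro h hh
      rcases eq_or_lt_of_le (show (0 : ℝ) ≤ (P : ℝ) * L by positivity) with hc | hc
      · have z : ∀ t, h97_Phi s n t = 0 := fun t => by
          have := hPhi t
          rw [← hc] at this
          exact abs_eq_zero.1 (le_antisymm this (abs_nonneg _))
        simp only [z]
        rw [← hc]
        simp
      · have key := hTV h hh (fun y => h97_Phi s n (t0 + y) / ((P : ℝ) * L)) (fun y => by
          rw [abs_div, abs_of_pos hc, div_le_one hc]
          exact hPhi _)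
        have e1 : E τ A (fun S => h97_Phi s n (t0 + rho A S)) =
            (P * L) * E τ A (fun S => h97_Phi s n (t0 + rho A S) / ((P : ℝ) * L)) := by
          rw [← E_mul]
          apply E_congr
          intro S _
          rw [mul_div_cancel₀ _ hc.ne']
        have e2 : E τ A (fun S => h97_Phi s n (t0 + rho A S + h)) =
            (P * L) * E τ A (fun S => h97_Phi s n (t0 + (rho A S + h)) / ((P : ℝ) * L)) := by
          rw [← E_mul]
          apply E_congr
          intro S _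
          rw [add_assoc, mul_div_cancel₀ _ hc.ne']
        rw [e1, e2, ← mul_sub, abs_mul, abs_of_pos hc]
        exact mul_le_mul_of_nonneg_left key hc.le
    have hsm : |∑ h ∈ range H, E τ A (fun S => h97_Phi s n (t0 + rho A S + h))| ≤ (P : ℝ) ^ 2 * L := by
      rw [← E_sum]
      apply abs_E_le h0 h1
      intro S _
      have := smooth h97_g h97_g_nonneg h97_g_le s P n hsP (t0 + rho A S) H
      calc |∑ h ∈ range H, h97_Phi s n (t0 + rho A S + h)| ≤ P * ((∑ j ∈ range n, s j : ℕ) : ℝ) := this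
        _ ≤ P * (P * L) := mul_le_mul_of_nonneg_left hvnR (Nat.cast_nonneg _)
        _ = (P : ℝ) ^ 2 * L := by ring
    have hsum : (H : ℝ) * E τ A (fun S => h97_Phi s n (t0 + rho A S)) =
        ∑ h ∈ range H, (E τ A (fun S => h97_Phi s n (t0 + rho A S)) -
          E τ A (fun S => h97_Phi s n (t0 + rho A S + h))) +
        ∑ h ∈ range H, E τ A (fun S => h97_Phi s n (t0 + rho A S + h)) := by
      rw [← Finset.sum_add_distrib]
      simp
    have hb : |(H : ℝ) * E τ A (fun S => h97_Phi s n (t0 + rho A S))| ≤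
        H * (P * L * TV) + (P : ℝ) ^ 2 * L := by
      rw [hsum]
      refine (abs_add_le _ _).trans (add_le_add ?_ hsm)
      refine (Finset.abs_sum_le_sum_abs _ _).trans ?_
      calc ∑ h ∈ range H, |E τ A (fun S => h97_Phi s n (t0 + rho A S)) -
            E τ A (fun S => h97_Phi s n (t0 + rho A S + h))|
          ≤ ∑ h ∈ range H, (P * L * TV : ℝ) :=
            Finset.sum_le_sum fun h hh => hshift h (Finset.mem_range.1 hh)
        _ = H * (P * L * TV) := by rw [Finset.sum_const, Finset.card_range, nsmul_eq_mul]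
    rw [abs_mul, abs_of_pos hHR] at hb
    have e : (P : ℝ) * L * TV + (P : ℝ) ^ 2 * L / H = (H * (P * L * TV) + (P : ℝ) ^ 2 * L) / H := by
      field_simp
    rw [e, le_div_iff₀ hHR, mul_comm]
    exact hb
  calc |E τ A (fun S => D (S' ∪ (S : Set ℕ)) (m + Y) - D (S' ∪ (S : Set ℕ)) m) +
        E τ A (fun S => h97_Phi s n (t0 + rho A S))|
      ≤ P * Y + (P * L * TV + (P : ℝ) ^ 2 * L / H) := (abs_add_le _ _).trans (add_le_add hz hmain)
    _ = _ := by ring

end Pool.Agent.Helper55.PS
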