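import Pool.Agent.Helper55.PS.Defs

/-!
# Block PS-C1: Parseval and the Gaussian integral

* `parseval`: for real coefficients `c 0, ..., c (N-1)`:
  `∑ c m ^ 2 = ∫_{-1/2}^{1/2} |∑ c m e(m α)|² dα`. (Expand `|∑|² = ∑ ∑ c m c m' cos (2π (m - m') α)`
  and integrate: `∫_{-1/2}^{1/2} cos (2π n α) dα = 0` for an integer `n ≠ 0`.)
* `gauss`: `∫_{-1/2}^{1/2} α² exp (-8 σ² α²) dα ≤ ∫_ℝ = √π / (2 (8σ²)^{3/2}) ≤ (1/25) / σ³`
  (`√π / (2 · 8^{3/2}) = 0.0392`). Any proof; the constant `1/20` is enough below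
  (`4 π² / 20 ≤ 2`).
-/

open Finset

namespace Pool.Agent.Helper55.PS

private lemma h24_norm_sq (c : ℕ → ℝ) (N : ℕ) (α : ℝ) :
    ‖∑ m ∈ range N, (c m : ℂ) * Complex.exp (2 * Real.pi * Complex.I * (α * (m : ℝ)))‖ ^ 2 =
      ∑ m ∈ range N, ∑ n ∈ range N,
        c m * c n * Real.cos (2 * Real.pi * (((m : ℤ) - (n : ℤ) : ℤ) : ℝ) * α) := by
  have h1 : ∀ m : ℕ, (c m : ℂ) * Complex.exp (2 * Real.pi * Complex.I * (α * (m : ℝ))) =
      ⟨c m * Real.cos (2 * Real.pi * α * m), c m * Real.sin (2 * Real.pi * α * m)⟩ := by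
    intro m
    have e : (2 * Real.pi * Complex.I * (α * (m : ℝ)) : ℂ) =
        ((2 * Real.pi * α * m : ℝ) : ℂ) * Complex.I := by
      push_cast
      ring
    rw [e]
    apply Complex.ext
    · rw [Complex.re_ofReal_mul, Complex.exp_ofReal_mul_I_re]
    · rw [Complex.im_ofReal_mul, Complex.exp_ofReal_mul_I_im]
  rw [Complex.sq_norm, Complex.normSq_apply, Complex.re_sum, Complex.im_sum]
  simp only [h1]
  rw [Finset.sum_mul_sum, Finset.sum_mul_sum, ← Finset.sum_add_distrib]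
  refine Finset.sum_congr rfl fun m _ => ?_
  rw [← Finset.sum_add_distrib]
  refine Finset.sum_congr rfl fun n _ => ?_
  have e2 : 2 * Real.pi * (((m : ℤ) - (n : ℤ) : ℤ) : ℝ) * α =
      2 * Real.pi * α * m - 2 * Real.pi * α * n := by
    push_cast
    ring
  rw [e2, Real.cos_sub]
  ring

private lemma h24_int_cos (k : ℤ) :
    ∫ α in (-(1 / 2 : ℝ))..(1 / 2), Real.cos (2 * Real.pi * (k : ℝ) * α) =
      if k = 0 then 1 else 0 := by
  by_cases hk : k = 0
  · subst hk
    simp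
    norm_num
  · rw [if_neg hk]
    have hk' : (2 * Real.pi * (k : ℝ)) ≠ 0 := by
      have h1 : (k : ℝ) ≠ 0 := by exact_mod_cast hk
      have h2 := Real.pi_ne_zero
      positivity
    rw [intervalIntegral.integral_comp_mul_left (fun x => Real.cos x) hk', integral_cos]
    have e1 : 2 * Real.pi * (k : ℝ) * (1 / 2) = k * Real.pi := by ring
    have e2 : 2 * Real.pi * (k : ℝ) * (-(1 / 2)) = ((-k : ℤ) : ℝ) * Real.pi := by
      push_cast
      ring
    rw [e1, e2, Real.sin_int_mul_pi, Real.sin_int_mul_pi, sub_zero, smul_zero]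

theorem parseval (c : ℕ → ℝ) (N : ℕ) :
    ∑ m ∈ range N, c m ^ 2 =
      ∫ α in (-(1 / 2 : ℝ))..(1 / 2),
        ‖∑ m ∈ range N, (c m : ℂ) * Complex.exp (2 * Real.pi * Complex.I * (α * (m : ℝ)))‖ ^ 2 := by
  simp only [h24_norm_sq]
  have hint : ∀ m n : ℕ, IntervalIntegrable (fun α : ℝ => c m * c n *
      Real.cos (2 * Real.pi * (((m : ℤ) - (n : ℤ) : ℤ) : ℝ) * α)) MeasureTheory.volume
      (-(1 / 2 : ℝ)) (1 / 2) := by
    intro m n
    apply Continuous.intervalIntegrable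
    fun_prop
  rw [intervalIntegral.integral_finsetSum]
  · refine Finset.sum_congr rfl fun m hm => ?_
    rw [intervalIntegral.integral_finsetSum fun n _ => hint m n]
    have h1 : ∀ n ∈ range N, ∫ α in (-(1 / 2 : ℝ))..(1 / 2), c m * c n *
        Real.cos (2 * Real.pi * (((m : ℤ) - (n : ℤ) : ℤ) : ℝ) * α) =
        if m = n then c m * c n else 0 := by
      intro n _
      rw [intervalIntegral.integral_const_mul, h24_int_cos]
      by_cases h : m = n
      · subst h
        simp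
      · have h2 : ((m : ℤ) - (n : ℤ)) ≠ 0 := by omega
        rw [if_neg h2, if_neg h, mul_zero]
    rw [Finset.sum_congr rfl h1, Finset.sum_ite_eq, if_pos hm]
    ring
  · intro m _
    apply Continuous.intervalIntegrable
    fun_prop

private lemma h24_deriv (b : ℝ) (hb : 0 < b) (x : ℝ) :
    HasDerivAt (fun x => -(x * Real.exp (-b * x ^ 2)) / (2 * b))
      (x ^ 2 * Real.exp (-b * x ^ 2) - Real.exp (-b * x ^ 2) / (2 * b)) x := by
  have h1 : HasDerivAt (fun x : ℝ => -b * x ^ 2) (-b * (2 * x)) x := by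
    have := (hasDerivAt_pow 2 x).const_mul (-b)
    simpa using this
  have h2 := ((hasDerivAt_id x).mul h1.exp).neg.div_const (2 * b)
  refine h2.congr_deriv ?_
  have hb' := hb.ne'
  simp only [id]
  field_simp
  ring

theorem gauss {σ : ℝ} (hσ : 0 < σ) :
    ∫ α in (-(1 / 2 : ℝ))..(1 / 2), α ^ 2 * Real.exp (-8 * σ ^ 2 * α ^ 2) ≤ 1 / (20 * σ ^ 3) := by
  set b : ℝ := 8 * σ ^ 2 with hb
  have hb0 : 0 < b := by positivity
  have e0 : ∀ α : ℝ, Real.exp (-8 * σ ^ 2 * α ^ 2) = Real.exp (-b * α ^ 2) := by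
    intro α
    rw [hb]
    congr 1
    ring
  simp only [e0]
  have c1 : Continuous (fun x : ℝ => x ^ 2 * Real.exp (-b * x ^ 2)) := by fun_prop
  have c2 : Continuous (fun x : ℝ => Real.exp (-b * x ^ 2) / (2 * b)) := by fun_prop
  have h1 := intervalIntegral.integral_eq_sub_of_hasDerivAt (a := -(1 / 2 : ℝ)) (b := 1 / 2)
    (fun x _ => h24_deriv b hb0 x) ((c1.sub c2).intervalIntegrable _ _)
  rw [intervalIntegral.integral_sub (c1.intervalIntegrable _ _) (c2.intervalIntegrable _ _)] at h1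
  have h2 : (-((1 / 2 : ℝ) * Real.exp (-b * (1 / 2) ^ 2)) / (2 * b) -
      -(-(1 / 2 : ℝ) * Real.exp (-b * (-(1 / 2)) ^ 2)) / (2 * b)) ≤ 0 := by
    have h3 : (-((1 / 2 : ℝ) * Real.exp (-b * (1 / 2) ^ 2)) / (2 * b) -
      -(-(1 / 2 : ℝ) * Real.exp (-b * (-(1 / 2)) ^ 2)) / (2 * b)) =
      -(Real.exp (-b * (1 / 2) ^ 2) / (2 * b)) := by
      rw [neg_sq]
      ring
    rw [h3]
    have : 0 < Real.exp (-b * (1 / 2) ^ 2) / (2 * b) := by positivity
    linarith
  have h4 : ∫ x in (-(1 / 2 : ℝ))..(1 / 2), Real.exp (-b * x ^ 2) / (2 * b) ≤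
      Real.sqrt (Real.pi / b) / (2 * b) := by
    rw [intervalIntegral.integral_div]
    refine div_le_div_of_nonneg_right ?_ (by positivity)
    rw [← integral_gaussian b, intervalIntegral.integral_of_le (by norm_num)]
    exact MeasureTheory.setIntegral_le_integral (integrable_exp_neg_mul_sq hb0)
      (Filter.Eventually.of_forall fun x => (Real.exp_pos _).le)
  have h5 : Real.sqrt (Real.pi / b) ≤ 0.8 / σ := by
    rw [Real.sqrt_le_left (by positivity), hb]
    rw [div_pow, div_le_div_iff₀ (by positivity) (by positivity)]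
    have hpi := Real.pi_lt_four
    have hs : 0 < σ ^ 2 := by positivity
    nlinarith
  have h6 : Real.sqrt (Real.pi / b) / (2 * b) ≤ 1 / (20 * σ ^ 3) := by
    calc Real.sqrt (Real.pi / b) / (2 * b) ≤ (0.8 / σ) / (2 * b) :=
          div_le_div_of_nonneg_right h5 (by positivity)
      _ = 1 / (20 * σ ^ 3) := by
          rw [hb]
          field_simp
          norm_num
  linarith

end Pool.Agent.Helper55.PS
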