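import Pool.Agent.Helper55.PS.C1

/-!
# Block PS-C2: total variation of a shift

`S` random subset of `s`, `ρ = rho s S`. For a natural number `m` put
`g m = E τ s (1 if rho s S = m)` and `c m = g m - (g (m - h) if h ≤ m, 0 otherwise)`, i.e.
`c m = E τ s ((1 if rho = m) - (1 if rho + h = m))`. With `N` larger than all `rho + h`:

(1) `∑_{m<N} c m e(m α) = phi τ s α * (1 - e(h α))` (`Finset.prod_add` expands `phi` as
`∑_S W τ s S e(α rho s S)`), so by `parseval`, `|1 - e(hα)|² ≤ min (4, 4π² h² α²)` and `gauss`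
`∑ c m ^ 2 ≤ 4π² h² / (20 σ³) + 4 η ≤ 2 h² / σ³ + 4 η`.
(2) `E f(ρ) - E f(ρ + h) = ∑_m c m f m`. Let `μ = E ρ = ∑ (1 - τ i) pr i` and `U = {m : |m - μ| ≤ u}`;
`U` has at most `2u + 1 ≤ 3u` elements, so `∑_{m ∈ U} |c m| ≤ √(3u) √(∑ c m ^ 2)`.
(3) `∑_{m ∉ U} |c m| ≤ P(|ρ - μ| > u) + P(|ρ + h - μ| > u)`, and the variance of `ρ` is
`∑ τ i (1 - τ i) (pr i)² ≤ 16 σ²`, so Chebyshev gives `16σ²/u² + 16σ²/(u-h)² ≤ 80 σ²/u²`
(`h ≤ u / 2`).

Suggested order: `mean_rho`, `var_rho` (induction over `s` with `E_union` for `insert`), `char_rho`,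
`sum_sq_le`, `tv_bound`.
-/

open Finset

namespace Pool.Agent.Helper55.PS

theorem char_rho (τ : ℕ → ℝ) (s : Finset ℕ) (α : ℝ) :
    ∑ S ∈ s.powerset, (W τ s S : ℂ) *
      Complex.exp (2 * Real.pi * Complex.I * (α * ((rho s S : ℕ) : ℝ))) = phi τ s α := by
  unfold phi
  rw [Finset.prod_add]
  refine Finset.sum_congr rfl fun S _ => ?_
  have h1 : (2 * Real.pi * Complex.I * (α * ((rho s S : ℕ) : ℝ)) : ℂ) =
      ∑ i ∈ s \ S, (2 * Real.pi * Complex.I * (α * (pr i : ℝ)) : ℂ) := by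
    unfold rho
    push_cast
    rw [Finset.mul_sum, Finset.mul_sum]
  rw [h1, Complex.exp_sum, Finset.prod_mul_distrib]
  unfold W
  push_cast
  ring

private theorem E_insert (τ : ℕ → ℝ) {s : Finset ℕ} {a : ℕ} (ha : a ∉ s) (f : Finset ℕ → ℝ) :
    E τ (insert a s) f =
      τ a * E τ s (fun S => f (insert a S)) + (1 - τ a) * E τ s f := by
  classical
  unfold E
  rw [Finset.sum_powerset_insert ha, add_comm, Finset.mul_sum, Finset.mul_sum]
  congr 1
  · refine Finset.sum_congr rfl fun S hS => ?_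
    have haS : a ∉ S := fun h => ha (Finset.mem_powerset.1 hS h)
    have e1 : insert a s \ insert a S = s \ S := by
      ext i
      simp only [Finset.mem_sdiff, Finset.mem_insert, not_or]
      constructor
      · rintro ⟨h | h, h2, h3⟩
        · exact absurd h h2
        · exact ⟨h, h3⟩
      · rintro ⟨h, h3⟩
        exact ⟨Or.inr h, fun h4 => ha (h4 ▸ h), h3⟩
    unfold W
    rw [e1, Finset.prod_insert haS]
    ring
  · refine Finset.sum_congr rfl fun S hS => ?_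
    have haS : a ∉ S := fun h => ha (Finset.mem_powerset.1 hS h)
    have e1 : insert a s \ S = insert a (s \ S) := Finset.insert_sdiff_of_notMem _ haS
    have e2 : a ∉ s \ S := fun h => ha (Finset.mem_sdiff.1 h).1
    unfold W
    rw [e1, Finset.prod_insert e2]
    ring

private theorem rho_insert_insert {s S : Finset ℕ} {a : ℕ} (ha : a ∉ s) :
    rho (insert a s) (insert a S) = rho s S := by
  classical
  unfold rho
  congr 1
  ext i
  simp only [Finset.mem_sdiff, Finset.mem_insert, not_or]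
  constructor
  · rintro ⟨h | h, h2, h3⟩
    · exact absurd h h2
    · exact ⟨h, h3⟩
  · rintro ⟨h, h3⟩
    exact ⟨Or.inr h, fun h4 => ha (h4 ▸ h), h3⟩

private theorem rho_insert {s S : Finset ℕ} {a : ℕ} (ha : a ∉ s) (hS : S ⊆ s) :
    rho (insert a s) S = pr a + rho s S := by
  classical
  have haS : a ∉ S := fun h => ha (hS h)
  have e1 : insert a s \ S = insert a (s \ S) := Finset.insert_sdiff_of_notMem _ haS
  have e2 : a ∉ s \ S := fun h => ha (Finset.mem_sdiff.1 h).1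
  unfold rho
  rw [e1, Finset.sum_insert e2]

private theorem mean_rho (τ : ℕ → ℝ) (s : Finset ℕ) :
    E τ s (fun S => (rho s S : ℝ)) = ∑ i ∈ s, (1 - τ i) * pr i := by
  classical
  induction s using Finset.induction_on with
  | empty => simp [E, rho, W]
  | insert a s ha ih =>
    rw [E_insert τ ha, Finset.sum_insert ha]
    have h1 : E τ s (fun S => (rho (insert a s) (insert a S) : ℝ)) =
        E τ s (fun S => (rho s S : ℝ)) :=
      E_congr fun S _ => by rw [rho_insert_insert ha]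
    have h2 : E τ s (fun S => (rho (insert a s) S : ℝ)) =
        E τ s (fun S => (pr a : ℝ) + (rho s S : ℝ)) :=
      E_congr fun S hS => by rw [rho_insert ha hS]; push_cast; ring
    rw [h1, h2, E_add, E_const, ih]
    ring

theorem var_rho (τ : ℕ → ℝ) (s : Finset ℕ) :
    E τ s (fun S => ((rho s S : ℝ) - ∑ i ∈ s, (1 - τ i) * pr i) ^ 2) =
      ∑ i ∈ s, τ i * (1 - τ i) * (pr i : ℝ) ^ 2 := by
  classical
  induction s using Finset.induction_on with
  | empty => simp [E, rho, W]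
  | insert a s ha ih =>
    rw [E_insert τ ha, Finset.sum_insert ha, Finset.sum_insert ha]
    set μ := ∑ i ∈ s, (1 - τ i) * (pr i : ℝ) with hμ
    have hm : E τ s (fun S => (rho s S : ℝ) - μ) = 0 := by
      rw [E_sub, E_const, mean_rho, hμ, sub_self]
    have key : ∀ c : ℝ, E τ s (fun S => ((rho s S : ℝ) - μ + c) ^ 2) =
        E τ s (fun S => ((rho s S : ℝ) - μ) ^ 2) + c ^ 2 := by
      intro c
      have : ∀ S ⊆ s, ((rho s S : ℝ) - μ + c) ^ 2 =
          (((rho s S : ℝ) - μ) ^ 2 + (2 * c) * ((rho s S : ℝ) - μ)) + c ^ 2 := fun S _ => by ring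
      rw [E_congr this, E_add, E_add, E_mul, hm, E_const]
      ring
    have h1 : E τ s (fun S => ((rho (insert a s) (insert a S) : ℝ) -
        ((1 - τ a) * (pr a : ℝ) + μ)) ^ 2) =
        E τ s (fun S => ((rho s S : ℝ) - μ + (-((1 - τ a) * (pr a : ℝ)))) ^ 2) :=
      E_congr fun S _ => by rw [rho_insert_insert ha]; ring
    have h2 : E τ s (fun S => ((rho (insert a s) S : ℝ) -
        ((1 - τ a) * (pr a : ℝ) + μ)) ^ 2) =
        E τ s (fun S => ((rho s S : ℝ) - μ + τ a * (pr a : ℝ)) ^ 2) :=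
      E_congr fun S hS => by rw [rho_insert ha hS]; push_cast; ring
    rw [h1, h2, key, key, ih]
    ring

/-- the coefficients: difference of the laws of `rho` and `rho + h` -/
private noncomputable def c34 (τ : ℕ → ℝ) (s : Finset ℕ) (h m : ℕ) : ℝ :=
  E τ s (fun S => (if rho s S = m then (1 : ℝ) else 0) - (if rho s S + h = m then (1 : ℝ) else 0))

private lemma c34_lt {s S : Finset ℕ} (h : ℕ) : rho s S + h < (∑ i ∈ s, pr i) + h + 1 := by
  have h1 : rho s S ≤ ∑ i ∈ s, pr i :=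
    Finset.sum_le_sum_of_subset Finset.sdiff_subset
  omega

private lemma c34_real (τ : ℕ → ℝ) (s : Finset ℕ) (h : ℕ) (f : ℕ → ℝ) :
    ∑ m ∈ range ((∑ i ∈ s, pr i) + h + 1), c34 τ s h m * f m =
      E τ s (fun S => f (rho s S)) - E τ s (fun S => f (rho s S + h)) := by
  unfold c34 E
  simp_rw [Finset.sum_mul]
  rw [Finset.sum_comm, ← Finset.sum_sub_distrib]
  refine Finset.sum_congr rfl fun S _ => ?_
  have h1 := c34_lt (s := s) (S := S) h
  have h2 : rho s S ∈ range ((∑ i ∈ s, pr i) + h + 1) := Finset.mem_range.2 (by omega)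
  have h3 : rho s S + h ∈ range ((∑ i ∈ s, pr i) + h + 1) := Finset.mem_range.2 h1
  have e : ∀ m : ℕ, W τ s S * ((if rho s S = m then (1 : ℝ) else 0) -
      (if rho s S + h = m then (1 : ℝ) else 0)) * f m =
      W τ s S * (if rho s S = m then f m else 0) - W τ s S * (if rho s S + h = m then f m else 0) := by
    intro m
    split_ifs <;> ring
  rw [Finset.sum_congr rfl fun m _ => e m, Finset.sum_sub_distrib, ← Finset.mul_sum,
    ← Finset.mul_sum, Finset.sum_ite_eq, Finset.sum_ite_eq, if_pos h2, if_pos h3]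

private lemma c34_complex (τ : ℕ → ℝ) (s : Finset ℕ) (h : ℕ) (α : ℝ) :
    ∑ m ∈ range ((∑ i ∈ s, pr i) + h + 1), (c34 τ s h m : ℂ) *
      Complex.exp (2 * Real.pi * Complex.I * (α * (m : ℝ))) =
      phi τ s α * (1 - Complex.exp (2 * Real.pi * Complex.I * (α * (h : ℝ)))) := by
  rw [← char_rho, Finset.sum_mul]
  have e0 : ∀ m : ℕ, (c34 τ s h m : ℂ) = ∑ S ∈ s.powerset, (W τ s S : ℂ) *
      ((if rho s S = m then (1 : ℂ) else 0) - (if rho s S + h = m then (1 : ℂ) else 0)) := by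
    intro m
    unfold c34 E
    rw [Complex.ofReal_sum]
    refine Finset.sum_congr rfl fun S _ => ?_
    rw [Complex.ofReal_mul, Complex.ofReal_sub]
    congr 2
    · split_ifs <;> simp
    · split_ifs <;> simp
  simp_rw [e0, Finset.sum_mul]
  rw [Finset.sum_comm]
  refine Finset.sum_congr rfl fun S _ => ?_
  have h1 := c34_lt (s := s) (S := S) h
  have h2 : rho s S ∈ range ((∑ i ∈ s, pr i) + h + 1) := Finset.mem_range.2 (by omega)
  have h3 : rho s S + h ∈ range ((∑ i ∈ s, pr i) + h + 1) := Finset.mem_range.2 h1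
  set F : ℕ → ℂ := fun m => Complex.exp (2 * Real.pi * Complex.I * (α * (m : ℝ))) with hF
  have e : ∀ m : ℕ, (W τ s S : ℂ) * ((if rho s S = m then (1 : ℂ) else 0) -
      (if rho s S + h = m then (1 : ℂ) else 0)) * F m =
      (W τ s S : ℂ) * (if rho s S = m then F m else 0) -
        (W τ s S : ℂ) * (if rho s S + h = m then F m else 0) := by
    intro m
    split_ifs <;> ring
  have e1 : ∑ m ∈ range ((∑ i ∈ s, pr i) + h + 1), (W τ s S : ℂ) *
      ((if rho s S = m then (1 : ℂ) else 0) - (if rho s S + h = m then (1 : ℂ) else 0)) * F m =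
      (W τ s S : ℂ) * F (rho s S) - (W τ s S : ℂ) * F (rho s S + h) := by
    rw [Finset.sum_congr rfl fun m _ => e m, Finset.sum_sub_distrib, ← Finset.mul_sum,
      ← Finset.mul_sum, Finset.sum_ite_eq, Finset.sum_ite_eq, if_pos h2, if_pos h3]
  have e2 : F (rho s S + h) = F (rho s S) * F h := by
    rw [hF]
    simp only
    rw [← Complex.exp_add]
    congr 1
    push_cast
    ring
  rw [e1, e2]
  rw [hF]
  ring

private lemma c34_norm (h : ℕ) (α : ℝ) :
    ‖1 - Complex.exp (2 * Real.pi * Complex.I * (α * (h : ℝ)))‖ ^ 2 ≤ 4 ∧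
    ‖1 - Complex.exp (2 * Real.pi * Complex.I * (α * (h : ℝ)))‖ ^ 2 ≤
      4 * Real.pi ^ 2 * h ^ 2 * α ^ 2 := by
  have e : (2 * Real.pi * Complex.I * (α * (h : ℝ)) : ℂ) =
      Complex.I * ((2 * Real.pi * α * h : ℝ) : ℂ) := by
    push_cast; ring
  rw [e, norm_sub_rev]
  constructor
  · have h1 : ‖Complex.exp (Complex.I * ((2 * Real.pi * α * h : ℝ) : ℂ)) - 1‖ ≤ 2 := by
      refine (norm_sub_le _ _).trans ?_
      rw [mul_comm Complex.I, Complex.norm_exp_ofReal_mul_I]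
      norm_num
    have h0 := norm_nonneg (Complex.exp (Complex.I * ((2 * Real.pi * α * h : ℝ) : ℂ)) - 1)
    nlinarith
  · have h1 : ‖Complex.exp (Complex.I * ((2 * Real.pi * α * h : ℝ) : ℂ)) - 1‖ ≤
        ‖(2 * Real.pi * α * h : ℝ)‖ := Real.norm_exp_I_mul_ofReal_sub_one_le
    have h2 := pow_le_pow_left₀ (norm_nonneg _) h1 2
    refine h2.trans (le_of_eq ?_)
    rw [Real.norm_eq_abs, sq_abs]
    ring

private lemma c34_sq {τ : ℕ → ℝ} {s : Finset ℕ} {σ η : ℝ} (hσ : 0 < σ) (hη : 0 ≤ η)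
    (hphi : ∀ α : ℝ, |α| ≤ 1 / 2 → ‖phi τ s α‖ ^ 2 ≤ Real.exp (-8 * σ ^ 2 * α ^ 2) + η) (h : ℕ) :
    ∑ m ∈ range ((∑ i ∈ s, pr i) + h + 1), c34 τ s h m ^ 2 ≤ 2 * h ^ 2 / σ ^ 3 + 4 * η := by
  rw [parseval]
  set N := (∑ i ∈ s, pr i) + h + 1 with hN
  have hc1 : Continuous (fun α : ℝ => ‖∑ m ∈ range N, (c34 τ s h m : ℂ) *
      Complex.exp (2 * Real.pi * Complex.I * (α * (m : ℝ)))‖ ^ 2) := by fun_prop
  have hc2 : Continuous (fun α : ℝ => 4 * Real.pi ^ 2 * h ^ 2 *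
      (α ^ 2 * Real.exp (-8 * σ ^ 2 * α ^ 2)) + 4 * η) := by fun_prop
  have hle : ∀ α ∈ Set.Icc (-(1 / 2 : ℝ)) (1 / 2), ‖∑ m ∈ range N, (c34 τ s h m : ℂ) *
      Complex.exp (2 * Real.pi * Complex.I * (α * (m : ℝ)))‖ ^ 2 ≤
      4 * Real.pi ^ 2 * h ^ 2 * (α ^ 2 * Real.exp (-8 * σ ^ 2 * α ^ 2)) + 4 * η := by
    intro α hα
    rw [hN, c34_complex, norm_mul, mul_pow]
    obtain ⟨h1, h2⟩ := c34_norm h α
    have h3 := hphi α (abs_le.2 ⟨hα.1, hα.2⟩)
    set A := ‖1 - Complex.exp (2 * Real.pi * Complex.I * (α * (h : ℝ)))‖ ^ 2 with hA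
    have hA0 : 0 ≤ A := by positivity
    have h4 : 0 ≤ Real.exp (-8 * σ ^ 2 * α ^ 2) := (Real.exp_pos _).le
    calc ‖phi τ s α‖ ^ 2 * A ≤ (Real.exp (-8 * σ ^ 2 * α ^ 2) + η) * A :=
          mul_le_mul_of_nonneg_right h3 hA0
      _ = Real.exp (-8 * σ ^ 2 * α ^ 2) * A + η * A := by ring
      _ ≤ Real.exp (-8 * σ ^ 2 * α ^ 2) * (4 * Real.pi ^ 2 * h ^ 2 * α ^ 2) + η * 4 :=
          add_le_add (mul_le_mul_of_nonneg_left h2 h4) (mul_le_mul_of_nonneg_left h1 hη)
      _ = _ := by ring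
  have h5 := intervalIntegral.integral_mono_on (by norm_num : (-(1 / 2 : ℝ)) ≤ 1 / 2)
    (hc1.intervalIntegrable (μ := MeasureTheory.volume) _ _)
    (hc2.intervalIntegrable (μ := MeasureTheory.volume) _ _) hle
  refine h5.trans ?_
  have hc3 : Continuous (fun α : ℝ => 4 * Real.pi ^ 2 * (h : ℝ) ^ 2 *
      (α ^ 2 * Real.exp (-8 * σ ^ 2 * α ^ 2))) := by fun_prop
  rw [intervalIntegral.integral_add (hc3.intervalIntegrable _ _) (by simp),
    intervalIntegral.integral_const_mul, intervalIntegral.integral_const]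
  have h6 := gauss hσ
  have h7 : 0 ≤ 4 * Real.pi ^ 2 * (h : ℝ) ^ 2 := by positivity
  have h8 := mul_le_mul_of_nonneg_left h6 h7
  have h9 : Real.pi ^ 2 ≤ 10 := by
    have h10 := Real.pi_lt_d2
    have h11 := Real.pi_pos
    nlinarith
  have h12 : 4 * Real.pi ^ 2 * (h : ℝ) ^ 2 * (1 / (20 * σ ^ 3)) ≤ 2 * h ^ 2 / σ ^ 3 := by
    rw [mul_one_div, div_le_div_iff₀ (by positivity) (by positivity)]
    have : 0 ≤ (h : ℝ) ^ 2 * σ ^ 3 := by positivity
    nlinarith
  have h13 : (1 / 2 - -(1 / 2) : ℝ) • (4 * η) = 4 * η := by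
    rw [smul_eq_mul]; ring
  rw [h13]
  linarith

private lemma c34_card {N : ℕ} {μ u : ℝ} (hu : 1 ≤ u) :
    (((range N).filter (fun m : ℕ => |(m : ℝ) - μ| ≤ u)).card : ℝ) ≤ 3 * u := by
  set U := (range N).filter (fun m : ℕ => |(m : ℝ) - μ| ≤ u) with hU
  rcases U.eq_empty_or_nonempty with h | h
  · rw [h]; simp; linarith
  · have h1 : U ⊆ Finset.Icc (U.min' h) (U.min' h + ⌊2 * u⌋₊) := by
      intro m hm
      rw [Finset.mem_Icc]
      refine ⟨U.min'_le m hm, ?_⟩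
      have h2 := (Finset.mem_filter.1 hm).2
      have h3 := (Finset.mem_filter.1 (U.min'_mem h)).2
      rw [abs_le] at h2 h3
      have h4 : (m : ℝ) - (U.min' h : ℕ) ≤ 2 * u := by linarith
      have h5 : U.min' h ≤ m := U.min'_le m hm
      have h6 : m - U.min' h ≤ ⌊2 * u⌋₊ := by
        apply Nat.le_floor
        rw [Nat.cast_sub h5]
        exact h4
      omega
    have h2 := Finset.card_le_card h1
    rw [Nat.card_Icc] at h2
    have h3 : U.card ≤ ⌊2 * u⌋₊ + 1 := by omega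
    have h4 : (U.card : ℝ) ≤ (⌊2 * u⌋₊ : ℝ) + 1 := by exact_mod_cast h3
    have h5 := Nat.floor_le (show (0 : ℝ) ≤ 2 * u by linarith)
    linarith

theorem tv_bound {τ : ℕ → ℝ} {s : Finset ℕ} (hτ0 : ∀ i, 0 ≤ τ i) (hτ1 : ∀ i, τ i ≤ 1)
    {σ η : ℝ} (hσ : 0 < σ) (hη : 0 ≤ η)
    (hvar : ∑ i ∈ s, τ i * (1 - τ i) * (pr i : ℝ) ^ 2 ≤ 16 * σ ^ 2)
    (hphi : ∀ α : ℝ, |α| ≤ 1 / 2 → ‖phi τ s α‖ ^ 2 ≤ Real.exp (-8 * σ ^ 2 * α ^ 2) + η)
    {h : ℕ} {u : ℝ} (hu1 : 1 ≤ u) (hu : 2 * h ≤ u) {f : ℕ → ℝ} (hf : ∀ n, |f n| ≤ 1) :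
    |E τ s (fun S => f (rho s S)) - E τ s (fun S => f (rho s S + h))| ≤
      √(3 * u) * √(2 * h ^ 2 / σ ^ 3 + 4 * η) + 80 * σ ^ 2 / u ^ 2 := by
  set N := (∑ i ∈ s, pr i) + h + 1 with hN
  set μ : ℝ := ∑ i ∈ s, (1 - τ i) * pr i with hμ
  set c : ℕ → ℝ := c34 τ s h with hc
  have hu0 : 0 < u := by linarith
  have hW : ∀ S, 0 ≤ W τ s S := fun S => W_nonneg hτ0 hτ1 s S
  -- the first part
  have hsq := c34_sq hσ hη hphi h
  rw [← hN, ← hc] at hsq
  set U := (range N).filter (fun m : ℕ => |(m : ℝ) - μ| ≤ u) with hU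
  set V := (range N).filter (fun m : ℕ => ¬ |(m : ℝ) - μ| ≤ u) with hV
  have hUcard : (U.card : ℝ) ≤ 3 * u := c34_card hu1
  have hUsum : ∑ m ∈ U, |c m| ≤ √(3 * u) * √(2 * h ^ 2 / σ ^ 3 + 4 * η) := by
    have h1 : (∑ m ∈ U, |c m|) ^ 2 ≤ U.card * ∑ m ∈ U, |c m| ^ 2 := sq_sum_le_card_mul_sum_sq
    have h2 : ∑ m ∈ U, |c m| ^ 2 ≤ 2 * h ^ 2 / σ ^ 3 + 4 * η := by
      refine le_trans ?_ hsq
      rw [Finset.sum_congr rfl fun m _ => sq_abs (c m)]
      exact Finset.sum_le_sum_of_subset_of_nonneg (Finset.filter_subset _ _)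
        fun m _ _ => sq_nonneg _
    rw [← Real.sqrt_mul (by linarith)]
    apply Real.le_sqrt_of_sq_le
    refine h1.trans (mul_le_mul hUcard h2 (Finset.sum_nonneg fun m _ => by positivity) (by linarith))
  -- the second part
  have hVsum : ∑ m ∈ V, |c m| ≤ 80 * σ ^ 2 / u ^ 2 := by
    have h1 : ∀ m, |c m| ≤ E τ s (fun S => (if rho s S = m then (1 : ℝ) else 0) +
        (if rho s S + h = m then (1 : ℝ) else 0)) := by
      intro m
      rw [hc]
      unfold c34 E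
      refine (Finset.abs_sum_le_sum_abs _ _).trans (Finset.sum_le_sum fun S _ => ?_)
      rw [abs_mul, abs_of_nonneg (hW S)]
      refine mul_le_mul_of_nonneg_left ?_ (hW S)
      simp only
      split_ifs <;> norm_num
    have h2 : ∑ m ∈ V, |c m| ≤ E τ s (fun S => ∑ m ∈ V, ((if rho s S = m then (1 : ℝ) else 0) +
        (if rho s S + h = m then (1 : ℝ) else 0))) := by
      rw [E_sum]
      exact Finset.sum_le_sum fun m _ => h1 m
    refine h2.trans ?_
    have h3 : ∀ S ⊆ s, (∑ m ∈ V, ((if rho s S = m then (1 : ℝ) else 0) +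
        (if rho s S + h = m then (1 : ℝ) else 0))) ≤ 5 / u ^ 2 * ((rho s S : ℝ) - μ) ^ 2 := by
      intro S _
      rw [Finset.sum_add_distrib, Finset.sum_ite_eq, Finset.sum_ite_eq]
      have ha : (if rho s S ∈ V then (1 : ℝ) else 0) ≤ 1 / u ^ 2 * ((rho s S : ℝ) - μ) ^ 2 := by
        split_ifs with hm
        · have h4 := (Finset.mem_filter.1 hm).2
          rw [not_le] at h4
          rw [one_div, inv_mul_eq_div, one_le_div (by positivity), ← sq_abs ((rho s S : ℝ) - μ)]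
          exact pow_le_pow_left₀ hu0.le h4.le 2
        · positivity
      have hb : (if rho s S + h ∈ V then (1 : ℝ) else 0) ≤ 4 / u ^ 2 * ((rho s S : ℝ) - μ) ^ 2 := by
        split_ifs with hm
        · have h4 := (Finset.mem_filter.1 hm).2
          rw [not_le] at h4
          push_cast at h4
          have h5 : |(rho s S : ℝ) + h - μ| ≤ |(rho s S : ℝ) - μ| + h := by
            have h6 : (rho s S : ℝ) + h - μ = ((rho s S : ℝ) - μ) + h := by ring
            rw [h6]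
            have h9 := abs_add_le ((rho s S : ℝ) - μ) (h : ℝ)
            rwa [abs_of_nonneg (Nat.cast_nonneg (α := ℝ) h)] at h9
          have h7 : u / 2 ≤ |(rho s S : ℝ) - μ| := by linarith
          have h8 : (u / 2) ^ 2 ≤ ((rho s S : ℝ) - μ) ^ 2 := by
            rw [← sq_abs ((rho s S : ℝ) - μ)]
            exact pow_le_pow_left₀ (by linarith) h7 2
          rw [div_mul_eq_mul_div, one_le_div (by positivity)]
          nlinarith
        · positivity
      calc (if rho s S ∈ V then (1 : ℝ) else 0) + (if rho s S + h ∈ V then (1 : ℝ) else 0) ≤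
          1 / u ^ 2 * ((rho s S : ℝ) - μ) ^ 2 + 4 / u ^ 2 * ((rho s S : ℝ) - μ) ^ 2 :=
            add_le_add ha hb
        _ = 5 / u ^ 2 * ((rho s S : ℝ) - μ) ^ 2 := by ring
    have h4 := E_mono hτ0 hτ1 h3
    refine h4.trans ?_
    rw [E_mul, var_rho]
    calc 5 / u ^ 2 * ∑ i ∈ s, τ i * (1 - τ i) * (pr i : ℝ) ^ 2 ≤ 5 / u ^ 2 * (16 * σ ^ 2) :=
          mul_le_mul_of_nonneg_left hvar (by positivity)
      _ = 80 * σ ^ 2 / u ^ 2 := by ring
  -- conclusion
  rw [← c34_real, ← hN, ← hc]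
  calc |∑ m ∈ range N, c m * f m| ≤ ∑ m ∈ range N, |c m| := by
        refine (Finset.abs_sum_le_sum_abs _ _).trans (Finset.sum_le_sum fun m _ => ?_)
        rw [abs_mul]
        exact mul_le_of_le_one_right (abs_nonneg _) (hf m)
    _ = ∑ m ∈ U, |c m| + ∑ m ∈ V, |c m| := by
        rw [hU, hV, Finset.sum_filter_add_sum_filter_not]
    _ ≤ _ := add_le_add hUsum hVsum

end Pool.Agent.Helper55.PS
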