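import Mathlib

/-!
# Project PS (MP_c30cf5_nt): primes among the partial sums of randomly thinned primes

Definitions.
-/

open Finset Filter Asymptotics
open scoped Topology

namespace Pool.Agent.Helper55.PS

/-! ### The objects of the final statement -/

/-- The sum of the `n` smallest primes outside the set `R`. -/
noncomputable def sumOutside (R : Set ℕ) (n : ℕ) : ℕ :=
  ∑ k ∈ range n, Nat.nth (fun p => p.Prime ∧ p ∉ R) k

/-- The number of `k ∈ {1, ..., n}` such that the sum of the `k` smallest primes outside `R` is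
prime. For `R = ∅` this is `π_n` of the problem. -/
noncomputable def piOutside (R : Set ℕ) (n : ℕ) : ℕ :=
  ((Finset.Icc 1 n).filter fun k => (sumOutside R k).Prime).card

/-- The statement of Q1 for the sequence of the primes outside `R`. -/
def Q1Outside (R : Set ℕ) : Prop :=
  (fun n : ℕ => (piOutside R n : ℝ)) ~[atTop] fun n : ℕ => (n : ℝ) / (2 * Real.log n)

/-- The `i`-th prime, counted from `0`: `pr 0 = 2`, `pr 1 = 3`, ... -/
noncomputable def pr (i : ℕ) : ℕ := Nat.nth Nat.Prime i

/-! ### The walk of a set `S` of deleted indices -/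

open Classical in
/-- The step at the index `i`: `0` if the prime `pr i` is deleted, `pr i` otherwise. -/
noncomputable def st (S : Set ℕ) (i : ℕ) : ℕ := if i ∈ S then 0 else pr i

/-- The sum of the kept primes among `pr 0, ..., pr (n - 1)`. -/
noncomputable def T (S : Set ℕ) (n : ℕ) : ℕ := ∑ i ∈ range n, st S i

open Classical in
/-- The number of kept primes among `pr 0, ..., pr (n - 1)`. -/
noncomputable def K (S : Set ℕ) (n : ℕ) : ℕ := ((range n).filter fun i => i ∉ S).card

open Classical in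
/-- The number of kept `i < n` for which the partial sum ending at `i` is prime. -/
noncomputable def F (S : Set ℕ) (n : ℕ) : ℕ :=
  ((range n).filter fun i => i ∉ S ∧ (T S (i + 1)).Prime).card

/-- The same count, weighted with the step. -/
noncomputable def G (S : Set ℕ) (n : ℕ) : ℕ :=
  ∑ i ∈ range n, if (T S (i + 1)).Prime then st S i else 0

/-- The discrepancy: weighted count minus the number of primes up to the last partial sum. -/
noncomputable def D (S : Set ℕ) (n : ℕ) : ℝ := (G S n : ℝ) - (Nat.primeCounting (T S n) : ℝ)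

/-! ### Finite independent deletions -/

/-- The probability that exactly the indices of `S` are deleted among those of `s`, if the index
`i` is deleted with probability `τ i`, independently. -/
noncomputable def W (τ : ℕ → ℝ) (s S : Finset ℕ) : ℝ :=
  (∏ i ∈ S, τ i) * ∏ i ∈ s \ S, (1 - τ i)

/-- The expectation of `f` at the random set of deleted indices of `s`. -/
noncomputable def E (τ : ℕ → ℝ) (s : Finset ℕ) (f : Finset ℕ → ℝ) : ℝ :=
  ∑ S ∈ s.powerset, W τ s S * f S

/-- The sum of the kept primes of `s`, if `S` is deleted. -/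
noncomputable def rho (s S : Finset ℕ) : ℕ := ∑ i ∈ s \ S, pr i

/-- The characteristic function of `rho`. -/
noncomputable def phi (τ : ℕ → ℝ) (s : Finset ℕ) (α : ℝ) : ℂ :=
  ∏ i ∈ s, ((τ i : ℂ) + (1 - (τ i : ℂ)) * Complex.exp (2 * Real.pi * Complex.I * (α * (pr i : ℝ))))

/-- The distance to the nearest integer. -/
noncomputable def dI (t : ℝ) : ℝ := |t - round t|

/-- The power of two `2 ^ ⌊log₂ k⌋`, which lies in `(k / 2, k]`. -/
def lam (k : ℕ) : ℕ := 2 ^ Nat.log 2 k

/-! ### First properties -/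

theorem pr_prime (i : ℕ) : (pr i).Prime := Nat.prime_nth_prime i

theorem pr_strictMono : StrictMono pr := Nat.nth_strictMono Nat.infinite_setOfPred_prime

theorem pr_pos (i : ℕ) : 0 < pr i := (pr_prime i).pos

theorem lt_pr (i : ℕ) : i < pr i := by
  have h : ∀ n, n + 2 ≤ pr n := by
    intro n
    induction n with
    | zero => exact (pr_prime 0).two_le
    | succ n ih => exact Nat.succ_le_of_lt (lt_of_le_of_lt ih (pr_strictMono (Nat.lt_succ_self n)))
  exact lt_of_lt_of_le (by omega) (h i)

theorem st_le (S : Set ℕ) (i : ℕ) : st S i ≤ pr i := by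
  unfold st; split_ifs <;> simp

theorem st_congr {S S' : Set ℕ} {i : ℕ} (h : i ∈ S ↔ i ∈ S') : st S i = st S' i := by
  classical
  unfold st
  by_cases hi : i ∈ S
  · rw [if_pos hi, if_pos (h.1 hi)]
  · rw [if_neg hi, if_neg (fun h' => hi (h.2 h'))]

theorem T_succ (S : Set ℕ) (n : ℕ) : T S (n + 1) = T S n + st S n := Finset.sum_range_succ _ _

theorem T_zero (S : Set ℕ) : T S 0 = 0 := by simp [T]

theorem T_mono (S : Set ℕ) : Monotone (T S) :=
  monotone_nat_of_le_succ fun n => by rw [T_succ]; exact Nat.le_add_right _ _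

theorem T_congr {S S' : Set ℕ} {n : ℕ} (h : ∀ i < n, (i ∈ S ↔ i ∈ S')) : T S n = T S' n :=
  Finset.sum_congr rfl fun i hi => st_congr (h i (Finset.mem_range.1 hi))

theorem G_succ (S : Set ℕ) (n : ℕ) :
    G S (n + 1) = G S n + if (T S (n + 1)).Prime then st S n else 0 := Finset.sum_range_succ _ _

theorem G_congr {S S' : Set ℕ} {n : ℕ} (h : ∀ i < n, (i ∈ S ↔ i ∈ S')) : G S n = G S' n :=
  Finset.sum_congr rfl fun i hi => by
    have hi' := Finset.mem_range.1 hi
    rw [T_congr (n := i + 1) fun j hj => h j (by omega), st_congr (h i hi')]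

theorem D_congr {S S' : Set ℕ} {n : ℕ} (h : ∀ i < n, (i ∈ S ↔ i ∈ S')) : D S n = D S' n := by
  unfold D; rw [G_congr h, T_congr h]

theorem K_congr {S S' : Set ℕ} {n : ℕ} (h : ∀ i < n, (i ∈ S ↔ i ∈ S')) : K S n = K S' n := by
  classical
  unfold K
  congr 1
  exact Finset.filter_congr fun i hi => not_congr (h i (Finset.mem_range.1 hi))

theorem W_nonneg {τ : ℕ → ℝ} (h0 : ∀ i, 0 ≤ τ i) (h1 : ∀ i, τ i ≤ 1) (s S : Finset ℕ) :
    0 ≤ W τ s S :=
  mul_nonneg (Finset.prod_nonneg fun i _ => h0 i) (Finset.prod_nonneg fun i _ => by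
    have := h1 i; linarith)

theorem sum_W (τ : ℕ → ℝ) (s : Finset ℕ) : ∑ S ∈ s.powerset, W τ s S = 1 := by
  have h := Finset.prod_add (fun i => τ i) (fun i => 1 - τ i) s
  simp only [add_sub_cancel, Finset.prod_const_one] at h
  exact h.symm

theorem E_const (τ : ℕ → ℝ) (s : Finset ℕ) (c : ℝ) : E τ s (fun _ => c) = c := by
  unfold E; rw [← Finset.sum_mul, sum_W, one_mul]

theorem E_congr {τ : ℕ → ℝ} {s : Finset ℕ} {f g : Finset ℕ → ℝ} (h : ∀ S ⊆ s, f S = g S) :
    E τ s f = E τ s g :=
  Finset.sum_congr rfl fun S hS => by rw [h S (Finset.mem_powerset.1 hS)]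

theorem E_add (τ : ℕ → ℝ) (s : Finset ℕ) (f g : Finset ℕ → ℝ) :
    E τ s (fun S => f S + g S) = E τ s f + E τ s g := by
  unfold E; rw [← Finset.sum_add_distrib]; exact Finset.sum_congr rfl fun S _ => by ring

theorem E_sub (τ : ℕ → ℝ) (s : Finset ℕ) (f g : Finset ℕ → ℝ) :
    E τ s (fun S => f S - g S) = E τ s f - E τ s g := by
  unfold E; rw [← Finset.sum_sub_distrib]; exact Finset.sum_congr rfl fun S _ => by ring

theorem E_mul (τ : ℕ → ℝ) (s : Finset ℕ) (c : ℝ) (f : Finset ℕ → ℝ) :
    E τ s (fun S => c * f S) = c * E τ s f := by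
  unfold E; rw [Finset.mul_sum]; exact Finset.sum_congr rfl fun S _ => by ring

theorem E_sum {ι : Type*} (τ : ℕ → ℝ) (s : Finset ℕ) (t : Finset ι) (f : ι → Finset ℕ → ℝ) :
    E τ s (fun S => ∑ j ∈ t, f j S) = ∑ j ∈ t, E τ s (f j) := by
  unfold E
  rw [Finset.sum_comm]
  exact Finset.sum_congr rfl fun S _ => by rw [Finset.mul_sum]

theorem E_mono {τ : ℕ → ℝ} (h0 : ∀ i, 0 ≤ τ i) (h1 : ∀ i, τ i ≤ 1) {s : Finset ℕ}
    {f g : Finset ℕ → ℝ} (h : ∀ S ⊆ s, f S ≤ g S) : E τ s f ≤ E τ s g :=
  Finset.sum_le_sum fun S hS =>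
    mul_le_mul_of_nonneg_left (h S (Finset.mem_powerset.1 hS)) (W_nonneg h0 h1 s S)

theorem abs_E_le {τ : ℕ → ℝ} (h0 : ∀ i, 0 ≤ τ i) (h1 : ∀ i, τ i ≤ 1) {s : Finset ℕ}
    {f : Finset ℕ → ℝ} {B : ℝ} (h : ∀ S ⊆ s, |f S| ≤ B) : |E τ s f| ≤ B := by
  rw [abs_le]
  constructor
  · rw [← E_const τ s (-B)]
    exact E_mono h0 h1 fun S hS => (abs_le.1 (h S hS)).1
  · rw [← E_const τ s B]
    exact E_mono h0 h1 fun S hS => (abs_le.1 (h S hS)).2

/-- Independence of disjoint sets of indices. -/
theorem E_union {τ : ℕ → ℝ} {s t : Finset ℕ} (hd : Disjoint s t) (f : Finset ℕ → ℝ) :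
    E τ (s ∪ t) f = E τ s (fun S => E τ t (fun S' => f (S ∪ S'))) := by
  classical
  unfold E
  simp_rw [Finset.mul_sum]
  rw [← Finset.sum_product']
  refine (Finset.sum_bij' (fun (x : Finset ℕ × Finset ℕ) _ => x.1 ∪ x.2)
    (fun U _ => (U ∩ s, U ∩ t)) ?_ ?_ ?_ ?_ ?_).symm
  · intro x hx
    rw [Finset.mem_product, Finset.mem_powerset, Finset.mem_powerset] at hx
    rw [Finset.mem_powerset]
    exact Finset.union_subset_union hx.1 hx.2
  · intro U _
    rw [Finset.mem_product, Finset.mem_powerset, Finset.mem_powerset]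
    exact ⟨Finset.inter_subset_right, Finset.inter_subset_right⟩
  · intro x hx
    rw [Finset.mem_product, Finset.mem_powerset, Finset.mem_powerset] at hx
    obtain ⟨h1, h2⟩ := hx
    have hd' := Finset.disjoint_left.1 hd
    ext i
    · simp only [Finset.mem_inter, Finset.mem_union]
      constructor
      · rintro ⟨h | h, hs⟩
        · exact h
        · exact absurd (h2 h) (hd' hs)
      · intro h
        exact ⟨Or.inl h, h1 h⟩
    · simp only [Finset.mem_inter, Finset.mem_union]
      constructor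
      · rintro ⟨h | h, hs⟩
        · exact absurd hs (hd' (h1 h))
        · exact h
      · intro h
        exact ⟨Or.inr h, h2 h⟩
  · intro U hU
    rw [Finset.mem_powerset] at hU
    simp only [← Finset.inter_union_distrib_left]
    exact Finset.inter_eq_left.2 hU
  · intro x hx
    rw [Finset.mem_product, Finset.mem_powerset, Finset.mem_powerset] at hx
    obtain ⟨h1, h2⟩ := hx
    have hd' := Finset.disjoint_left.1 hd
    have e1 : (s ∪ t) \ (x.1 ∪ x.2) = (s \ x.1) ∪ (t \ x.2) := by
      ext i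
      simp only [Finset.mem_sdiff, Finset.mem_union, not_or]
      constructor
      · rintro ⟨h | h, h3, h4⟩
        · exact Or.inl ⟨h, h3⟩
        · exact Or.inr ⟨h, h4⟩
      · rintro (⟨h, h3⟩ | ⟨h, h3⟩)
        · exact ⟨Or.inl h, h3, fun h4 => hd' h (h2 h4)⟩
        · exact ⟨Or.inr h, fun h4 => hd' (h1 h4) h, h3⟩
    have d1 : Disjoint x.1 x.2 := Finset.disjoint_of_subset_left h1 (Finset.disjoint_of_subset_right h2 hd)
    have d2 : Disjoint (s \ x.1) (t \ x.2) :=
      Finset.disjoint_of_subset_left Finset.sdiff_subset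
        (Finset.disjoint_of_subset_right Finset.sdiff_subset hd)
    simp only [W]
    rw [e1, Finset.prod_union d1, Finset.prod_union d2]
    ring

/-- A function of the deletions inside `s` only. -/
theorem E_of_subset {τ : ℕ → ℝ} {s t : Finset ℕ} (hst : s ⊆ t) (f : Finset ℕ → ℝ)
    (hf : ∀ S, f S = f (S ∩ s)) : E τ t f = E τ s f := by
  classical
  have h : t = s ∪ (t \ s) := (Finset.union_sdiff_of_subset hst).symm
  rw [h, E_union Finset.disjoint_sdiff]
  refine E_congr fun S hS => ?_
  have : ∀ S' ⊆ t \ s, f (S ∪ S') = f S := by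
    intro S' hS'
    rw [hf (S ∪ S'), hf S]
    congr 1
    ext i
    simp only [Finset.mem_inter, Finset.mem_union]
    constructor
    · rintro ⟨h1 | h1, h2⟩
      · exact ⟨h1, h2⟩
      · exact absurd h2 (Finset.mem_sdiff.1 (hS' h1)).2
    · rintro ⟨h1, h2⟩
      exact ⟨Or.inl h1, h2⟩
  rw [E_congr this, E_const]

theorem dI_nonneg (t : ℝ) : 0 ≤ dI t := abs_nonneg _

theorem dI_le_half (t : ℝ) : dI t ≤ 1 / 2 := abs_sub_round t

theorem dI_le_abs_sub (t : ℝ) (n : ℤ) : dI t ≤ |t - n| := round_le t n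

theorem lam_pos (k : ℕ) : 0 < lam k := by unfold lam; positivity

theorem lam_le {k : ℕ} (hk : k ≠ 0) : lam k ≤ k := Nat.pow_log_le_self 2 hk

theorem lt_two_mul_lam (k : ℕ) : k < 2 * lam k := by
  have h := Nat.lt_pow_succ_log_self (b := 2) (by norm_num) k
  unfold lam
  rw [Nat.pow_succ'] at h
  exact h

theorem abs_D_sub_le (S : Set ℕ) {m L P : ℕ} (hP : ∀ i < m + L, pr i ≤ P) :
    |D S (m + L) - D S m| ≤ P * L := by
  have key : ∀ n, n ≤ L → G S m ≤ G S (m + n) ∧ G S (m + n) ≤ G S m + P * n ∧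
      T S m ≤ T S (m + n) ∧ T S (m + n) ≤ T S m + P * n := by
    intro n
    induction n with
    | zero => intro _; simp
    | succ n ih =>
      intro hn
      obtain ⟨h1, h2, h3, h4⟩ := ih (by omega)
      have h5 : st S (m + n) ≤ P := (st_le S _).trans (hP _ (by omega))
      have h6 : T S (m + (n + 1)) = T S (m + n) + st S (m + n) := T_succ S (m + n)
      have h7 : G S (m + (n + 1)) = G S (m + n) + if (T S (m + n + 1)).Prime then st S (m + n) else 0 :=
        G_succ S (m + n)
      have h8 : (if (T S (m + n + 1)).Prime then st S (m + n) else 0) ≤ P := by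
        split_ifs
        · exact h5
        · exact Nat.zero_le _
      have h9 : P * (n + 1) = P * n + P := by ring
      refine ⟨?_, ?_, ?_, ?_⟩ <;> omega
  obtain ⟨h1, h2, h3, h4⟩ := key L le_rfl
  have h5 : Nat.primeCounting (T S m) ≤ Nat.primeCounting (T S (m + L)) := Nat.monotone_primeCounting h3
  have h6 : Nat.primeCounting (T S (m + L)) ≤ Nat.primeCounting (T S m) + P * L := by
    refine (Nat.monotone_primeCounting h4).trans ?_
    have : ∀ a b : ℕ, Nat.primeCounting (a + b) ≤ Nat.primeCounting a + b := by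
      intro a b
      unfold Nat.primeCounting Nat.primeCounting'
      rw [show a + b + 1 = (a + 1) + b by ring, Nat.count_add]
      exact Nat.add_le_add_left (Nat.count_le _) _
    exact this _ _
  unfold D
  have h1' : (G S m : ℝ) ≤ G S (m + L) := by exact_mod_cast h1
  have h2' : (G S (m + L) : ℝ) ≤ G S m + P * L := by exact_mod_cast h2
  have h5' : (Nat.primeCounting (T S m) : ℝ) ≤ Nat.primeCounting (T S (m + L)) := by exact_mod_cast h5
  have h6' : (Nat.primeCounting (T S (m + L)) : ℝ) ≤ Nat.primeCounting (T S m) + P * L := by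
    exact_mod_cast h6
  rw [abs_le]
  constructor <;> linarith

end Pool.Agent.Helper55.PS
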