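import Pool.Agent.Helper55.PS.N1

/-!
# Block PS-K2: the discrepancy at the points of the grid is negligible (deterministic)

Let `x k = pr (2^k)`, `q k = x k * 2^k / k` and `e k = |D S (2^k)| / q k`. `h1` with
`l = lam k` (`2^k + lam k * (2^k / lam k) = 2^(k+1)` for `k ≥ 1`, since `lam k ∣ 2^k`) gives
`|D (2^(k+1))| ≤ |D (2^k)| + 4 x k 2^k / lam k ^ 2` and
`q (k+1) ≥ 2 q k * k / (k+1)` (`x (k+1) ≥ x k`), so
`e (k+1) ≤ (k+1)/(2k) * e k + 4 k / lam k ^ 2 * (k+1)/(2k)` with `lam k > k / 2`; so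
`e (k+1) ≤ (3/4) e k + 16 (k+1) / k²`, hence `e k → 0` (`D_dyadic`).
`D_grid`: for `N = 2^k + l (2^k / lam k)`, `l ≤ lam k`:
`|D N| ≤ |D (2^k)| + 4 x k 2^k / lam k ^ 2 ≤ η q k` for large `k`.
-/

open Finset Filter
open scoped Topology

namespace Pool.Agent.Helper55.PS

theorem grid_top {k : ℕ} (hk : k ≠ 0) : lam k * (2 ^ k / lam k) = 2 ^ k := by
  refine Nat.mul_div_cancel' ?_
  unfold lam
  exact pow_dvd_pow 2 ((Nat.log_lt_self 2 hk).le)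

/-- A sequence with `e (k+1) ≤ 3/4 e k + c k`, `c → 0`, tends to `0`. -/
theorem tendsto_zero_of_rec {e c : ℕ → ℝ} (he : ∀ k, 0 ≤ e k)
    (hc : Tendsto c atTop (𝓝 0)) (h : ∀ᶠ k : ℕ in atTop, e (k + 1) ≤ 3 / 4 * e k + c k) :
    Tendsto e atTop (𝓝 0) := by
  rw [Metric.tendsto_atTop]
  intro ε hε
  have h2 : ∀ᶠ k : ℕ in atTop, c k < ε / 8 := hc.eventually (gt_mem_nhds (by positivity))
  obtain ⟨N, hN⟩ := eventually_atTop.1 (h.and h2)
  have h3 : ∀ n : ℕ, e (N + n) - ε / 2 ≤ (3 / 4 : ℝ) ^ n * |e N - ε / 2| := by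
    intro n
    induction n with
    | zero => simpa using le_abs_self (e N - ε / 2)
    | succ n ih =>
      obtain ⟨h4, h5⟩ := hN (N + n) (by omega)
      have h6 : N + (n + 1) = N + n + 1 := by ring
      rw [h6, pow_succ]
      have h7 : e (N + n + 1) - ε / 2 ≤ 3 / 4 * (e (N + n) - ε / 2) := by linarith
      calc e (N + n + 1) - ε / 2 ≤ 3 / 4 * (e (N + n) - ε / 2) := h7
        _ ≤ 3 / 4 * ((3 / 4 : ℝ) ^ n * |e N - ε / 2|) :=
          mul_le_mul_of_nonneg_left ih (by norm_num)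
        _ = _ := by ring
  have h8 : Tendsto (fun n : ℕ => (3 / 4 : ℝ) ^ n * |e N - ε / 2|) atTop (𝓝 (0 * |e N - ε / 2|)) :=
    (tendsto_pow_atTop_nhds_zero_of_lt_one (by norm_num) (by norm_num)).mul_const _
  rw [zero_mul] at h8
  obtain ⟨M, hM⟩ := eventually_atTop.1 (h8.eventually (gt_mem_nhds (show (0 : ℝ) < ε / 2 by positivity)))
  refine ⟨N + M, fun n hn => ?_⟩
  have h9 := h3 (n - N)
  have h10 := hM (n - N) (by omega)
  rw [show N + (n - N) = n by omega] at h9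
  rw [Real.dist_eq, sub_zero, abs_of_nonneg (he n)]
  linarith

private theorem four_div_lam (k : ℕ) (hk : k ≠ 0) : 1 / (lam k : ℝ) ^ 2 ≤ 4 / (k : ℝ) ^ 2 := by
  have h1 : (k : ℝ) < 2 * lam k := by exact_mod_cast lt_two_mul_lam k
  have h2 : (0 : ℝ) < lam k := by exact_mod_cast lam_pos k
  have h3 : (0 : ℝ) < k := by positivity
  rw [div_le_div_iff₀ (by positivity) (by positivity)]
  nlinarith

private theorem q_pos {k : ℕ} (hk : k ≠ 0) : (0 : ℝ) < pr (2 ^ k) * 2 ^ k / k := by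
  have h1 : (0 : ℝ) < pr (2 ^ k) := by exact_mod_cast pr_pos _
  have h3 : (0 : ℝ) < k := by positivity
  positivity

theorem D_dyadic {S : Set ℕ} (h1 : ∀ᶠ k : ℕ in atTop, ∀ l ≤ lam k,
      |D S (2 ^ k + l * (2 ^ k / lam k)) - D S (2 ^ k)| ≤
        4 * pr (2 ^ k) * 2 ^ k / (lam k : ℝ) ^ 2) :
    Tendsto (fun k : ℕ => |D S (2 ^ k)| / (pr (2 ^ k) * 2 ^ k / k)) atTop (𝓝 0) := by
  have hc : Tendsto (fun k : ℕ => 16 / (k : ℝ)) atTop (𝓝 0) :=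
    tendsto_const_div_atTop_nhds_zero_nat 16
  refine tendsto_zero_of_rec (c := fun k : ℕ => 16 / (k : ℝ)) (fun k => by positivity) hc ?_
  filter_upwards [h1, eventually_ge_atTop 2] with k hk hk2
  have hk0 : k ≠ 0 := by omega
  have h2 := hk (lam k) le_rfl
  rw [grid_top hk0, show 2 ^ k + 2 ^ k = 2 ^ (k + 1) by ring] at h2
  have hx : (0 : ℝ) < pr (2 ^ k) := by exact_mod_cast pr_pos _
  have hx1 : (pr (2 ^ k) : ℝ) ≤ pr (2 ^ (k + 1)) := by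
    exact_mod_cast pr_strictMono.monotone (Nat.pow_le_pow_right (by norm_num) (by omega))
  have hkr : (2 : ℝ) ≤ k := by exact_mod_cast hk2
  have hkp : (0 : ℝ) < k := by linarith
  have hp : (0 : ℝ) < 2 ^ k := by positivity
  have hl : 1 / (lam k : ℝ) ^ 2 ≤ 4 / (k : ℝ) ^ 2 := four_div_lam k hk0
  have h3 : |D S (2 ^ (k + 1))| ≤ |D S (2 ^ k)| + 4 * pr (2 ^ k) * 2 ^ k / (lam k : ℝ) ^ 2 := by
    have := abs_sub_abs_le_abs_sub (D S (2 ^ (k + 1))) (D S (2 ^ k))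
    linarith
  have h4 : 4 * pr (2 ^ k) * 2 ^ k / (lam k : ℝ) ^ 2 ≤ 4 * pr (2 ^ k) * 2 ^ k * (4 / (k : ℝ) ^ 2) := by
    rw [div_eq_mul_one_div]
    exact mul_le_mul_of_nonneg_left hl (by positivity)
  set X : ℝ := (pr (2 ^ k) : ℝ) with hX
  set A : ℝ := |D S (2 ^ k)| with hA
  have hA0 : 0 ≤ A := abs_nonneg _
  have hq1 : X * 2 ^ (k + 1) / ((k : ℝ) + 1) ≤ pr (2 ^ (k + 1)) * 2 ^ (k + 1) / ((k + 1 : ℕ) : ℝ) := by
    push_cast
    gcongr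
  have hq0 : 0 < X * 2 ^ (k + 1) / ((k : ℝ) + 1) := by positivity
  calc |D S (2 ^ (k + 1))| / (pr (2 ^ (k + 1)) * 2 ^ (k + 1) / ((k + 1 : ℕ) : ℝ))
      ≤ |D S (2 ^ (k + 1))| / (X * 2 ^ (k + 1) / ((k : ℝ) + 1)) :=
        div_le_div_of_nonneg_left (abs_nonneg _) hq0 hq1
    _ ≤ (A + 4 * X * 2 ^ k * (4 / (k : ℝ) ^ 2)) / (X * 2 ^ (k + 1) / ((k : ℝ) + 1)) :=
        div_le_div_of_nonneg_right (h3.trans (by linarith)) hq0.le
    _ = A / (X * 2 ^ k / k) * ((k + 1) / (2 * k)) + 8 * ((k : ℝ) + 1) / (k : ℝ) ^ 2 := by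
        rw [pow_succ]
        field_simp
        ring
    _ ≤ 3 / 4 * (A / (X * 2 ^ k / k)) + 16 / (k : ℝ) := by
        have e1 : ((k : ℝ) + 1) / (2 * k) ≤ 3 / 4 := by
          rw [div_le_div_iff₀ (by positivity) (by norm_num)]
          linarith
        have e2 : 8 * ((k : ℝ) + 1) / (k : ℝ) ^ 2 ≤ 16 / (k : ℝ) := by
          rw [div_le_div_iff₀ (by positivity) (by positivity)]
          nlinarith
        have e3 : 0 ≤ A / (X * 2 ^ k / k) := by positivity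
        nlinarith

theorem D_grid {S : Set ℕ} (h1 : ∀ᶠ k : ℕ in atTop, ∀ l ≤ lam k,
      |D S (2 ^ k + l * (2 ^ k / lam k)) - D S (2 ^ k)| ≤
        4 * pr (2 ^ k) * 2 ^ k / (lam k : ℝ) ^ 2) {η : ℝ} (hη : 0 < η) :
    ∀ᶠ k : ℕ in atTop, ∀ l ≤ lam k,
      |D S (2 ^ k + l * (2 ^ k / lam k))| ≤ η * (pr (2 ^ k) * 2 ^ k / k) := by
  have h2 := (D_dyadic h1).eventually (gt_mem_nhds (show (0 : ℝ) < η / 2 by positivity))
  have hc : Tendsto (fun k : ℕ => 16 / (k : ℝ)) atTop (𝓝 0) :=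
    tendsto_const_div_atTop_nhds_zero_nat 16
  have h3 := hc.eventually (gt_mem_nhds (show (0 : ℝ) < η / 2 by positivity))
  filter_upwards [h1, h2, h3, eventually_ge_atTop 1] with k hk hk2 hk3 hk4 l hl
  have hk0 : k ≠ 0 := by omega
  have hx : (0 : ℝ) < pr (2 ^ k) := by exact_mod_cast pr_pos _
  have hkp : (0 : ℝ) < k := by positivity
  have hl' : 1 / (lam k : ℝ) ^ 2 ≤ 4 / (k : ℝ) ^ 2 := four_div_lam k hk0
  have hq := q_pos hk0
  have h4 := hk l hl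
  have h5 : |D S (2 ^ k + l * (2 ^ k / lam k))| ≤
      |D S (2 ^ k)| + 4 * pr (2 ^ k) * 2 ^ k / (lam k : ℝ) ^ 2 := by
    have := abs_sub_abs_le_abs_sub (D S (2 ^ k + l * (2 ^ k / lam k))) (D S (2 ^ k))
    linarith
  have h6 : 4 * pr (2 ^ k) * 2 ^ k / (lam k : ℝ) ^ 2 ≤ 4 * pr (2 ^ k) * 2 ^ k * (4 / (k : ℝ) ^ 2) := by
    rw [div_eq_mul_one_div]
    exact mul_le_mul_of_nonneg_left hl' (by positivity)
  have h7 : |D S (2 ^ k)| ≤ η / 2 * (pr (2 ^ k) * 2 ^ k / k) := by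
    rw [div_lt_iff₀ hq] at hk2
    exact hk2.le
  have h8 : (4 : ℝ) * pr (2 ^ k) * 2 ^ k * (4 / (k : ℝ) ^ 2) =
      16 / k * (pr (2 ^ k) * 2 ^ k / k) := by
    field_simp
    ring
  have h9 : 16 / (k : ℝ) * (pr (2 ^ k) * 2 ^ k / k) ≤ η / 2 * (pr (2 ^ k) * 2 ^ k / k) :=
    mul_le_mul_of_nonneg_right hk3.le hq.le
  linarith

end Pool.Agent.Helper55.PS
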