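import Pool.Agent.Helper55.PS.K1
import Pool.Agent.Helper55.PS.K2

/-!
# Block PS-K3: `G N ~ T N / (2 log N)` (deterministic)

Let `t N = T N / (2 log N)`. For `2^k ≤ N ≤ 2^(k+1)` and large `k`:
`t N ≥ N pr N / (512 log N) ≥ pr (2^k) 2^k / (1024 k)`-ish (`log N ≤ (k+1) log 2 ≤ k`... any
constant), so by `D_grid` and `pi_T`: for each `η > 0`, for large `k` and all grid points
`N = 2^k + l (2^k / lam k)`: `|G N - t N| ≤ |D N| + |π (T N) - t N| ≤ η t N` (`G_grid`).
For a general `N`, let `k = Nat.log 2 N`, `l = (N - 2^k) / (2^k / lam k) < lam k`,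
`N₁ = 2^k + l (2^k / lam k) ≤ N < N₂ = 2^k + (l+1)(2^k / lam k)`; `G N₁ ≤ G N ≤ G N₂`,
`T N₁ ≤ T N ≤ T N₂`, and `T N₂ - T N₁ ≤ (2^k / lam k) · 4 pr (2^k)` (`pr_two_mul`), which is at most
`(C / lam k) T N₁` (`T_lower`), `log N₂ ≤ log N₁ + log 2`; so
`t N₂ ≤ (1 + η) t N₁` for large `k` and `(1-η)(1+η)^(-1) t N ≤ G N ≤ (1+η)² t N`.
-/

open Finset Filter
open scoped Topology

namespace Pool.Agent.Helper55.PS

theorem G_mono (S : Set ℕ) : Monotone (G S) :=
  monotone_nat_of_le_succ fun n => by rw [G_succ]; exact Nat.le_add_right _ _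

private theorem k3_lam_pos (k : ℕ) : 0 < lam k := by unfold lam; positivity

private theorem k3_grid_le {k l : ℕ} (hl : l ≤ lam k) : 2 ^ k + l * (2 ^ k / lam k) ≤ 2 ^ (k + 1) := by
  have h1 : l * (2 ^ k / lam k) ≤ lam k * (2 ^ k / lam k) := Nat.mul_le_mul_right _ hl
  have h2 : lam k * (2 ^ k / lam k) ≤ 2 ^ k := Nat.mul_div_le _ _
  rw [pow_succ]
  omega

theorem G_grid {S : Set ℕ} (h1 : ∀ᶠ k : ℕ in atTop, ∀ l ≤ lam k,
      |D S (2 ^ k + l * (2 ^ k / lam k)) - D S (2 ^ k)| ≤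
        4 * pr (2 ^ k) * 2 ^ k / (lam k : ℝ) ^ 2)
    (hT : ∀ᶠ N : ℕ in atTop, N * pr N ≤ 256 * T S N) {η : ℝ} (hη : 0 < η) :
    ∀ᶠ k : ℕ in atTop, ∀ l ≤ lam k,
      |(G S (2 ^ k + l * (2 ^ k / lam k)) : ℝ) -
          T S (2 ^ k + l * (2 ^ k / lam k)) /
            (2 * Real.log ((2 ^ k + l * (2 ^ k / lam k) : ℕ) : ℝ))| ≤
        η * (T S (2 ^ k + l * (2 ^ k / lam k)) /
            (2 * Real.log ((2 ^ k + l * (2 ^ k / lam k) : ℕ) : ℝ))) := by
  obtain ⟨N0, hN0⟩ := Metric.tendsto_atTop.1 (pi_T hT) (η / 2) (by positivity)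
  obtain ⟨N1, hN1⟩ := eventually_atTop.1 hT
  filter_upwards [D_grid h1 (η := η / 2048) (by positivity), eventually_ge_atTop (max N0 (max N1 2))] with k hD hk l hl
  have hDl := hD l hl
  have hle := k3_grid_le hl
  set N := 2 ^ k + l * (2 ^ k / lam k) with hN
  have hk2 : k < 2 ^ k := Nat.lt_two_pow_self
  have hkN : 2 ^ k ≤ N := Nat.le_add_right _ _
  have hN00 : N0 ≤ N := by omega
  have hN11 : N1 ≤ N := by omega
  have hN2 : 2 ≤ N := by omega
  have hk2' : (2 : ℝ) ≤ k := by exact_mod_cast (by omega : 2 ≤ k)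
  have hNR : (2 : ℝ) ≤ N := by exact_mod_cast hN2
  have hlog0 : 0 < Real.log N := Real.log_pos (by linarith)
  have hlog1 : Real.log N ≤ 2 * k := by
    have e1 : Real.log N ≤ Real.log ((2 : ℝ) ^ (k + 1)) := by
      refine Real.log_le_log (by linarith) ?_
      exact_mod_cast hle
    rw [Real.log_pow] at e1
    have e2 : Real.log 2 ≤ 1 := by
      have := Real.log_two_lt_d9
      linarith
    push_cast at e1
    have e3 := mul_le_mul_of_nonneg_left e2 (show (0 : ℝ) ≤ k + 1 by positivity)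
    linarith
  have hT1 : (N : ℝ) * pr N ≤ 256 * T S N := by exact_mod_cast hN1 N hN11
  have hpr0 : (0 : ℝ) < pr (2 ^ k) := by exact_mod_cast pr_pos _
  have hpr1 : (pr (2 ^ k) : ℝ) ≤ pr N := by exact_mod_cast pr_strictMono.monotone hkN
  have hkNR : (2 : ℝ) ^ k ≤ N := by exact_mod_cast hkN
  have h2k : (0 : ℝ) < 2 ^ k := by positivity
  have hT2 : (2 : ℝ) ^ k * pr (2 ^ k) ≤ 256 * T S N := (mul_le_mul hkNR hpr1 hpr0.le (by linarith)).trans hT1
  have hT0 : (0 : ℝ) < T S N := by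
    have : 0 < (2 : ℝ) ^ k * pr (2 ^ k) := by positivity
    linarith
  set t := (T S N : ℝ) / (2 * Real.log N) with ht
  have ht0 : 0 < t := by positivity
  have h3 : pr (2 ^ k) * 2 ^ k / k ≤ 1024 * t := by
    rw [div_le_iff₀ (by linarith)]
    have e1 : (T S N : ℝ) / (4 * k) ≤ t := by
      rw [ht]
      refine div_le_div_of_nonneg_left hT0.le (by positivity) (by linarith)
    have e2 : (T S N : ℝ) = T S N / (4 * k) * (4 * k) := by
      rw [div_mul_cancel₀]
      positivity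
    have e3 : (T S N : ℝ) ≤ t * (4 * k) := by
      rw [e2]
      exact mul_le_mul_of_nonneg_right e1 (by linarith)
    linarith
  have h4 : |(Nat.primeCounting (T S N) : ℝ) - t| ≤ η / 2 * t := by
    have e1 := hN0 N hN00
    rw [Real.dist_eq] at e1
    have e2 : (Nat.primeCounting (T S N) : ℝ) - t = ((Nat.primeCounting (T S N) : ℝ) / t - 1) * t := by
      rw [sub_mul, div_mul_cancel₀ _ ht0.ne', one_mul]
    rw [e2, abs_mul, abs_of_pos ht0]
    exact mul_le_mul_of_nonneg_right e1.le ht0.le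
  have h5 : |D S N| ≤ η / 2 * t := by
    refine hDl.trans ?_
    have := mul_le_mul_of_nonneg_left h3 (show (0 : ℝ) ≤ η / 2048 by positivity)
    linarith
  have e : (G S N : ℝ) - t = D S N + ((Nat.primeCounting (T S N) : ℝ) - t) := by
    unfold D
    ring
  rw [e]
  refine (abs_add_le _ _).trans ?_
  linarith

private theorem k3_T_sub (S : Set ℕ) {a b : ℕ} (hab : a ≤ b) : T S b ≤ T S a + (b - a) * pr b := by
  obtain ⟨c, rfl⟩ := Nat.exists_eq_add_of_le hab
  unfold T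
  rw [Finset.sum_range_add, Nat.add_sub_cancel_left]
  refine Nat.add_le_add_left ?_ _
  calc ∑ i ∈ range c, st S (a + i) ≤ ∑ i ∈ range c, pr (a + c) := by
        refine Finset.sum_le_sum fun i hi => ?_
        rw [Finset.mem_range] at hi
        exact (st_le S _).trans (pr_strictMono.monotone (by omega))
    _ = c * pr (a + c) := by simp

private theorem k3_e1 {a b η : ℝ} (ha : 0 < a) (h0 : 0 < η) (h1 : η ≤ 1 / 2) (h : b ≤ (1 + η) * a) :
    (1 - η) * b ≤ a := by
  have h2 : (1 - η) * b ≤ (1 - η) * ((1 + η) * a) := mul_le_mul_of_nonneg_left h (by linarith)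
  have h3 : 0 ≤ η * η * a := by positivity
  linarith

private theorem k3_e5 {x y lam η : ℝ} (hl : 0 < lam) (hη : 0 < η) (hlam : 1024 / η ≤ lam) (hy : 0 < y)
    (h : x ≤ 256 * y) : 4 * x / lam ≤ η * y := by
  rw [div_le_iff₀ hl]
  rw [div_le_iff₀ hη] at hlam
  have h1 := mul_le_mul_of_nonneg_left hlam hy.le
  linarith

private theorem k3_fin {G t η ε : ℝ} (ht : 0 < t) (hη0 : 0 < η) (hη1 : η ≤ 1 / 2) (hη2 : η ≤ ε / 4)
    (hu : G ≤ (1 + η) * ((1 + η) * t)) (hl : (1 - η) * ((1 - η) * t) ≤ G) : |G - t| < ε * t := by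
  have h1 : η * t ≤ ε / 4 * t := mul_le_mul_of_nonneg_right hη2 ht.le
  have h2 : 0 < η * t := by positivity
  have h3 : η * (η * t) ≤ 1 / 2 * (η * t) := mul_le_mul_of_nonneg_right hη1 h2.le
  have h4 : 0 ≤ η * (η * t) := by positivity
  rw [abs_lt]
  constructor
  · linarith
  · linarith

private theorem k3_lt_lam (k : ℕ) : k < 2 * lam k := by
  unfold lam
  have := Nat.lt_pow_succ_log_self (b := 2) (by norm_num) k
  rw [pow_succ] at this
  omega

theorem G_asymp {S : Set ℕ} (h1 : ∀ᶠ k : ℕ in atTop, ∀ l ≤ lam k,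
      |D S (2 ^ k + l * (2 ^ k / lam k)) - D S (2 ^ k)| ≤
        4 * pr (2 ^ k) * 2 ^ k / (lam k : ℝ) ^ 2)
    (hT : ∀ᶠ N : ℕ in atTop, N * pr N ≤ 256 * T S N) :
    Tendsto (fun N : ℕ => (G S N : ℝ) / (T S N / (2 * Real.log N))) atTop (𝓝 1) := by
  rw [Metric.tendsto_atTop]
  intro ε hε
  set η : ℝ := min (ε / 4) (1 / 2) with hη
  have hη0 : 0 < η := by rw [hη]; positivity
  have hη1 : η ≤ 1 / 2 := min_le_right _ _
  have hη2 : η ≤ ε / 4 := min_le_left _ _
  obtain ⟨k0, hk0⟩ := eventually_atTop.1 (G_grid h1 hT hη0)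
  obtain ⟨N1, hN1⟩ := eventually_atTop.1 hT
  obtain ⟨N2, hN2⟩ := eventually_atTop.1 pr_two_mul
  obtain ⟨m0, hm0⟩ := exists_nat_gt (2048 / η)
  set k1 := max (max k0 m0) (max N1 (max N2 2)) with hk1
  refine ⟨2 ^ k1, fun N hN => ?_⟩
  have hN0 : N ≠ 0 := by
    have : 0 < 2 ^ k1 := by positivity
    omega
  set k := Nat.log 2 N with hk
  have hkk : k1 ≤ k := by
    rw [hk]
    exact (Nat.le_log_iff_pow_le (by norm_num) hN0).2 hN
  have hkN : 2 ^ k ≤ N := Nat.pow_log_le_self 2 hN0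
  have hNk : N < 2 ^ (k + 1) := Nat.lt_pow_succ_log_self (by norm_num) N
  have hk0' : k ≠ 0 := by omega
  have hk2 : k < 2 ^ k := Nat.lt_two_pow_self
  have hlam0 := k3_lam_pos k
  have hgt := grid_top hk0'
  set m := 2 ^ k / lam k with hm
  have hm0' : 0 < m := by
    rcases Nat.eq_zero_or_pos m with h | h
    · rw [h, mul_zero] at hgt
      have : 0 < 2 ^ k := by positivity
      omega
    · exact h
  set l := (N - 2 ^ k) / m with hl
  have hl1 : l < lam k := by
    rw [hl, Nat.div_lt_iff_lt_mul hm0', hgt]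
    rw [pow_succ] at hNk
    omega
  have hl2 : l * m ≤ N - 2 ^ k := Nat.div_mul_le_self _ _
  have hl3 : N - 2 ^ k < (l + 1) * m := by
    rw [hl]
    have := Nat.lt_div_mul_add (a := N - 2 ^ k) hm0'
    rw [add_mul, one_mul]
    exact this
  set Na := 2 ^ k + l * m with hNa
  set Nb := 2 ^ k + (l + 1) * m with hNb
  have ha : Na ≤ N := by omega
  have hb : N ≤ Nb := by omega
  have hba : Nb - Na = m := by rw [hNa, hNb, add_mul, one_mul]; omega
  have hab : Na ≤ Nb := ha.trans hb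
  have hga := hk0 k (by omega) l hl1.le
  have hgb := hk0 k (by omega) (l + 1) hl1
  have hble : Nb ≤ 2 ^ (k + 1) := k3_grid_le hl1
  have hkNa : 2 ^ k ≤ Na := Nat.le_add_right _ _
  rw [← hm, ← hNa] at hga
  rw [← hm, ← hNb] at hgb
  -- real versions
  have hlamR : 1024 / η ≤ (lam k : ℝ) := by
    have e1 := k3_lt_lam k
    have e2 : (m0 : ℝ) ≤ 2 * lam k := by exact_mod_cast (by omega : m0 ≤ 2 * lam k)
    have e3 : 1024 / η = 2048 / η / 2 := by ring
    rw [e3]
    linarith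
  have hlamR0 : (0 : ℝ) < lam k := by exact_mod_cast hlam0
  have hT1 : (2 : ℝ) ^ k * pr (2 ^ k) ≤ 256 * T S Na := by
    have e1 : Na * pr Na ≤ 256 * T S Na := hN1 Na (by omega)
    have e2 : 2 ^ k * pr (2 ^ k) ≤ Na * pr Na := Nat.mul_le_mul hkNa (pr_strictMono.monotone hkNa)
    exact_mod_cast e2.trans e1
  have hpr0 : (0 : ℝ) < pr (2 ^ k) := by exact_mod_cast pr_pos _
  have h2k : (0 : ℝ) < 2 ^ k := by positivity
  have hTa0 : (0 : ℝ) < T S Na := by
    have : 0 < (2 : ℝ) ^ k * pr (2 ^ k) := by positivity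
    linarith
  have hTb : (T S Nb : ℝ) ≤ (1 + η) * T S Na := by
    have e1 : T S Nb ≤ T S Na + m * pr Nb := by
      have := k3_T_sub S hab
      rwa [hba] at this
    have e2 : pr Nb ≤ 4 * pr (2 ^ k) := by
      have e3 := hN2 (2 ^ k) (by omega)
      have e4 : pr Nb ≤ pr (2 * 2 ^ k) := pr_strictMono.monotone (by rw [pow_succ] at hble; omega)
      exact e4.trans e3
    have e3 : (T S Nb : ℝ) ≤ T S Na + m * (4 * pr (2 ^ k)) := by
      exact_mod_cast e1.trans (Nat.add_le_add_left (Nat.mul_le_mul_left _ e2) _)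
    have e4 : (m : ℝ) = 2 ^ k / lam k := by
      rw [eq_div_iff hlamR0.ne', mul_comm]
      exact_mod_cast hgt
    have e5 : (m : ℝ) * (4 * pr (2 ^ k)) ≤ η * T S Na := by
      rw [e4]
      have e6 : (2 : ℝ) ^ k / lam k * (4 * pr (2 ^ k)) = 4 * (2 ^ k * pr (2 ^ k)) / lam k := by ring
      rw [e6]
      exact k3_e5 hlamR0 hη0 hlamR hTa0 hT1
    linarith
  have hTN1 : (T S Na : ℝ) ≤ T S N := by exact_mod_cast T_mono S ha
  have hTN2 : (T S N : ℝ) ≤ T S Nb := by exact_mod_cast T_mono S hb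
  have hGN1 : (G S Na : ℝ) ≤ G S N := by exact_mod_cast G_mono S ha
  have hGN2 : (G S N : ℝ) ≤ G S Nb := by exact_mod_cast G_mono S hb
  have hNa2 : (2 : ℝ) ≤ Na := by exact_mod_cast (by omega : 2 ≤ Na)
  have hNaN : (Na : ℝ) ≤ N := by exact_mod_cast ha
  have hNNb : (N : ℝ) ≤ Nb := by exact_mod_cast hb
  have hla0 : 0 < Real.log Na := Real.log_pos (by linarith)
  have hla : Real.log Na ≤ Real.log N := Real.log_le_log (by linarith) hNaN
  have hlb : Real.log N ≤ Real.log Nb := Real.log_le_log (by linarith) hNNb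
  have hln0 : 0 < Real.log N := by linarith
  have hTN0 : (0 : ℝ) < T S N := by linarith
  have hlow : (1 - η) * (T S Na / (2 * Real.log Na)) ≤ G S N := by
    have := (abs_le.1 hga).1
    linarith
  have hup : (G S N : ℝ) ≤ (1 + η) * (T S Nb / (2 * Real.log Nb)) := by
    have := (abs_le.1 hgb).2
    linarith
  have ht0 : 0 < (T S N : ℝ) / (2 * Real.log N) := by positivity
  have hu2 : (G S N : ℝ) ≤ (1 + η) * ((1 + η) * (T S N / (2 * Real.log N))) := by
    refine hup.trans (mul_le_mul_of_nonneg_left ?_ (by linarith))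
    calc (T S Nb : ℝ) / (2 * Real.log Nb) ≤ T S Nb / (2 * Real.log N) :=
          div_le_div_of_nonneg_left (by linarith) (by linarith) (by linarith)
      _ ≤ ((1 + η) * T S N) / (2 * Real.log N) := by
          refine div_le_div_of_nonneg_right ?_ (by linarith)
          refine hTb.trans (mul_le_mul_of_nonneg_left hTN1 (by linarith))
      _ = (1 + η) * (T S N / (2 * Real.log N)) := by ring
  have hl4 : (1 - η) * ((1 - η) * (T S N / (2 * Real.log N))) ≤ G S N := by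
    refine le_trans (mul_le_mul_of_nonneg_left ?_ (by linarith)) hlow
    have e1 : (1 - η) * T S N ≤ T S Na := k3_e1 hTa0 hη0 hη1 (hTN2.trans hTb)
    calc (1 - η) * ((T S N : ℝ) / (2 * Real.log N)) = ((1 - η) * T S N) / (2 * Real.log N) := by ring
      _ ≤ T S Na / (2 * Real.log N) := div_le_div_of_nonneg_right e1 (by linarith)
      _ ≤ T S Na / (2 * Real.log Na) := div_le_div_of_nonneg_left hTa0.le (by linarith) (by linarith)
  rw [Real.dist_eq]
  set t := (T S N : ℝ) / (2 * Real.log N) with ht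
  have e : (G S N : ℝ) / t - 1 = (G S N - t) / t := by
    rw [sub_div, div_self ht0.ne']
  rw [e, abs_div, abs_of_pos ht0, div_lt_iff₀ ht0]
  exact k3_fin ht0 hη0 hη1 hη2 hu2 hl4

end Pool.Agent.Helper55.PS
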