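import Pool.Agent.Helper55.PS.Defs

/-!
# Block PS-M: translation to the increasing enumeration (deterministic)

`R = pr '' S` = the deleted primes. The primes outside `R` are the `pr i`, `i ∉ S`.
* `sum_eq`: `sumOutside R (K S N) = T S N`: the `K S N` smallest primes outside `R` are the
  `pr i`, `i < N`, `i ∉ S`. (Induction on `N`: if `N ∉ S` then the prime outside `R` with index
  `K S N` is `pr N`: `Nat.count (fun p => p.Prime ∧ p ∉ R) (pr N) = K S N` and `Nat.nth_count`.)
* `pi_eq`: `piOutside R (K S N) = F S N` (induction on `N`: if `N ∈ S` both sides do not change,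
  if `N ∉ S` then `K S (N+1) = K S N + 1` and the new `k = K S N + 1` has
  `sumOutside R k = T S (N + 1)`).
* `Q1Outside_of`: for each `n` choose `N n` with `K S (N n) = n` (`K` is unbounded by `hK` and
  grows by at most one); `n = K S (N n) ≤ N n ≤ 16 n` for large `n`. So
  `piOutside R n = F S (N n) ~ n / (2 log (N n)) ~ n / (2 log n)`.
-/

open Finset Filter Asymptotics
open scoped Topology

namespace Pool.Agent.Helper55.PS

private theorem M_K_zero (S : Set ℕ) : K S 0 = 0 := by
  classical
  simp [K]

private theorem M_K_mem {S : Set ℕ} {N : ℕ} (h : N ∈ S) : K S (N + 1) = K S N := by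
  classical
  unfold K
  rw [Finset.range_add_one, Finset.filter_insert, if_neg (fun h' => h' h)]

private theorem M_K_notMem {S : Set ℕ} {N : ℕ} (h : N ∉ S) : K S (N + 1) = K S N + 1 := by
  classical
  unfold K
  rw [Finset.range_add_one, Finset.filter_insert, if_pos h, Finset.card_insert_of_notMem (by simp)]

private theorem M_K_le (S : Set ℕ) (N : ℕ) : K S N ≤ N := by
  classical
  unfold K
  exact (Finset.card_filter_le _ _).trans (Finset.card_range N).le

private theorem M_eq_pr {p : ℕ} (hp : p.Prime) : ∃ i, pr i = p := by
  classical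
  exact ⟨Nat.count Nat.Prime p, Nat.nth_count hp⟩

private theorem M_nth {S : Set ℕ} {N : ℕ} (h : N ∉ S) :
    Nat.nth (fun p => p.Prime ∧ p ∉ pr '' S) (K S N) = pr N := by
  classical
  have hq : (fun p => p.Prime ∧ p ∉ pr '' S) (pr N) := by
    refine ⟨pr_prime N, ?_⟩
    rintro ⟨i, hi, hiN⟩
    exact h (pr_strictMono.injective hiN ▸ hi)
  have hc : Nat.count (fun p => p.Prime ∧ p ∉ pr '' S) (pr N) = K S N := by
    rw [Nat.count_eq_card_filter_range]
    unfold K
    have h1 : (range (pr N)).filter (fun p => p.Prime ∧ p ∉ pr '' S) =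
        ((range N).filter fun i => i ∉ S).image pr := by
      ext p
      rw [Finset.mem_filter, Finset.mem_range, Finset.mem_image]
      constructor
      · rintro ⟨hp1, hp2, hp3⟩
        obtain ⟨i, rfl⟩ := M_eq_pr hp2
        refine ⟨i, ?_, rfl⟩
        rw [Finset.mem_filter, Finset.mem_range]
        exact ⟨pr_strictMono.lt_iff_lt.1 hp1, fun hi => hp3 ⟨i, hi, rfl⟩⟩
      · rintro ⟨i, hi, rfl⟩
        rw [Finset.mem_filter, Finset.mem_range] at hi
        refine ⟨pr_strictMono hi.1, pr_prime i, ?_⟩
        rintro ⟨j, hj, hji⟩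
        exact hi.2 (pr_strictMono.injective hji ▸ hj)
    rw [h1, Finset.card_image_of_injective _ pr_strictMono.injective]
  rw [← hc]
  exact Nat.nth_count hq

theorem sum_eq (S : Set ℕ) (N : ℕ) : sumOutside (pr '' S) (K S N) = T S N := by
  classical
  induction N with
  | zero => rw [M_K_zero, T_zero]; simp [sumOutside]
  | succ N ih =>
    rw [T_succ]
    by_cases h : N ∈ S
    · rw [M_K_mem h, ih]
      unfold st
      rw [if_pos h, add_zero]
    · rw [M_K_notMem h]
      unfold sumOutside at ih ⊢
      rw [Finset.sum_range_succ, ih, M_nth h]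
      unfold st
      rw [if_neg h]

theorem pi_eq (S : Set ℕ) (N : ℕ) : piOutside (pr '' S) (K S N) = F S N := by
  classical
  induction N with
  | zero => rw [M_K_zero]; simp [piOutside, F]
  | succ N ih =>
    have hF : F S (N + 1) = F S N + if N ∉ S ∧ (T S (N + 1)).Prime then 1 else 0 := by
      unfold F
      rw [Finset.range_add_one, Finset.filter_insert]
      split_ifs with h
      · rw [Finset.card_insert_of_notMem (by simp)]
      · rw [add_zero]
    rw [hF]
    by_cases h : N ∈ S
    · rw [M_K_mem h, ih, if_neg (fun h' => h'.1 h), add_zero]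
    · have hP : piOutside (pr '' S) (K S N + 1) = piOutside (pr '' S) (K S N) +
          if (sumOutside (pr '' S) (K S N + 1)).Prime then 1 else 0 := by
        unfold piOutside
        have h2 : Finset.Icc 1 (K S N + 1) = insert (K S N + 1) (Finset.Icc 1 (K S N)) := by
          ext k
          simp only [Finset.mem_Icc, Finset.mem_insert]
          omega
        rw [h2, Finset.filter_insert]
        split_ifs with h3
        · rw [Finset.card_insert_of_notMem (by simp)]
        · rw [add_zero]
      rw [M_K_notMem h, hP, ih, ← M_K_notMem h, sum_eq]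
      simp [h]

private theorem M_exists {S : Set ℕ} (hK : ∀ᶠ N : ℕ in atTop, N ≤ 16 * K S N) (n : ℕ) :
    ∃ N, K S N = n := by
  classical
  obtain ⟨N₀, hN₀⟩ := eventually_atTop.1 hK
  have hex : ∃ N, n ≤ K S N := by
    refine ⟨max N₀ (16 * n), ?_⟩
    have h1 := hN₀ (max N₀ (16 * n)) (le_max_left _ _)
    have h2 : 16 * n ≤ max N₀ (16 * n) := le_max_right _ _
    omega
  have hfind := Nat.find_spec hex
  refine ⟨Nat.find hex, le_antisymm ?_ hfind⟩
  rcases Nat.eq_zero_or_pos (Nat.find hex) with h0 | hpos
  · rw [h0, M_K_zero]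
    exact Nat.zero_le _
  · have h1 : ¬ n ≤ K S (Nat.find hex - 1) := Nat.find_min hex (Nat.sub_lt hpos one_pos)
    have h2 : Nat.find hex = (Nat.find hex - 1) + 1 := by omega
    rw [h2]
    by_cases h3 : Nat.find hex - 1 ∈ S
    · rw [M_K_mem h3]; omega
    · rw [M_K_notMem h3]; omega

theorem Q1Outside_of {S : Set ℕ} (hK : ∀ᶠ N : ℕ in atTop, N ≤ 16 * K S N)
    (hF : Tendsto (fun N : ℕ => (F S N : ℝ) / (K S N / (2 * Real.log N))) atTop (𝓝 1)) :
    Q1Outside (pr '' S) := by
  classical
  choose N hN using M_exists hK
  have hNle : ∀ n, n ≤ N n := fun n => by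
    have := M_K_le S (N n)
    rw [hN n] at this
    exact this
  have hNtop : Tendsto N atTop atTop := tendsto_atTop_mono hNle tendsto_id
  have hN16 : ∀ᶠ n : ℕ in atTop, N n ≤ 16 * n := by
    filter_upwards [hNtop.eventually hK] with n hn
    rwa [hN n] at hn
  have h1 : Tendsto (fun n : ℕ => (F S (N n) : ℝ) / (n / (2 * Real.log (N n)))) atTop (𝓝 1) := by
    have h2 := hF.comp hNtop
    refine h2.congr fun n => ?_
    simp only [Function.comp_apply]
    rw [hN n]
  have hlog : Tendsto (fun n : ℕ => Real.log n) atTop atTop :=
    Real.tendsto_log_atTop.comp tendsto_natCast_atTop_atTop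
  have h16 : 0 < Real.log 16 := Real.log_pos (by norm_num)
  have h3 : Tendsto (fun n : ℕ => Real.log n / Real.log (N n)) atTop (𝓝 1) := by
    have h4 : Tendsto (fun n : ℕ => 1 - Real.log 16 / (Real.log n + Real.log 16)) atTop (𝓝 1) := by
      have h5 : Tendsto (fun n : ℕ => Real.log 16 / (Real.log n + Real.log 16)) atTop (𝓝 0) :=
        Tendsto.const_div_atTop (tendsto_atTop_add_const_right _ _ hlog) _
      simpa using (tendsto_const_nhds (x := (1 : ℝ))).sub h5
    refine tendsto_of_tendsto_of_tendsto_of_le_of_le' h4 tendsto_const_nhds ?_ ?_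
    · filter_upwards [hN16, eventually_ge_atTop 2] with n hn hn2
      have hn0 : (0 : ℝ) < n := by
        have : 0 < n := by omega
        exact_mod_cast this
      have hl : 0 < Real.log n := Real.log_pos (by exact_mod_cast hn2)
      have hNn : Real.log (N n) ≤ Real.log n + Real.log 16 := by
        rw [← Real.log_mul hn0.ne' (by norm_num)]
        refine Real.log_le_log ?_ ?_
        · have := hNle n
          have : 0 < N n := by omega
          exact_mod_cast this
        · have : (N n : ℝ) ≤ 16 * n := by exact_mod_cast hn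
          linarith
      have hNpos : 0 < Real.log (N n) := by
        refine Real.log_pos ?_
        have := hNle n
        have : 1 < N n := by omega
        exact_mod_cast this
      have h6 : 1 - Real.log 16 / (Real.log n + Real.log 16) =
          Real.log n / (Real.log n + Real.log 16) := by
        have : Real.log n + Real.log 16 ≠ 0 := by positivity
        field_simp
        ring
      rw [h6]
      exact div_le_div_of_nonneg_left hl.le hNpos hNn
    · filter_upwards [eventually_ge_atTop 2] with n hn2
      have hl : 0 < Real.log n := Real.log_pos (by exact_mod_cast hn2)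
      have hle : Real.log n ≤ Real.log (N n) := by
        refine Real.log_le_log ?_ ?_
        · have : 0 < n := by omega
          exact_mod_cast this
        · exact_mod_cast hNle n
      rw [div_le_one (lt_of_lt_of_le hl hle)]
      exact hle
  unfold Q1Outside
  refine isEquivalent_of_tendsto_one ?_
  have h7 := h1.mul h3
  rw [mul_one] at h7
  refine h7.congr' ?_
  filter_upwards [eventually_ge_atTop 2] with n hn2
  have hn0 : (0 : ℝ) < n := by
    have : 0 < n := by omega
    exact_mod_cast this
  have hl : 0 < Real.log n := Real.log_pos (by exact_mod_cast hn2)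
  have hle : Real.log n ≤ Real.log (N n) := by
    refine Real.log_le_log hn0 ?_
    exact_mod_cast hNle n
  have hlN : 0 < Real.log (N n) := lt_of_lt_of_le hl hle
  have h8 : piOutside (pr '' S) n = F S (N n) := by
    rw [← pi_eq, hN n]
  simp only [Pi.div_apply]
  rw [h8]
  field_simp

end Pool.Agent.Helper55.PS
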