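import Pool.Agent.Helper55.PS.J1

/-!
# Block PS-N2: the sparse case

* `exists_model`: for any `τ : ℕ → ℝ` with values in `[0, 1]` there are a probability space and
  independent events `del i` with probabilities `τ i` (e.g. `Ω = ℕ → Bool` or `ℕ → Prop`,
  `Measure.infinitePi` of the two-point measures, `iIndepFun_infinitePi`-type lemmas).
* `ae_sparse`: if `τ i ≤ (log i)^100 / i` for all `i ≥ 1` (and `τ 0 ≤ 1`), then almost surely the
  number of deleted primes up to `x` is at most `(log x)^104` for all large `x`.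
  Proof: `E #(S ∩ [0, 2^(k+1))) = ∑ τ i ≤ 1 + (log 2^(k+1))^100 (1 + log 2^(k+1)) ≤ C k^101`
  (`integral_eq_E` or directly), Markov: `μ (# ≥ k^103) ≤ C / k²`, Borel–Cantelli: almost surely
  `#(S ∩ [0, 2^(k+1))) ≤ k^103` for large `k`. For `2^k ≤ x < 2^(k+1)`: the deleted primes
  `≤ x` have indices `< x < 2^(k+1)` (`lt_pr`), so there are at most `k^103` of them, and
  `k ≤ log x / log 2 ≤ 2 log x`, `(2 log x)^103 ≤ (log x)^104` for large `x`.
-/

open Finset Filter MeasureTheory ProbabilityTheory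
open scoped Topology

namespace Pool.Agent.Helper55.PS

theorem exists_model {τ : ℕ → ℝ} (h0 : ∀ i, 0 ≤ τ i) (h1 : ∀ i, τ i ≤ 1) :
    ∃ (Ω : Type) (_ : MeasurableSpace Ω) (μ : Measure Ω) (_ : IsProbabilityMeasure μ)
      (del : ℕ → Set Ω), (∀ i, MeasurableSet (del i)) ∧ iIndepSet del μ ∧
        ∀ i, μ.real (del i) = τ i := by
  classical
  let ν : ℕ → Measure Bool := fun i =>
    ENNReal.ofReal (τ i) • Measure.dirac true + ENNReal.ofReal (1 - τ i) • Measure.dirac false
  have hν : ∀ i, IsProbabilityMeasure (ν i) := fun i => ⟨by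
    simp only [ν, Measure.add_apply, Measure.smul_apply, measure_univ, smul_eq_mul, mul_one]
    rw [← ENNReal.ofReal_add (h0 i) (by linarith [h1 i])]
    simp⟩
  let μ : Measure (ℕ → Bool) := Measure.infinitePi ν
  have hdel : ∀ i, MeasurableSet {ω : ℕ → Bool | ω i = true} := fun i =>
    measurableSet_eq_fun (measurable_pi_apply i) measurable_const
  refine ⟨ℕ → Bool, inferInstance, μ, inferInstance, fun i => {ω | ω i = true}, hdel, ?_, ?_⟩
  · have h2 : iIndepFun (fun i (ω : ℕ → Bool) => ω i) μ :=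
      iIndepFun_infinitePi (P := ν) (X := fun _ b => b) (fun i => measurable_id)
    rw [iIndepSet_iff_meas_biInter hdel]
    intro s
    have h3 := (iIndepFun_iff_measure_inter_preimage_eq_mul.1 h2) s (sets := fun _ => {true})
      (fun i _ => MeasurableSet.singleton _)
    exact h3
  · intro i
    have h2 : μ {ω : ℕ → Bool | ω i = true} = ν i {true} := by
      have h3 : μ.map (fun ω => ω i) = ν i := (measurePreserving_eval_infinitePi ν i).map_eq
      rw [← h3, Measure.map_apply (measurable_pi_apply i) (MeasurableSet.singleton _)]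
      rfl
    rw [Measure.real, h2]
    simp only [ν, Measure.add_apply, Measure.smul_apply, smul_eq_mul,
      Measure.dirac_apply' _ (MeasurableSet.singleton _)]
    simp [ENNReal.toReal_ofReal (h0 i)]

private theorem sparse_mean {τ : ℕ → ℝ} (h0 : τ 0 ≤ 1)
    (h2 : ∀ i, 1 ≤ i → τ i ≤ Real.log i ^ 100 / i) (k : ℕ) :
    ∑ i ∈ range (2 ^ (k + 1)), τ i ≤ 2 * ((k : ℝ) + 2) ^ 101 := by
  have hM : (2 ^ (k + 1) : ℕ) = (2 ^ (k + 1) - 1) + 1 := by
    have : 0 < 2 ^ (k + 1) := by positivity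
    omega
  rw [hM, sum_range_succ']
  set M := 2 ^ (k + 1) - 1 with hMdef
  have hlogM : ∀ i < M, Real.log ((i + 1 : ℕ) : ℝ) ≤ k + 1 := by
    intro i hi
    have h1 : ((i + 1 : ℕ) : ℝ) ≤ 2 ^ (k + 1) := by
      have : i + 1 ≤ 2 ^ (k + 1) := by omega
      exact_mod_cast this
    have h3 := Real.log_le_log (by positivity) h1
    rw [Real.log_pow] at h3
    have h4 : Real.log 2 ≤ 1 := by
      have := Real.log_two_lt_d9
      linarith
    push_cast at h3 ⊢
    nlinarith
  have hk : (0 : ℝ) ≤ (k : ℝ) + 1 := by positivity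
  have h3 : ∀ i ∈ range M, τ (i + 1) ≤ ((k : ℝ) + 1) ^ 100 * ((i + 1 : ℕ) : ℝ)⁻¹ := by
    intro i hi
    refine (h2 (i + 1) (by omega)).trans ?_
    rw [div_eq_mul_inv]
    have hlog0 : 0 ≤ Real.log ((i + 1 : ℕ) : ℝ) := Real.log_natCast_nonneg _
    have := hlogM i (mem_range.1 hi)
    gcongr
  have h4 : ∑ i ∈ range M, ((k : ℝ) + 1) ^ 100 * ((i + 1 : ℕ) : ℝ)⁻¹ ≤
      ((k : ℝ) + 1) ^ 100 * (1 + (k + 1)) := by
    rw [← mul_sum]
    have h5 : ∑ i ∈ range M, ((i + 1 : ℕ) : ℝ)⁻¹ = (harmonic M : ℝ) := by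
      unfold harmonic
      push_cast
      rfl
    rw [h5]
    have h6 := harmonic_le_one_add_log M
    have h7 : Real.log (M : ℝ) ≤ k + 1 := by
      clear h3
      rcases Nat.eq_zero_or_pos M with h | h
      · rw [h]
        simp only [Nat.cast_zero, Real.log_zero]
        exact hk
      · obtain ⟨i, hi⟩ : ∃ i, M = i + 1 := ⟨M - 1, by omega⟩
        rw [hi]
        exact hlogM i (by omega)
    have h8 : (harmonic M : ℝ) ≤ 1 + (k + 1) := h6.trans (add_le_add_right h7 1)
    exact mul_le_mul_of_nonneg_left h8 (by positivity)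
  have h5 := (sum_le_sum h3).trans h4
  have h6 : ((k : ℝ) + 1) ^ 100 * (1 + (k + 1)) ≤ ((k : ℝ) + 2) ^ 101 := by
    have h7 : ((k : ℝ) + 1) ^ 100 ≤ ((k : ℝ) + 2) ^ 100 := by
      apply pow_le_pow_left₀ hk
      exact add_le_add_right (by norm_num) _
    calc ((k : ℝ) + 1) ^ 100 * (1 + (k + 1)) ≤ ((k : ℝ) + 2) ^ 100 * (1 + (k + 1)) := by gcongr
      _ = ((k : ℝ) + 2) ^ 101 := by
          have h8 : 1 + ((k : ℝ) + 1) = (k : ℝ) + 2 := by ring
          rw [h8]
          exact (pow_succ _ _).symm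
  have h7 : (1 : ℝ) ≤ ((k : ℝ) + 2) ^ 101 := by
    apply one_le_pow₀
    clear h6 h5 h4 h3
    have : (0 : ℝ) ≤ k := by positivity
    linarith
  calc ∑ i ∈ range M, τ (i + 1) + τ 0 ≤ ((k : ℝ) + 2) ^ 101 + ((k : ℝ) + 2) ^ 101 :=
        add_le_add (h5.trans h6) (h0.trans h7)
    _ = 2 * ((k : ℝ) + 2) ^ 101 := (two_mul _).symm

private theorem sparse_count {Ω : Type*} [MeasurableSpace Ω] {μ : Measure Ω} [IsProbabilityMeasure μ]
    {del : ℕ → Set Ω} (hm : ∀ i, MeasurableSet (del i)) {τ : ℕ → ℝ}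
    (hτ : ∀ i, μ.real (del i) = τ i)
    (h2 : ∀ i, 1 ≤ i → τ i ≤ Real.log i ^ 100 / i) :
    ∀ᵐ ω ∂μ, ∀ᶠ k : ℕ in atTop, ((delF del (2 ^ (k + 1)) ω).card : ℝ) < ((k : ℝ) + 2) ^ 103 := by
  classical
  have hf : ∀ k : ℕ, ∀ ω, (∑ i ∈ range (2 ^ (k + 1)), (del i).indicator (fun _ => (1 : ENNReal)) ω) =
      ((delF del (2 ^ (k + 1)) ω).card : ENNReal) := by
    intro k ω
    unfold delF
    rw [Finset.card_filter]
    push_cast
    refine sum_congr rfl fun i _ => ?_
    by_cases h : ω ∈ del i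
    · rw [Set.indicator_of_mem h, if_pos h]
    · rw [Set.indicator_of_notMem h, if_neg h]
  have hmeas : ∀ k : ℕ, Measurable (fun ω => ∑ i ∈ range (2 ^ (k + 1)),
      (del i).indicator (fun _ => (1 : ENNReal)) ω) := by
    intro k
    exact Finset.measurable_fun_sum _ fun i _ => measurable_const.indicator (hm i)
  have hint : ∀ k : ℕ, ∫⁻ ω, (∑ i ∈ range (2 ^ (k + 1)),
      (del i).indicator (fun _ => (1 : ENNReal)) ω) ∂μ ≤ ENNReal.ofReal (2 * ((k : ℝ) + 2) ^ 101) := by
    intro k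
    rw [lintegral_finsetSum _ fun i _ => measurable_const.indicator (hm i)]
    have h3 : ∀ i ∈ range (2 ^ (k + 1)), ∫⁻ ω, (del i).indicator (fun _ => (1 : ENNReal)) ω ∂μ =
        ENNReal.ofReal (τ i) := by
      intro i _
      rw [lintegral_indicator_const (hm i), one_mul, ← hτ i, Measure.real,
        ENNReal.ofReal_toReal (measure_ne_top μ _)]
    rw [sum_congr rfl h3, ← ENNReal.ofReal_sum_of_nonneg fun i _ => by
      rw [← hτ i]; exact measureReal_nonneg]
    apply ENNReal.ofReal_le_ofReal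
    exact sparse_mean (by rw [← hτ 0]; exact measureReal_le_one) h2 k
  have hmark : ∀ k : ℕ, μ {ω | ENNReal.ofReal (((k : ℝ) + 2) ^ 103) ≤ ∑ i ∈ range (2 ^ (k + 1)),
      (del i).indicator (fun _ => (1 : ENNReal)) ω} ≤ ENNReal.ofReal (2 / ((k : ℝ) + 2) ^ 2) := by
    intro k
    have hpos : (0 : ℝ) < ((k : ℝ) + 2) ^ 103 := by positivity
    refine (meas_ge_le_lintegral_div (hmeas k).aemeasurable
      (ENNReal.ofReal_pos.2 hpos).ne' ENNReal.ofReal_ne_top).trans ?_
    refine (ENNReal.div_le_div_right (hint k) _).trans ?_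
    rw [← ENNReal.ofReal_div_of_pos hpos]
    apply ENNReal.ofReal_le_ofReal
    rw [div_le_div_iff₀ hpos (by positivity), mul_assoc, ← pow_add]
  have hsum : ∑' k : ℕ, μ {ω | ENNReal.ofReal (((k : ℝ) + 2) ^ 103) ≤ ∑ i ∈ range (2 ^ (k + 1)),
      (del i).indicator (fun _ => (1 : ENNReal)) ω} ≠ ⊤ := by
    have hs : Summable (fun k : ℕ => 2 / ((k : ℝ) + 2) ^ 2) := by
      have h3 : Summable (fun k : ℕ => 1 / ((k : ℝ)) ^ 2) := Real.summable_one_div_nat_pow.2 (by norm_num)
      have h4 := ((summable_nat_add_iff 2).2 h3).mul_left 2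
      refine h4.congr fun k => ?_
      push_cast
      ring
    refine ne_top_of_le_ne_top ?_ (ENNReal.tsum_le_tsum hmark)
    rw [← ENNReal.ofReal_tsum_of_nonneg (fun k => by positivity) hs]
    exact ENNReal.ofReal_ne_top
  filter_upwards [ae_eventually_notMem hsum] with ω hω
  filter_upwards [hω] with k hk
  rw [hf k ω, not_le] at hk
  have h3 : ((delF del (2 ^ (k + 1)) ω).card : ENNReal) =
      ENNReal.ofReal ((delF del (2 ^ (k + 1)) ω).card : ℝ) := by
    rw [ENNReal.ofReal_natCast]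
  rw [h3, ENNReal.ofReal_lt_ofReal_iff (by positivity)] at hk
  exact hk

open Classical in
theorem ae_sparse {Ω : Type*} [MeasurableSpace Ω] {μ : Measure Ω} [IsProbabilityMeasure μ]
    {del : ℕ → Set Ω} (hm : ∀ i, MeasurableSet (del i)) (hi : iIndepSet del μ) {τ : ℕ → ℝ}
    (hτ : ∀ i, μ.real (del i) = τ i)
    (h2 : ∀ i, 1 ≤ i → τ i ≤ Real.log i ^ 100 / i) :
    ∀ᵐ ω ∂μ, ∀ᶠ x : ℕ in atTop,
      (((range (x + 1)).filter fun r => r ∈ pr '' delS del ω).card : ℝ) ≤ Real.log x ^ 104 := by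
  filter_upwards [sparse_count hm hτ h2] with ω hω
  -- the logarithm of x tends to infinity
  have hlog : Tendsto (fun x : ℕ => Real.log (x : ℝ)) atTop atTop :=
    Real.tendsto_log_atTop.comp tendsto_natCast_atTop_atTop
  have hnlog : Tendsto (fun x : ℕ => Nat.log 2 x) atTop atTop := by
    rw [tendsto_atTop_atTop]
    intro b
    exact ⟨2 ^ b, fun x hx => Nat.le_log_of_pow_le (by norm_num) hx⟩
  filter_upwards [hnlog.eventually hω, hlog.eventually_ge_atTop ((2 : ℝ) ^ 103 + 4),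
    eventually_ge_atTop 1] with x hx hxl hx1
  set k := Nat.log 2 x with hk
  have hlt : x < 2 ^ (k + 1) := Nat.lt_pow_succ_log_self (by norm_num) x
  have hle : 2 ^ k ≤ x := Nat.pow_log_le_self 2 (by omega)
  have hsub : ((range (x + 1)).filter fun r => r ∈ pr '' delS del ω) ⊆
      (delF del (2 ^ (k + 1)) ω).image pr := by
    intro r hr
    rw [mem_filter, mem_range] at hr
    obtain ⟨hr1, i, hi1, rfl⟩ := hr
    rw [mem_image]
    refine ⟨i, ?_, rfl⟩
    rw [mem_delF]
    refine ⟨?_, hi1⟩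
    have := lt_pr i
    omega
  have hk2 : (k : ℝ) + 2 ≤ 2 * Real.log x := by
    clear hx
    have h3 : ((2 : ℝ)) ^ k ≤ x := by exact_mod_cast hle
    have h4 := Real.log_le_log (by positivity) h3
    rw [Real.log_pow] at h4
    have h5 := Real.log_two_gt_d9
    have h6 : (0 : ℝ) ≤ k := by positivity
    nlinarith
  have hl0 : 0 ≤ Real.log x := by
    clear hx
    have : (0 : ℝ) ≤ (2 : ℝ) ^ 103 + 4 := by positivity
    linarith
  have hcard : (((range (x + 1)).filter fun r => r ∈ pr '' delS del ω).card : ℝ) ≤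
      ((k : ℝ) + 2) ^ 103 := by
    have h3 := (card_le_card hsub).trans card_image_le
    have h4 : (((range (x + 1)).filter fun r => r ∈ pr '' delS del ω).card : ℝ) ≤
        ((delF del (2 ^ (k + 1)) ω).card : ℝ) := by exact_mod_cast h3
    exact h4.trans hx.le
  refine hcard.trans ?_
  calc ((k : ℝ) + 2) ^ 103 ≤ (2 * Real.log x) ^ 103 := by gcongr
    _ = 2 ^ 103 * Real.log x ^ 103 := by rw [mul_pow]
    _ ≤ Real.log x * Real.log x ^ 103 := by
        apply mul_le_mul_of_nonneg_right _ (by positivity)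
        exact (le_add_of_nonneg_right (by norm_num)).trans hxl
    _ = Real.log x ^ 104 := (pow_succ' _ _).symm

end Pool.Agent.Helper55.PS
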