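import Pool.Agent.Helper55.PS.J2
import Pool.Agent.Helper55.PS.K3
import Pool.Agent.Helper55.PS.Ab
import Pool.Agent.Helper55.PS.M
import Pool.Agent.Helper55.PS.N2

/-!
# Project PS: the main theorem
-/

open Finset Filter MeasureTheory ProbabilityTheory
open scoped Topology

namespace Pool.Agent.Helper55.PS

theorem ae_Q1 {Ω : Type*} [MeasurableSpace Ω] {μ : Measure Ω} [IsProbabilityMeasure μ]
    {del : ℕ → Set Ω} (hm : ∀ i, MeasurableSet (del i)) (hi : iIndepSet del μ) {τ : ℕ → ℝ}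
    (hτ : ∀ i, μ.real (del i) = τ i) (h1 : ∀ i, τ i ≤ 1 / 2)
    (h2 : ∀ᶠ i : ℕ in atTop, Real.log i ^ 100 / i ≤ τ i) :
    ∀ᵐ ω ∂μ, Q1Outside (pr '' delS del ω) := by
  filter_upwards [ae_D hm hi hτ h1 h2, ae_K hm hi hτ h1] with ω hD hK
  have hK' := K_lower hK
  have hT := T_lower hK
  exact Q1Outside_of hK' (F_asymp (G_asymp hD hT) hK')

end Pool.Agent.Helper55.PS
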