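import Pool.Agent.Helper55.PS.Defs
import Pool.Agent.Helper7.PNT.AP

/-!
# Block PS-N1: consequences of the prime number theorem

`Pool.Agent.Helper7.PNT.prime_number_theorem`: `π(x) log x / x → 1`.

* `pi_div`: restriction to natural numbers.
* `pi_pr`: `π (pr n) = n + 1` (`Nat.primeCounting`, `Nat.count_nth`-type lemmas).
* `pr_le`: put `y = pr n`; `n + 1 = π(y) ≥ y / (2 log y)` for large `n`, so `y ≤ 2 (n+1) log y`;
  first `y ≤ n²` for large `n` (`π(n²) ≥ n² / (4 log n) ≥ n + 1`), so `log y ≤ 2 log n` and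
  `y ≤ 4 (n+1) log n ≤ 5 n log n`.
* `pr_two_mul`: `y = pr n`, `π(4y) / π(y) → 4`, so `π(4 y) ≥ 3 (n + 1) > 2 n + 1`, so the prime with
  index `2 n` is at most `4 y`.
-/

open Finset Filter
open scoped Topology

namespace Pool.Agent.Helper55.PS

private lemma ev_bounds_h65 : ∀ᶠ m : ℕ in atTop, (0.9 : ℝ) * m ≤ Nat.primeCounting m * Real.log m ∧
    (Nat.primeCounting m : ℝ) * Real.log m ≤ 1.1 * m ∧ 64 ≤ m := by
  have h := Pool.Agent.Helper7.PNT.prime_number_theorem.comp
    (tendsto_natCast_atTop_atTop (R := ℝ))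
  have h1 := h.eventually (Icc_mem_nhds (by norm_num : (0.9 : ℝ) < 1) (by norm_num : (1 : ℝ) < 1.1))
  filter_upwards [h1, eventually_ge_atTop 64] with m hm h64
  have hm0 : (0 : ℝ) < m := by
    have : (64 : ℝ) ≤ m := by exact_mod_cast h64
    linarith
  simp only [Function.comp, Nat.floor_natCast] at hm
  obtain ⟨h2, h3⟩ := hm
  rw [le_div_iff₀ hm0] at h2
  rw [div_le_iff₀ hm0] at h3
  exact ⟨h2, h3, h64⟩

private lemma pr_tendsto_h65 : Tendsto pr atTop atTop :=
  (Nat.nth_strictMono Nat.infinite_setOfPred_prime).tendsto_atTop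

private lemma pr_le_of_h65 {n m : ℕ} (h : n < Nat.primeCounting m) : pr n ≤ m := by
  have h1 : Nat.nth Nat.Prime n < m + 1 := Nat.nth_lt_of_lt_count h
  unfold pr
  omega

theorem pi_div :
    Tendsto (fun n : ℕ => (Nat.primeCounting n : ℝ) / (n / Real.log n)) atTop (𝓝 1) := by
  have h := Pool.Agent.Helper7.PNT.prime_number_theorem.comp
    (tendsto_natCast_atTop_atTop (R := ℝ))
  refine h.congr fun n => ?_
  simp only [Function.comp, Nat.floor_natCast]
  rw [div_div_eq_mul_div]

theorem pi_pr (n : ℕ) : Nat.primeCounting (pr n) = n + 1 := by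
  unfold pr Nat.primeCounting Nat.primeCounting'
  exact Nat.count_nth_succ_of_infinite Nat.infinite_setOfPred_prime n

theorem pr_le : ∀ᶠ n : ℕ in atTop, (pr n : ℝ) ≤ 5 * n * Real.log n := by
  have hlog : ∀ᶠ n : ℕ in atTop, Real.log n ≤ 0.1 * n := by
    have h := (Real.isLittleO_log_id_atTop.comp_tendsto
      (tendsto_natCast_atTop_atTop (R := ℝ))).def (by norm_num : (0 : ℝ) < 0.1)
    filter_upwards [h] with n hn
    simp only [Function.comp, id, Real.norm_eq_abs] at hn
    have h1 : |(n : ℝ)| = n := abs_of_nonneg (Nat.cast_nonneg n)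
    rw [h1] at hn
    exact (le_abs_self _).trans hn
  have hsq : Tendsto (fun n : ℕ => n ^ 2) atTop atTop := tendsto_pow_atTop two_ne_zero
  filter_upwards [pr_tendsto_h65.eventually ev_bounds_h65, hsq.eventually ev_bounds_h65, hlog,
    eventually_ge_atTop 2] with n h1 h2 h3 h4
  have hn : (2 : ℝ) ≤ n := by exact_mod_cast h4
  have hlogn : 0 < Real.log n := Real.log_pos (by linarith)
  have hls : Real.log ((n ^ 2 : ℕ) : ℝ) = 2 * Real.log n := by
    push_cast
    rw [Real.log_pow]
    norm_num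
  have h5 : n < Nat.primeCounting (n ^ 2) := by
    by_contra hcon
    push Not at hcon
    have h6 : (Nat.primeCounting (n ^ 2) : ℝ) ≤ n := by exact_mod_cast hcon
    have h7 := h2.1
    rw [hls] at h7
    push_cast at h7
    have h8 : (Nat.primeCounting (n ^ 2) : ℝ) * (2 * Real.log n) ≤ n * (2 * (0.1 * n)) :=
      mul_le_mul h6 (by linarith) (by linarith) (by linarith)
    nlinarith
  have h6 : pr n ≤ n ^ 2 := pr_le_of_h65 h5
  have h64 : (64 : ℝ) ≤ pr n := by exact_mod_cast h1.2.2
  have h7 : Real.log (pr n) ≤ 2 * Real.log n := by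
    rw [← hls]
    exact Real.log_le_log (by linarith) (by exact_mod_cast h6)
  have h8 := h1.1
  rw [pi_pr n] at h8
  push_cast at h8
  have h9 : ((n : ℝ) + 1) * Real.log (pr n) ≤ (n + 1) * (2 * Real.log n) :=
    mul_le_mul_of_nonneg_left h7 (by linarith)
  nlinarith

theorem pr_two_mul : ∀ᶠ n : ℕ in atTop, pr (2 * n) ≤ 4 * pr n := by
  have h4 : Tendsto (fun n : ℕ => 4 * pr n) atTop atTop :=
    tendsto_atTop_mono (fun n => by omega) pr_tendsto_h65
  filter_upwards [pr_tendsto_h65.eventually ev_bounds_h65, h4.eventually ev_bounds_h65]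
    with n h1 h2
  have h64 : (64 : ℝ) ≤ pr n := by exact_mod_cast h1.2.2
  have hy : (0 : ℝ) < pr n := by linarith
  have hlog : Real.log 64 ≤ Real.log (pr n) := Real.log_le_log (by norm_num) h64
  have hl64 : Real.log 64 = 3 * Real.log 4 := by
    rw [show (64 : ℝ) = 4 ^ 3 by norm_num, Real.log_pow]
    norm_num
  have hl4 : Real.log ((4 * pr n : ℕ) : ℝ) = Real.log 4 + Real.log (pr n) := by
    push_cast
    rw [Real.log_mul (by norm_num) hy.ne']
  have hlpos : 0 < Real.log 4 := Real.log_pos (by norm_num)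
  refine pr_le_of_h65 ?_
  by_contra hcon
  push Not at hcon
  have h5 : (Nat.primeCounting (4 * pr n) : ℝ) ≤ 2 * n := by exact_mod_cast hcon
  have h6 := h2.1
  rw [hl4] at h6
  push_cast at h6
  have h7 := h1.2.1
  rw [pi_pr n] at h7
  push_cast at h7
  have h8 : (Nat.primeCounting (4 * pr n) : ℝ) * (Real.log 4 + Real.log (pr n)) ≤
      2 * n * (4 / 3 * Real.log (pr n)) :=
    mul_le_mul h5 (by linarith) (by linarith) (by positivity)
  have h9 : (n : ℝ) * Real.log (pr n) ≤ 1.1 * pr n := by linarith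
  nlinarith

end Pool.Agent.Helper55.PS
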