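import Pool.Agent.Helper55.PS.B
import Pool.Agent.Helper55.PS.C2
import Pool.Agent.Helper55.PS.N1

/-!
# Block PS-H: the zones of the scale `k`

Notation: `λ = lam k` (`k/2 < λ ≤ k`), `Y = 2^k / λ^16` (exact division for large `k`, powers of
`2`), `x = pr (2^k)`, `A = [m, m + Y) ⊆ [2^k, 2^(k+1))`. For large `k`: all `i ∈ A` have
`x ≤ pr i ≤ pr (2 * 2^k) ≤ 4x` (`pr_two_mul`) and `x ≤ 5 · 2^k log (2^k) ≤ 4 k 2^k ≤ 8 λ 2^k`
(`pr_le`); `A.card = Y ≥ 13`. Put `M = ∑_{i ∈ A} τ i`, `σ = x √M`,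
`δ = 1 / λ^35`, `τ₀ = (log 2^k)^100 / 2^(k+1) ≤ τ i` (`i ∈ A`; `log i ≥ log 2^k`, `i ≤ 2^(k+1)`),
so `M ≥ τ₀ Y`.
Conditions: `12 x / Y ≤ 96 λ^17`, `32 (96 λ^17)² δ = 32 · 9216 / λ ≤ 1` for large `k`.
`τ₀ Y δ² = (log 2^k)^100 / 2^(k+1) · 2^k / λ^16 · λ^(-70) ≥ (λ/2)^100 / (2 λ^86) = λ^14 / 2^101 ≥ 2 k`
for large `k` (`log 2^k = k log 2 ≥ k / 2 ≥ λ / 2`), also `M ≥ τ₀ Y ≥ λ^(84) / 2^101`.
Apply `phi_bound` (`σ² = M x²`) and `tv_bound` with `η = exp (-4 τ₀ Y δ²) ≤ exp (-8k)`,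
`u = σ λ^5`: the variance is at most `∑ τ i (4x)² = 16 σ²`. With `h ≤ 4 x λ^8`:
`2 h ≤ 8 x λ^8 ≤ u = x √M λ^5` since `√M ≥ 8 λ³`. Then
`√(3u) √(2h²/σ³ + 4η) ≤ √(3u) (√2 h / σ^(3/2) + 2 √η)
   = √6 λ^(5/2) h / σ + 2 √(3 u η) ≤ 10 λ^(5/2 + 8) / √M + 2 √(3 u η)` and
`M ≥ λ^84 / 2^101`, `u ≤ 8 λ 2^k · 2^k · λ^5`, `η ≤ exp (-8k)`: everything is at most
`1/(2 λ^8)`; and `80 σ² / u² = 80 / λ^10 ≤ 1 / (2 λ^8)`.
(It may be easier to bound `√(3u) √(2h²/σ³+4η) = √(6 u h²/σ³ + 12 u η)` directly: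
`6 u h² / σ³ = 6 λ^5 h² / σ² ≤ 96 λ^21 / M`.)
-/

open Finset Filter
open scoped Topology

namespace Pool.Agent.Helper55.PS

private lemma psh_final {L x M Q h : ℝ} (hL : 2 ^ 100 ≤ L) (hx : 1 ≤ x) (hxQ : x ≤ 8 * L * Q)
    (hQ : 0 ≤ Q) (hQ4 : Q ≤ Real.exp (2 * L)) (hM : L ^ 84 / 2 ^ 101 ≤ M) (hM2 : M ≤ Q ^ 2)
    (hh0 : 0 ≤ h) (hh : h ≤ 4 * x * L ^ 8) :
    √(3 * (x * √M * L ^ 5)) * √(2 * h ^ 2 / (x * √M) ^ 3 +
      4 * Real.exp (-4 * (L ^ 14 / 2 ^ 101))) + 80 * (x * √M) ^ 2 / (x * √M * L ^ 5) ^ 2 ≤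
      1 / L ^ 8 := by
  have hL0 : 0 < L := by linarith [show (0 : ℝ) < 2 ^ 100 by norm_num]
  have hL1 : 1 ≤ L := by linarith [show (1 : ℝ) ≤ 2 ^ 100 by norm_num]
  have hM0 : 0 < M := lt_of_lt_of_le (by positivity) hM
  set r := √M with hr
  have hr0 : 0 < r := Real.sqrt_pos.2 hM0
  have hr2 : r ^ 2 = M := Real.sq_sqrt hM0.le
  have hrQ : r ≤ Q := by
    rw [hr]
    exact Real.sqrt_le_iff.2 ⟨hQ, hM2⟩
  set σ := x * r with hσ
  have hx0 : 0 < x := by linarith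
  have hσ0 : 0 < σ := by positivity
  have hL5 : 0 < L ^ 5 := by positivity
  -- the last term
  have t3 : 80 * σ ^ 2 / (σ * L ^ 5) ^ 2 ≤ 1 / (2 * L ^ 8) := by
    rw [div_le_div_iff₀ (by positivity) (by positivity)]
    have e1 : (160 : ℝ) ≤ L ^ 2 :=
      (le_trans (by norm_num) hL : (160 : ℝ) ≤ L).trans (le_self_pow₀ hL1 two_ne_zero)
    have e2 : 0 ≤ σ ^ 2 * L ^ 8 := by positivity
    calc 80 * σ ^ 2 * (2 * L ^ 8) = (σ ^ 2 * L ^ 8) * 160 := by ring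
      _ ≤ (σ ^ 2 * L ^ 8) * L ^ 2 := mul_le_mul_of_nonneg_left e1 e2
      _ = 1 * (σ * L ^ 5) ^ 2 := by ring
  -- first part
  have t1 : 6 * (σ * L ^ 5) * h ^ 2 / σ ^ 3 ≤ 1 / (8 * L ^ 16) := by
    rw [div_le_div_iff₀ (by positivity) (by positivity), one_mul]
    have e1 : h ^ 2 ≤ (4 * x * L ^ 8) ^ 2 := pow_le_pow_left₀ hh0 hh 2
    have e2 : 6 * 16 * 8 * L ^ 37 ≤ M := by
      refine le_trans ?_ hM
      rw [le_div_iff₀ (by positivity)]
      have e3 : (2 : ℝ) ^ 111 ≤ L ^ 47 := by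
        calc (2 : ℝ) ^ 111 ≤ (2 ^ 100) ^ 47 := by norm_num
          _ ≤ L ^ 47 := pow_le_pow_left₀ (by norm_num) hL 47
      calc 6 * 16 * 8 * L ^ 37 * 2 ^ 101 = L ^ 37 * (6 * 16 * 8 * 2 ^ 101) := by ring
        _ ≤ L ^ 37 * L ^ 47 := by
            apply mul_le_mul_of_nonneg_left _ (by positivity)
            exact le_trans (by norm_num) e3
        _ = L ^ 84 := by ring
    calc 6 * (σ * L ^ 5) * h ^ 2 * (8 * L ^ 16) = (48 * σ * L ^ 21) * h ^ 2 := by ring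
      _ ≤ (48 * σ * L ^ 21) * (4 * x * L ^ 8) ^ 2 :=
          mul_le_mul_of_nonneg_left e1 (by positivity)
      _ = (σ * x ^ 2) * (6 * 16 * 8 * L ^ 37) := by ring
      _ ≤ (σ * x ^ 2) * M := mul_le_mul_of_nonneg_left e2 (by positivity)
      _ = σ ^ 3 := by rw [← hr2, hσ]; ring
  -- second part
  have t2 : 12 * (σ * L ^ 5) * Real.exp (-4 * (L ^ 14 / 2 ^ 101)) ≤ 1 / (8 * L ^ 16) := by
    rw [le_div_iff₀ (by positivity)]
    have e0 : Q ≤ Real.exp (2 * L) := hQ4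
    have e1 : σ ≤ 8 * L * Real.exp (4 * L) := by
      calc σ ≤ (8 * L * Q) * Q := mul_le_mul hxQ hrQ hr0.le (by positivity)
        _ = 8 * L * (Q * Q) := by ring
        _ ≤ 8 * L * (Real.exp (2 * L) * Real.exp (2 * L)) := by
            apply mul_le_mul_of_nonneg_left _ (by positivity)
            exact mul_le_mul e0 e0 hQ (Real.exp_pos _).le
        _ = 8 * L * Real.exp (4 * L) := by
            rw [← Real.exp_add]; ring_nf
    have e2 : Real.exp (-4 * (L ^ 14 / 2 ^ 101)) ≤ Real.exp (-(100 * L)) := by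
      apply Real.exp_le_exp.2
      have e3 : (100 : ℝ) * 2 ^ 99 ≤ L ^ 13 := by
        calc (100 : ℝ) * 2 ^ 99 ≤ (2 ^ 100) ^ 13 := by norm_num
          _ ≤ L ^ 13 := pow_le_pow_left₀ (by norm_num) hL 13
      have e4 : 100 * L ≤ 4 * (L ^ 14 / 2 ^ 101) := by
        rw [← mul_div_assoc, le_div_iff₀ (by positivity)]
        calc 100 * L * 2 ^ 101 = (4 * L) * (100 * 2 ^ 99) := by ring
          _ ≤ (4 * L) * L ^ 13 := mul_le_mul_of_nonneg_left e3 (by positivity)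
          _ = 4 * L ^ 14 := by ring
      linarith
    have e5 : L ≤ Real.exp L := by linarith [Real.add_one_le_exp L]
    have e6 : 12 * 8 * 8 * L ^ 22 ≤ Real.exp (23 * L) := by
      calc 12 * 8 * 8 * L ^ 22 ≤ L * L ^ 22 := by
            apply mul_le_mul_of_nonneg_right _ (by positivity)
            exact le_trans (by norm_num) hL
        _ = L ^ 23 := by ring
        _ ≤ Real.exp L ^ 23 := pow_le_pow_left₀ hL0.le e5 23
        _ = Real.exp (23 * L) := by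
            rw [← Real.exp_nat_mul]; norm_num
    calc 12 * (σ * L ^ 5) * Real.exp (-4 * (L ^ 14 / 2 ^ 101)) * (8 * L ^ 16)
        = (12 * 8 * L ^ 21) * (σ * Real.exp (-4 * (L ^ 14 / 2 ^ 101))) := by ring
      _ ≤ (12 * 8 * L ^ 21) * ((8 * L * Real.exp (4 * L)) * Real.exp (-(100 * L))) := by
          apply mul_le_mul_of_nonneg_left _ (by positivity)
          exact mul_le_mul e1 e2 (Real.exp_pos _).le (by positivity)
      _ = (12 * 8 * 8 * L ^ 22) * (Real.exp (4 * L) * Real.exp (-(100 * L))) := by ring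
      _ ≤ Real.exp (23 * L) * (Real.exp (4 * L) * Real.exp (-(100 * L))) := by
          apply mul_le_mul_of_nonneg_right e6 (by positivity)
      _ = Real.exp (-(73 * L)) := by rw [← Real.exp_add, ← Real.exp_add]; ring_nf
      _ ≤ 1 := Real.exp_le_one_iff.2 (by linarith)
  have t12 : √(3 * (σ * L ^ 5)) * √(2 * h ^ 2 / σ ^ 3 + 4 * Real.exp (-4 * (L ^ 14 / 2 ^ 101))) ≤
      1 / (2 * L ^ 8) := by
    rw [← Real.sqrt_mul (by positivity)]
    apply Real.sqrt_le_iff.2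
    refine ⟨by positivity, ?_⟩
    calc 3 * (σ * L ^ 5) * (2 * h ^ 2 / σ ^ 3 + 4 * Real.exp (-4 * (L ^ 14 / 2 ^ 101)))
        = 6 * (σ * L ^ 5) * h ^ 2 / σ ^ 3 +
          12 * (σ * L ^ 5) * Real.exp (-4 * (L ^ 14 / 2 ^ 101)) := by ring
      _ ≤ 1 / (8 * L ^ 16) + 1 / (8 * L ^ 16) := add_le_add t1 t2
      _ = (1 / (2 * L ^ 8)) ^ 2 := by
          field_simp
          norm_num
  calc _ ≤ 1 / (2 * L ^ 8) + 1 / (2 * L ^ 8) := add_le_add t12 t3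
    _ = 1 / L ^ 8 := by
        field_simp
        norm_num

private lemma psh_lam : Tendsto lam atTop atTop := by
  rw [tendsto_atTop_atTop]
  intro b
  refine ⟨2 * b, fun a ha => ?_⟩
  have := lt_two_mul_lam a
  omega

private lemma psh_poly (c : ℕ) : ∀ᶠ k : ℕ in atTop, c * k ^ 16 ≤ 2 ^ k := by
  have h := tendsto_pow_const_div_const_pow_of_one_lt 16 (show (1 : ℝ) < 2 by norm_num)
  have h2 : ∀ᶠ k : ℕ in atTop, (k : ℝ) ^ 16 / 2 ^ k < 1 / (c + 1) :=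
    h.eventually (gt_mem_nhds (by positivity))
  filter_upwards [h2] with k hk
  rw [div_lt_div_iff₀ (by positivity) (by positivity), one_mul] at hk
  have h3 : (c : ℝ) * (k : ℝ) ^ 16 ≤ 2 ^ k := by
    have : (0 : ℝ) ≤ (k : ℝ) ^ 16 := by positivity
    nlinarith
  exact_mod_cast h3

theorem scale_tv {τ : ℕ → ℝ} (h0 : ∀ i, 0 ≤ τ i) (h1 : ∀ i, τ i ≤ 1 / 2)
    (hτ : ∀ᶠ i : ℕ in atTop, Real.log i ^ 100 / i ≤ τ i) :
    ∀ᶠ k : ℕ in atTop, ∀ m, 2 ^ k ≤ m → m + 2 ^ k / lam k ^ 16 ≤ 2 ^ (k + 1) →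
      ∀ h < 4 * pr (2 ^ k) * lam k ^ 8, ∀ f : ℕ → ℝ, (∀ n, |f n| ≤ 1) →
        |E τ (Ico m (m + 2 ^ k / lam k ^ 16))
            (fun S => f (rho (Ico m (m + 2 ^ k / lam k ^ 16)) S)) -
          E τ (Ico m (m + 2 ^ k / lam k ^ 16))
            (fun S => f (rho (Ico m (m + 2 ^ k / lam k ^ 16)) S + h))| ≤
          1 / (lam k : ℝ) ^ 8 := by
  have h2k : Tendsto (fun k : ℕ => 2 ^ k) atTop atTop :=
    tendsto_pow_atTop_atTop_of_one_lt (by norm_num : (1 : ℕ) < 2)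
  obtain ⟨N, hN⟩ := eventually_atTop.1 hτ
  filter_upwards [psh_lam.eventually_ge_atTop (2 ^ 100), psh_poly 13, h2k.eventually pr_le,
    h2k.eventually pr_two_mul, h2k.eventually_ge_atTop N, eventually_ge_atTop 1] with
    k hlam hpoly hprle hpr2 hkN hk1
  intro m hm1 hm2 h hh f hf
  have hk0 : k ≠ 0 := by omega
  have hlk := lam_le hk0
  have hkl := lt_two_mul_lam k
  -- exact division
  have hdvd : lam k ^ 16 ∣ 2 ^ k := by
    unfold lam
    rw [← pow_mul]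
    apply pow_dvd_pow
    have h3 : (lam k) ^ 16 ≤ 2 ^ k := by
      calc lam k ^ 16 ≤ k ^ 16 := Nat.pow_le_pow_left hlk 16
        _ ≤ 13 * k ^ 16 := by omega
        _ ≤ 2 ^ k := hpoly
    unfold lam at h3
    rw [← pow_mul] at h3
    exact (Nat.pow_le_pow_iff_right (by norm_num)).1 h3
  set Y := 2 ^ k / lam k ^ 16 with hY
  have hYL : Y * lam k ^ 16 = 2 ^ k := Nat.div_mul_cancel hdvd
  have hY13 : 13 ≤ Y := by
    rw [hY, Nat.le_div_iff_mul_le (pow_pos (lam_pos k) _)]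
    calc 13 * lam k ^ 16 ≤ 13 * k ^ 16 := Nat.mul_le_mul_left _ (Nat.pow_le_pow_left hlk 16)
      _ ≤ 2 ^ k := hpoly
  set L : ℝ := (lam k : ℝ) with hL
  have hL100 : (2 : ℝ) ^ 100 ≤ L := by
    rw [hL]; exact_mod_cast hlam
  have hL0 : 0 < L := by linarith [show (0 : ℝ) < 2 ^ 100 by norm_num]
  have hL1 : 1 ≤ L := by linarith [show (1 : ℝ) ≤ 2 ^ 100 by norm_num]
  have hkL : (k : ℝ) ≤ 2 * L := by
    have : k ≤ 2 * lam k := hkl.le
    rw [hL]; exact_mod_cast this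
  have hLk : L ≤ k := by
    rw [hL]; exact_mod_cast hlk
  have hk1R : (1 : ℝ) ≤ k := by exact_mod_cast hk1
  set Q : ℝ := (2 : ℝ) ^ k with hQ
  have hQ1 : 1 ≤ Q := one_le_pow₀ (by norm_num)
  have hQ0 : 0 < Q := by linarith
  have hYLR : (Y : ℝ) * L ^ 16 = Q := by
    rw [hL, hQ]; exact_mod_cast hYL
  have hY0 : (0 : ℝ) < Y := by
    have : 0 < Y := by omega
    exact_mod_cast this
  have hlog : Real.log ((2 ^ k : ℕ) : ℝ) = k * Real.log 2 := by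
    push_cast
    rw [Real.log_pow]
  have hlog2 := Real.log_two_lt_d9
  have hlog2' := Real.log_two_gt_d9
  set x : ℝ := (pr (2 ^ k) : ℝ) with hx
  have hx1 : 1 ≤ x := by
    have := pr_pos (2 ^ k)
    rw [hx]
    exact_mod_cast this
  have hxQ : x ≤ 8 * L * Q := by
    rw [hlog] at hprle
    have e1 : x ≤ 5 * Q * (k * Real.log 2) := by
      rw [hx, hQ]
      push_cast at hprle
      exact hprle
    calc x ≤ 5 * Q * (k * Real.log 2) := e1
      _ ≤ 5 * Q * (k * 0.8) := by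
          apply mul_le_mul_of_nonneg_left _ (by positivity)
          apply mul_le_mul_of_nonneg_left _ (by positivity)
          linarith
      _ = 4 * Q * k := by ring
      _ ≤ 4 * Q * (2 * L) := mul_le_mul_of_nonneg_left hkL (by positivity)
      _ = 8 * L * Q := by ring
  set A := Ico m (m + Y) with hA
  have hcard : A.card = Y := by rw [hA, Nat.card_Ico]; omega
  have hA1 : ∀ i ∈ A, x ≤ pr i := by
    intro i hi
    rw [hA, mem_Ico] at hi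
    rw [hx]
    exact_mod_cast pr_strictMono.monotone (by omega : 2 ^ k ≤ i)
  have hA2 : ∀ i ∈ A, (pr i : ℝ) ≤ 4 * x := by
    intro i hi
    rw [hA, mem_Ico] at hi
    have e1 : i ≤ 2 * 2 ^ k := by
      rw [← Nat.pow_succ']; omega
    have e2 : pr i ≤ 4 * pr (2 ^ k) := (pr_strictMono.monotone e1).trans hpr2
    rw [hx]
    exact_mod_cast e2
  set τ0 : ℝ := (L / 2) ^ 100 / (2 * Q) with hτ0
  have hτ00 : 0 ≤ τ0 := by positivity
  have hττ : ∀ i ∈ A, τ0 ≤ τ i := by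
    intro i hi
    rw [hA, mem_Ico] at hi
    have hi1 : 2 ^ k ≤ i := by omega
    have hi2 : i ≤ 2 ^ (k + 1) := by omega
    refine le_trans ?_ (hN i (hkN.trans hi1))
    have hi1R : Q ≤ (i : ℝ) := by rw [hQ]; exact_mod_cast hi1
    have hi2R : (i : ℝ) ≤ 2 * Q := by
      rw [hQ]
      have : (i : ℝ) ≤ ((2 ^ (k + 1) : ℕ) : ℝ) := by exact_mod_cast hi2
      refine this.trans_eq ?_
      push_cast
      ring
    have hi0 : (0 : ℝ) < i := lt_of_lt_of_le hQ0 hi1R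
    have e1 : L / 2 ≤ Real.log i := by
      calc L / 2 ≤ k * 0.5 := by linarith
        _ ≤ k * Real.log 2 := mul_le_mul_of_nonneg_left (by linarith) (by linarith)
        _ = Real.log ((2 ^ k : ℕ) : ℝ) := hlog.symm
        _ ≤ Real.log i := by
            apply Real.log_le_log (by positivity)
            exact_mod_cast hi1
    have hL2 : 0 ≤ L / 2 := by positivity
    have e2 : (L / 2) ^ 100 ≤ Real.log i ^ 100 := pow_le_pow_left₀ hL2 e1 100
    have e3 : 0 ≤ (L / 2) ^ 100 := pow_nonneg hL2 100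
    have e4 : 0 ≤ Real.log i ^ 100 := e3.trans e2
    rw [hτ0]
    exact div_le_div₀ e4 e2 hi0 hi2R
  set M := ∑ i ∈ A, τ i with hM
  have hτ0Y : τ0 * Y = L ^ 84 / 2 ^ 101 := by
    rw [hτ0, ← hYLR]
    field_simp
  have hM1 : L ^ 84 / 2 ^ 101 ≤ M := by
    rw [← hτ0Y, hM]
    calc τ0 * Y = ∑ i ∈ A, τ0 := by rw [sum_const, hcard, nsmul_eq_mul, mul_comm]
      _ ≤ _ := sum_le_sum hττ
  have hM2 : M ≤ Q ^ 2 := by
    calc M ≤ ∑ i ∈ A, (1 : ℝ) := sum_le_sum fun i _ => (h1 i).trans (by norm_num)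
      _ = Y := by rw [sum_const, hcard, nsmul_eq_mul, mul_one]
      _ ≤ Y * L ^ 16 := le_mul_of_one_le_right hY0.le (one_le_pow₀ hL1)
      _ = Q := hYLR
      _ ≤ Q ^ 2 := le_self_pow₀ hQ1 two_ne_zero
  have hM0 : 0 < M := lt_of_lt_of_le (by positivity) hM1
  set σ : ℝ := x * √M with hσ
  have hσ2 : σ ^ 2 = M * x ^ 2 := by
    rw [hσ, mul_pow, Real.sq_sqrt hM0.le]; ring
  have hσ0 : 0 < σ := by
    have := Real.sqrt_pos.2 hM0
    positivity
  set δ : ℝ := 1 / L ^ 35 with hδ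
  have hδ0 : 0 < δ := by positivity
  have hδ2 : 32 * (12 * x / (A.card : ℝ)) ^ 2 * δ ≤ 1 := by
    rw [hcard]
    have e1 : 12 * x / (Y : ℝ) ≤ 96 * L ^ 17 := by
      rw [div_le_iff₀ hY0]
      calc 12 * x ≤ 12 * (8 * L * Q) := by linarith
        _ = 96 * L ^ 17 * Y := by rw [← hYLR]; ring
    have e2 : (12 * x / (Y : ℝ)) ^ 2 ≤ (96 * L ^ 17) ^ 2 :=
      pow_le_pow_left₀ (by positivity) e1 2
    calc 32 * (12 * x / (Y : ℝ)) ^ 2 * δ ≤ 32 * (96 * L ^ 17) ^ 2 * δ := by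
          apply mul_le_mul_of_nonneg_right _ hδ0.le
          linarith
      _ = 294912 / L := by
          rw [hδ]
          field_simp
          norm_num
      _ ≤ 1 := by
          rw [div_le_one hL0]
          exact le_trans (by norm_num) hL100
  have hη : τ0 * (A.card : ℝ) * δ ^ 2 = L ^ 14 / 2 ^ 101 := by
    rw [hcard, hτ0Y, hδ]
    field_simp
  have hphi : ∀ α : ℝ, |α| ≤ 1 / 2 → ‖phi τ A α‖ ^ 2 ≤
      Real.exp (-8 * σ ^ 2 * α ^ 2) + Real.exp (-4 * (L ^ 14 / 2 ^ 101)) := by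
    intro α hα
    have e := phi_bound (τ := τ) (s := A) (x := x) (δ := δ) (τ0 := τ0) (by linarith) hA1 hA2
      (by rw [hcard]; exact hY13) hδ0 hδ2 hτ00 hττ (fun i _ => h1 i) hα
    rw [hη, ← hM, ← hσ2] at e
    exact e
  have hvar : ∑ i ∈ A, τ i * (1 - τ i) * (pr i : ℝ) ^ 2 ≤ 16 * σ ^ 2 := by
    rw [hσ2, hM, sum_mul, mul_sum]
    refine sum_le_sum fun i hi => ?_
    have e1 : (pr i : ℝ) ^ 2 ≤ (4 * x) ^ 2 := pow_le_pow_left₀ (by positivity) (hA2 i hi) 2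
    have e2 : τ i * (1 - τ i) ≤ τ i := mul_le_of_le_one_right (h0 i) (by linarith [h0 i])
    have e3 : 0 ≤ τ i * (1 - τ i) := mul_nonneg (h0 i) (by linarith [h1 i])
    calc τ i * (1 - τ i) * (pr i : ℝ) ^ 2 ≤ τ i * (4 * x) ^ 2 :=
          mul_le_mul e2 e1 (by positivity) (h0 i)
      _ = 16 * (τ i * x ^ 2) := by ring
  have hhR : (h : ℝ) ≤ 4 * x * L ^ 8 := by
    rw [hx, hL]
    exact_mod_cast hh.le
  have hsM : 8 * L ^ 3 ≤ √M := by
    apply Real.le_sqrt_of_sq_le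
    refine le_trans ?_ hM1
    rw [le_div_iff₀ (by positivity)]
    have e3 : (2 : ℝ) ^ 107 ≤ L ^ 78 := by
      calc (2 : ℝ) ^ 107 ≤ (2 ^ 100) ^ 78 := by norm_num
        _ ≤ L ^ 78 := pow_le_pow_left₀ (by norm_num) hL100 78
    calc (8 * L ^ 3) ^ 2 * 2 ^ 101 = L ^ 6 * 2 ^ 107 := by ring
      _ ≤ L ^ 6 * L ^ 78 := mul_le_mul_of_nonneg_left e3 (by positivity)
      _ = L ^ 84 := by ring
  have hu : 2 * (h : ℝ) ≤ σ * L ^ 5 := by
    calc 2 * (h : ℝ) ≤ 2 * (4 * x * L ^ 8) := by linarith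
      _ = x * (8 * L ^ 3) * L ^ 5 := by ring
      _ ≤ x * √M * L ^ 5 := by
          apply mul_le_mul_of_nonneg_right _ (by positivity)
          exact mul_le_mul_of_nonneg_left hsM (by linarith)
  have hu1 : 1 ≤ σ * L ^ 5 := by
    have e1 : 1 ≤ √M := le_trans (by linarith [one_le_pow₀ (n := 3) hL1]) hsM
    have e2 : 1 ≤ σ := by rw [hσ]; exact one_le_mul_of_one_le_of_one_le hx1 e1
    have e3 : 1 ≤ L ^ 5 := one_le_pow₀ hL1
    exact one_le_mul_of_one_le_of_one_le e2 e3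
  have key := tv_bound (τ := τ) (s := A) h0 (fun i => (h1 i).trans (by norm_num)) hσ0
    (Real.exp_pos (-4 * (L ^ 14 / 2 ^ 101))).le hvar hphi (h := h) (u := σ * L ^ 5) hu1 hu hf
  refine key.trans ?_
  refine psh_final hL100 hx1 hxQ hQ0.le ?_ hM1 hM2 (Nat.cast_nonneg _) hhR
  calc Q = Real.exp (k * Real.log 2) := by
        rw [hQ, mul_comm, ← Real.rpow_def_of_pos (by norm_num), Real.rpow_natCast]
    _ ≤ Real.exp (2 * L) := by
        apply Real.exp_le_exp.2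
        refine le_trans ?_ hkL
        exact mul_le_of_le_one_right (by linarith) (by linarith)

end Pool.Agent.Helper55.PS
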