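import Pool.Agent.Helper55.PS.Defs

/-!
# Block PS-SM: second moment of the discrepancy over `J` consecutive blocks

Blocks `[a + jL, a + (j+1)L)`, zones `A_j = [a + jL, a + jL + Y)`. Put
`Δ_j S = D S (a + jL) - D S a`, `Z_j = Δ_{j+1} - Δ_j`. Claim (induction on `J`):
`E[Δ_J²] ≤ P² L² (∑_{j<J} 2 j ε + J) ≤ (P J L)² ε + J (P L)²` (e.g. prove it with `J (J-1) ε` or
directly with `(J L)²`: `(P J L)² ε + 2 P J L · P L ε ≤ (P (J+1) L)² ε`).
Step: `E[Δ_{J+1}²] = E[Δ_J²] + 2 E[Δ_J Z_J] + E[Z_J²]`; `|Z_J| ≤ P L`, `|Δ_J| ≤ P J L`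
(`abs_D_sub_le`). `E[Δ_J²]` over `range (a + (J+1)L)` equals that over `range (a + JL)`
(`E_of_subset`, `D_congr`). For `E[Δ_J Z_J]` write `range (a + (J+1) L) = B ∪ A_J` disjointly,
`E = E_B E_{A_J}` (`E_union`, with `S = S₁ ∪ S₂`); `Δ_J (S₁ ∪ S₂) = Δ_J (S₁)` because `A_J` is above
`a + JL`; so the inner expectation is `Δ_J (S₁) * E_{A_J} (Z_J (S₁ ∪ S₂))`, bounded by
`P J L * P L ε` with `hmean` for `S' = S₁` (a subset of `B`, disjoint from `A_J`).
-/

open Finset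

namespace Pool.Agent.Helper55.PS

private theorem sm_cross {τ : ℕ → ℝ} (h0 : ∀ i, 0 ≤ τ i) (h1 : ∀ i, τ i ≤ 1) {a Y L P N : ℕ}
    (hYL : Y ≤ L) {ε : ℝ} (hP : ∀ i < a + N, pr i ≤ P)
    (hmean : ∀ S' : Set ℕ, (∀ i ∈ S', i ∉ Ico (a + N) (a + N + Y)) →
      |E τ (Ico (a + N) (a + N + Y)) (fun S =>
        D (S' ∪ (S : Set ℕ)) (a + N + L) - D (S' ∪ (S : Set ℕ)) (a + N))| ≤ P * L * ε) :
    |E τ (range (a + N + L)) (fun S => (D (S : Set ℕ) (a + N) - D (S : Set ℕ) a) *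
      (D (S : Set ℕ) (a + N + L) - D (S : Set ℕ) (a + N)))| ≤ P * N * (P * L * ε) := by
  classical
  set A : Finset ℕ := Ico (a + N) (a + N + Y) with hA
  set B : Finset ℕ := range (a + N + L) \ A with hB
  have hAsub : A ⊆ range (a + N + L) := by
    intro i hi
    rw [hA, mem_Ico] at hi
    rw [mem_range]
    omega
  have hBA : range (a + N + L) = B ∪ A := (Finset.sdiff_union_of_subset hAsub).symm
  have hdisj : Disjoint B A := Finset.sdiff_disjoint
  have hf : ∀ S : Set ℕ, |D S (a + N) - D S a| ≤ P * N := fun S => abs_D_sub_le S hP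
  rw [hBA, E_union hdisj]
  refine abs_E_le h0 h1 fun S₁ hS₁ => ?_
  have e1 : E τ A (fun S₂ => (D ((S₁ ∪ S₂ : Finset ℕ) : Set ℕ) (a + N) -
        D ((S₁ ∪ S₂ : Finset ℕ) : Set ℕ) a) *
      (D ((S₁ ∪ S₂ : Finset ℕ) : Set ℕ) (a + N + L) - D ((S₁ ∪ S₂ : Finset ℕ) : Set ℕ) (a + N))) =
      (D (S₁ : Set ℕ) (a + N) - D (S₁ : Set ℕ) a) * E τ A (fun S₂ =>
        D ((S₁ : Set ℕ) ∪ (S₂ : Set ℕ)) (a + N + L) - D ((S₁ : Set ℕ) ∪ (S₂ : Set ℕ)) (a + N)) := by
    rw [← E_mul]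
    refine E_congr fun S₂ hS₂ => ?_
    have hc : ∀ n ≤ a + N, D ((S₁ ∪ S₂ : Finset ℕ) : Set ℕ) n = D (S₁ : Set ℕ) n := by
      intro n hn
      refine D_congr fun i hi => ?_
      rw [Finset.mem_coe, Finset.mem_coe, Finset.mem_union]
      constructor
      · rintro (h | h)
        · exact h
        · have := Finset.mem_Ico.1 (hS₂ h)
          omega
      · exact fun h => Or.inl h
    rw [hc (a + N) le_rfl, hc a (by omega), ← Finset.coe_union, hc (a + N) le_rfl]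
  rw [e1, abs_mul]
  have h2 := hmean (S₁ : Set ℕ) (fun i hi => by
    have h3 := hS₁ (Finset.mem_coe.1 hi)
    exact (Finset.mem_sdiff.1 h3).2)
  exact mul_le_mul (hf _) h2 (abs_nonneg _) (by positivity)

theorem second_moment {τ : ℕ → ℝ} (h0 : ∀ i, 0 ≤ τ i) (h1 : ∀ i, τ i ≤ 1) {a Y L P : ℕ}
    (hYL : Y ≤ L) {ε : ℝ} (hε : 0 ≤ ε) (J : ℕ) (hP : ∀ i < a + J * L, pr i ≤ P)
    (hmean : ∀ j < J, ∀ S' : Set ℕ, (∀ i ∈ S', i ∉ Ico (a + j * L) (a + j * L + Y)) →
      |E τ (Ico (a + j * L) (a + j * L + Y)) (fun S =>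
        D (S' ∪ (S : Set ℕ)) (a + j * L + L) - D (S' ∪ (S : Set ℕ)) (a + j * L))| ≤ P * L * ε) :
    E τ (range (a + J * L)) (fun S => (D (S : Set ℕ) (a + J * L) - D (S : Set ℕ) a) ^ 2) ≤
      (P * (J * L)) ^ 2 * ε + J * (P * L) ^ 2 := by
  classical
  induction J with
  | zero =>
    have h : ∀ S ⊆ range (a + 0 * L), (D (S : Set ℕ) (a + 0 * L) - D (S : Set ℕ) a) ^ 2 = 0 := by
      intro S _
      rw [zero_mul, add_zero, sub_self]
      norm_num
    rw [E_congr h, E_const]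
    simp
  | succ J ih =>
    have hM : a + (J + 1) * L = a + J * L + L := by ring
    rw [hM] at hP
    rw [hM]
    have hPJ : ∀ i < a + J * L, pr i ≤ P := fun i hi => hP i (by omega)
    have ih' := ih hPJ (fun j hj => hmean j (by omega))
    have hcross := sm_cross h0 h1 hYL hPJ (hmean J (by omega))
    have hf2 : E τ (range (a + J * L + L)) (fun S =>
        (D (S : Set ℕ) (a + J * L) - D (S : Set ℕ) a) ^ 2) =
        E τ (range (a + J * L)) (fun S => (D (S : Set ℕ) (a + J * L) - D (S : Set ℕ) a) ^ 2) := by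
      refine E_of_subset (Finset.range_subset_range.2 (by omega)) _ fun S => ?_
      have hc : ∀ n ≤ a + J * L, D (S : Set ℕ) n =
          D ((S ∩ range (a + J * L) : Finset ℕ) : Set ℕ) n := by
        intro n hn
        refine D_congr fun i hi => ?_
        rw [Finset.mem_coe, Finset.mem_coe, Finset.mem_inter, Finset.mem_range]
        constructor
        · exact fun h => ⟨h, by omega⟩
        · exact fun h => h.1
      rw [hc (a + J * L) le_rfl, hc a (by omega)]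
    have hZ2 : E τ (range (a + J * L + L)) (fun S =>
        (D (S : Set ℕ) (a + J * L + L) - D (S : Set ℕ) (a + J * L)) ^ 2) ≤ (P * L) ^ 2 := by
      refine (le_abs_self _).trans (abs_E_le h0 h1 fun S _ => ?_)
      rw [abs_of_nonneg (sq_nonneg _), ← sq_abs]
      exact pow_le_pow_left₀ (abs_nonneg _) (abs_D_sub_le _ hP) 2
    have hsplit : E τ (range (a + J * L + L)) (fun S =>
        (D (S : Set ℕ) (a + J * L + L) - D (S : Set ℕ) a) ^ 2) =
        E τ (range (a + J * L + L)) (fun S =>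
          (D (S : Set ℕ) (a + J * L) - D (S : Set ℕ) a) ^ 2) +
        2 * E τ (range (a + J * L + L)) (fun S => (D (S : Set ℕ) (a + J * L) - D (S : Set ℕ) a) *
          (D (S : Set ℕ) (a + J * L + L) - D (S : Set ℕ) (a + J * L))) +
        E τ (range (a + J * L + L)) (fun S =>
          (D (S : Set ℕ) (a + J * L + L) - D (S : Set ℕ) (a + J * L)) ^ 2) := by
      rw [← E_mul, ← E_add, ← E_add]
      refine E_congr fun S _ => ?_
      ring
    rw [hsplit, hf2]
    have h5 := (abs_le.1 hcross).2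
    have hJL : ((J * L : ℕ) : ℝ) = (J : ℝ) * L := by push_cast; ring
    rw [hJL] at h5
    have h6 : (0 : ℝ) ≤ (P * L) ^ 2 * ε := by positivity
    push_cast
    nlinarith [ih', h5, hZ2, h6]

end Pool.Agent.Helper55.PS
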