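import Pool.Agent.Helper55.PS.H
import Pool.Agent.Helper55.PS.BM
import Pool.Agent.Helper55.PS.SM

/-!
# Block PS-I: second moment at the scale `k`

`λ = lam k`. Apply `second_moment` with `a = 2^k`, `L = 2^k / λ^8`, `Y = 2^k / λ^16`,
`P = 4 * pr (2^k)`, `J = l λ^7`, `ε = 3 / λ^8`. All divisions are exact for large `k` (`lam k` is a
power of two with exponent `Nat.log 2 k`, and `16 * Nat.log 2 k ≤ k`), `J L = l (2^k / λ)`,
`Y = L / λ^8 ≤ L`; `P` bounds `pr i` for `i < 2^(k+1)` by `pr_two_mul`.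
`hmean`: `block_mean` with `H = P λ^8` and `TV = 1/λ^8` from `scale_tv`:
`P Y + P L / λ^8 + P² L / (P λ^8) = 3 P L / λ^8`.
Result: `(P J L)² ε + J (P L)² ≤ (P 2^k)² · 3/λ^8 + (P 2^k)² / λ^8` since `J L ≤ 2^k` and
`J L² = (J L) L ≤ 2^k · 2^k / λ^8`.
-/

open Finset Filter
open scoped Topology

namespace Pool.Agent.Helper55.PS

private theorem log_bd67 {k : ℕ} (hk : 128 ≤ k) : 16 * Nat.log 2 k ≤ k := by
  have h1 : 2 ^ Nat.log 2 k ≤ k := Nat.pow_log_le_self 2 (by omega)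
  have h2 : ∀ e : ℕ, 7 ≤ e → 16 * e ≤ 2 ^ e := by
    intro e he
    induction e, he using Nat.le_induction with
    | base => norm_num
    | succ n hn ih => rw [pow_succ]; omega
  by_cases h : 7 ≤ Nat.log 2 k
  · exact (h2 _ h).trans h1
  · omega

theorem scale_second {τ : ℕ → ℝ} (h0 : ∀ i, 0 ≤ τ i) (h1 : ∀ i, τ i ≤ 1 / 2)
    (hτ : ∀ᶠ i : ℕ in atTop, Real.log i ^ 100 / i ≤ τ i) :
    ∀ᶠ k : ℕ in atTop, ∀ l ≤ lam k,
      E τ (range (2 ^ k + l * (2 ^ k / lam k))) (fun S =>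
        (D (S : Set ℕ) (2 ^ k + l * (2 ^ k / lam k)) - D (S : Set ℕ) (2 ^ k)) ^ 2) ≤
        4 * (4 * pr (2 ^ k) * 2 ^ k) ^ 2 / (lam k : ℝ) ^ 8 := by
  have hpr : ∀ᶠ k : ℕ in atTop, pr (2 * 2 ^ k) ≤ 4 * pr (2 ^ k) :=
    (tendsto_pow_atTop_atTop_of_one_lt (one_lt_two : (1 : ℕ) < 2)).eventually pr_two_mul
  filter_upwards [hpr, scale_tv h0 h1 hτ, eventually_ge_atTop 128] with k hk1 hk2 hk3 l hl
  have hlog := log_bd67 hk3
  have h1' : ∀ i, τ i ≤ 1 := fun i => (h1 i).trans (by norm_num)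
  obtain ⟨e, he⟩ : ∃ e, e = Nat.log 2 k := ⟨_, rfl⟩
  have hlam : lam k = 2 ^ e := by rw [he]; rfl
  rw [← he] at hlog
  set L : ℕ := 2 ^ (k - 8 * e) with hL
  set Y : ℕ := 2 ^ (k - 16 * e) with hY
  set P : ℕ := 4 * pr (2 ^ k) with hP
  have hPpos : 0 < P := by
    have := pr_pos (2 ^ k)
    omega
  have hY' : 2 ^ k / lam k ^ 16 = Y := by
    rw [hlam, ← pow_mul, Nat.pow_div (by omega) (by norm_num), mul_comm e 16]
  have hQ : 2 ^ k / lam k = 2 ^ (k - e) := by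
    rw [hlam, Nat.pow_div (by omega) (by norm_num)]
  have hYL : Y * lam k ^ 8 = L := by
    rw [hlam, hY, hL, ← pow_mul, ← pow_add]
    congr 1
    omega
  have hLk : L * lam k ^ 8 = 2 ^ k := by
    rw [hlam, hL, ← pow_mul, ← pow_add]
    congr 1
    omega
  have hlam8 : 1 ≤ lam k ^ 8 := Nat.one_le_pow _ _ (lam_pos k)
  have hYL' : Y ≤ L := by
    calc Y = Y * 1 := (mul_one _).symm
      _ ≤ Y * lam k ^ 8 := Nat.mul_le_mul_left _ hlam8
      _ = L := hYL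
  set J : ℕ := l * lam k ^ 7 with hJ
  have hJL : J * L = l * (2 ^ k / lam k) := by
    rw [hQ, hJ, hL, hlam, mul_assoc, ← pow_mul, ← pow_add]
    congr 2
    omega
  have hlQ : l * (2 ^ k / lam k) ≤ 2 ^ k := by
    calc l * (2 ^ k / lam k) ≤ lam k * (2 ^ k / lam k) := Nat.mul_le_mul_right _ hl
      _ ≤ 2 ^ k := Nat.mul_div_le _ _
  have hJL2 : J * L ≤ 2 ^ k := hJL ▸ hlQ
  have hPb : ∀ i < 2 ^ k + J * L, pr i ≤ P := by
    intro i hi
    refine le_trans (pr_strictMono.monotone ?_) hk1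
    omega
  have hsum : ∀ j < J, 2 ^ k + j * L + L ≤ 2 ^ k + J * L := by
    intro j hj
    have : (j + 1) * L ≤ J * L := Nat.mul_le_mul_right _ hj
    rw [Nat.add_mul, Nat.one_mul] at this
    omega
  have hlamR : (0 : ℝ) < lam k := by exact_mod_cast lam_pos k
  have hlamR8 : (0 : ℝ) < (lam k : ℝ) ^ 8 := by positivity
  have hPR : (0 : ℝ) < P := by exact_mod_cast hPpos
  have hYLR : (Y : ℝ) = L / (lam k : ℝ) ^ 8 := by
    rw [eq_div_iff hlamR8.ne']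
    exact_mod_cast hYL
  have hLkR : (L : ℝ) = 2 ^ k / (lam k : ℝ) ^ 8 := by
    rw [eq_div_iff hlamR8.ne']
    exact_mod_cast hLk
  have hmean : ∀ j < J, ∀ S' : Set ℕ, (∀ i ∈ S', i ∉ Ico (2 ^ k + j * L) (2 ^ k + j * L + Y)) →
      |E τ (Ico (2 ^ k + j * L) (2 ^ k + j * L + Y)) (fun S =>
        D (S' ∪ (S : Set ℕ)) (2 ^ k + j * L + L) - D (S' ∪ (S : Set ℕ)) (2 ^ k + j * L))| ≤
        P * L * (3 / (lam k : ℝ) ^ 8) := by
    intro j hj S' hS'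
    have hb := block_mean h0 h1' (m := 2 ^ k + j * L) (Y := Y) (L := L) (P := P)
      (H := P * lam k ^ 8) hYL' (by positivity)
      (fun i hi => hPb i (lt_of_lt_of_le hi (hsum j hj)))
      (TV := 1 / (lam k : ℝ) ^ 8) (by
        have h := hk2 (2 ^ k + j * L) (Nat.le_add_right _ _) (by
          rw [hY', pow_succ]
          have := hsum j hj
          omega)
        rw [hY'] at h
        exact h) hS'
    refine hb.trans (le_of_eq ?_)
    rw [hYLR]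
    push_cast
    field_simp
    ring
  have hmain := second_moment h0 h1' (a := 2 ^ k) (Y := Y) (L := L) (P := P) hYL'
    (ε := 3 / (lam k : ℝ) ^ 8) (by positivity) J hPb hmean
  rw [hJL] at hmain
  refine hmain.trans ?_
  have hJLR : (J : ℝ) * L ≤ 2 ^ k := by exact_mod_cast hJL2
  have hJLR0 : (0 : ℝ) ≤ (J : ℝ) * L := by positivity
  have e1 : ((J : ℝ) * L) = ((J * L : ℕ) : ℝ) := by push_cast; ring
  have h2 : ((P : ℝ) * ((J : ℝ) * L)) ^ 2 ≤ (P * 2 ^ k) ^ 2 := by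
    gcongr
  have h3 : (J : ℝ) * (P * L) ^ 2 ≤ (P * 2 ^ k) ^ 2 / (lam k : ℝ) ^ 8 := by
    have e2 : (J : ℝ) * ((P : ℝ) * (L : ℝ)) ^ 2 = (J * L) * ((P : ℝ) ^ 2 * L) := by ring
    have e3 : ((P : ℝ) * 2 ^ k) ^ 2 / (lam k : ℝ) ^ 8 = 2 ^ k * ((P : ℝ) ^ 2 * L) := by
      rw [hLkR]
      ring
    rw [e2, e3]
    exact mul_le_mul_of_nonneg_right hJLR (by positivity)
  have h4 : (4 * (pr (2 ^ k) : ℝ) * 2 ^ k) = P * 2 ^ k := by
    rw [hP]; push_cast; ring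
  rw [h4]
  have h5 : ((P : ℝ) * ((J : ℝ) * L)) ^ 2 * (3 / (lam k : ℝ) ^ 8) ≤
      (P * 2 ^ k) ^ 2 * (3 / (lam k : ℝ) ^ 8) :=
    mul_le_mul_of_nonneg_right h2 (by positivity)
  have h6 : 4 * ((P : ℝ) * 2 ^ k) ^ 2 / (lam k : ℝ) ^ 8 =
      (P * 2 ^ k) ^ 2 * (3 / (lam k : ℝ) ^ 8) + (P * 2 ^ k) ^ 2 / (lam k : ℝ) ^ 8 := by
    ring
  rw [h6]
  exact add_le_add h5 h3

end Pool.Agent.Helper55.PS
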