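import Pool.Agent.Helper55.PS.Defs

/-!
# Block PS-J1: from independent events to finite expectations

`del i` independent events with probabilities `τ i`. The random set of deleted indices below `N` is
`delF del N ω`. For `S ⊆ range N`: `μ {delF = S} = W τ (range N) S` by independence (of the events
`del i`, `i ∈ S`, and the complements of `del i`, `i ∈ range N \ S`; `iIndepSet` is `iIndep` of the
generated σ-algebras, which contain the complements: `iIndep.meas_biInter`). Hence `integral_eq_E`
(a function with finitely many values) and Chebyshev's inequality `prob_le`.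
-/

open Finset Filter MeasureTheory ProbabilityTheory

namespace Pool.Agent.Helper55.PS

variable {Ω : Type*}

/-- The set of the deleted indices. -/
def delS (del : ℕ → Set Ω) (ω : Ω) : Set ℕ := {i | ω ∈ del i}

open Classical in
/-- The set of the deleted indices below `N`. -/
noncomputable def delF (del : ℕ → Set Ω) (N : ℕ) (ω : Ω) : Finset ℕ :=
  (range N).filter fun i => ω ∈ del i

theorem mem_delF {del : ℕ → Set Ω} {N : ℕ} {ω : Ω} {i : ℕ} :
    i ∈ delF del N ω ↔ i < N ∧ ω ∈ del i := by
  simp [delF]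

private lemma delF_subset (del : ℕ → Set Ω) (N : ℕ) (ω : Ω) : delF del N ω ⊆ range N := by
  intro i hi
  exact mem_range.2 (mem_delF.1 hi).1

private lemma delF_eq_iff {del : ℕ → Set Ω} {N : ℕ} {S : Finset ℕ} (hS : S ⊆ range N) (ω : Ω) :
    delF del N ω = S ↔ ∀ i ∈ range N, (ω ∈ del i ↔ i ∈ S) := by
  constructor
  · rintro rfl i hi
    rw [mem_delF]
    exact ⟨fun h => ⟨mem_range.1 hi, h⟩, fun h => h.2⟩
  · intro h
    ext i
    rw [mem_delF]
    exact ⟨fun h2 => (h i (mem_range.2 h2.1)).1 h2.2,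
      fun h2 => ⟨mem_range.1 (hS h2), (h i (hS h2)).2 h2⟩⟩

open Classical in
/-- the factor of a cylinder event -/
private noncomputable def fac (del : ℕ → Set Ω) (S : Finset ℕ) (i : ℕ) : Set Ω :=
  if i ∈ S then del i else (del i)ᶜ

private lemma cyl_eq {del : ℕ → Set Ω} {N : ℕ} {S : Finset ℕ} (hS : S ⊆ range N) :
    {ω | delF del N ω = S} = ⋂ i ∈ range N, fac del S i := by
  ext ω
  simp only [Set.mem_iInter]
  refine (delF_eq_iff hS ω).trans ?_
  apply forall_congr'; intro i
  apply forall_congr'; intro _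
  unfold fac
  by_cases hi : i ∈ S
  · simp [hi]
  · simp [hi]

private lemma cyl_meas [MeasurableSpace Ω] {del : ℕ → Set Ω} (hm : ∀ i, MeasurableSet (del i)) {N : ℕ}
    {S : Finset ℕ} (hS : S ⊆ range N) : MeasurableSet {ω | delF del N ω = S} := by
  rw [cyl_eq hS]
  refine Finset.measurableSet_biInter _ fun i _ => ?_
  unfold fac
  split_ifs
  · exact hm i
  · exact (hm i).compl

private lemma cyl_prob [MeasurableSpace Ω] {μ : Measure Ω} [IsProbabilityMeasure μ]
    {del : ℕ → Set Ω} (hm : ∀ i, MeasurableSet (del i)) (hi : iIndepSet del μ) {τ : ℕ → ℝ}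
    (hτ : ∀ i, μ.real (del i) = τ i) {N : ℕ} {S : Finset ℕ} (hS : S ⊆ range N) :
    μ.real {ω | delF del N ω = S} = W τ (range N) S := by
  have h1 : μ (⋂ i ∈ range N, fac del S i) = ∏ i ∈ range N, μ (fac del S i) := by
    have h2 := (iIndepSet_iff_iIndep del μ).1 hi
    refine h2.meas_biInter fun i _ => ?_
    have h3 : MeasurableSet[MeasurableSpace.generateFrom {del i}] (del i) :=
      MeasurableSpace.measurableSet_generateFrom rfl
    unfold fac
    split_ifs
    · exact h3
    · exact h3.compl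
  have h4 : μ.real {ω | delF del N ω = S} = ∏ i ∈ range N, μ.real (fac del S i) := by
    rw [cyl_eq hS]
    simp only [Measure.real]
    rw [h1, ENNReal.toReal_prod]
  have h5 : ∀ i, μ.real (fac del S i) = if i ∈ S then τ i else 1 - τ i := by
    intro i
    unfold fac
    split_ifs
    · exact hτ i
    · rw [probReal_compl_eq_one_sub (hm i), hτ i]
  rw [h4, Finset.prod_congr rfl fun i _ => h5 i, W, ← Finset.prod_sdiff hS, mul_comm]
  congr 1
  · exact Finset.prod_congr rfl fun i hi => if_pos hi
  · exact Finset.prod_congr rfl fun i hi => if_neg (Finset.mem_sdiff.1 hi).2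

private lemma ind_eq (del : ℕ → Set Ω) (N : ℕ) (f : Finset ℕ → ℝ) (ω : Ω) :
    f (delF del N ω) = ∑ S ∈ (range N).powerset, Set.indicator {ω | delF del N ω = S} (fun _ => f S) ω := by
  rw [Finset.sum_eq_single (delF del N ω)]
  · rw [Set.indicator_of_mem]
    rfl
  · intro S _ hne
    rw [Set.indicator_of_notMem]
    intro h
    exact hne h.symm
  · intro h
    exact absurd (Finset.mem_powerset.2 (delF_subset del N ω)) h

private lemma integrable_delF [MeasurableSpace Ω] {μ : Measure Ω} [IsProbabilityMeasure μ]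
    {del : ℕ → Set Ω} (hm : ∀ i, MeasurableSet (del i)) (N : ℕ) (f : Finset ℕ → ℝ) :
    Integrable (fun ω => f (delF del N ω)) μ := by
  simp_rw [ind_eq del N f]
  refine integrable_finsetSum _ fun S hS => ?_
  exact (integrable_const _).indicator (cyl_meas hm (Finset.mem_powerset.1 hS))

theorem integral_eq_E [MeasurableSpace Ω] {μ : Measure Ω} [IsProbabilityMeasure μ]
    {del : ℕ → Set Ω} (hm : ∀ i, MeasurableSet (del i)) (hi : iIndepSet del μ) {τ : ℕ → ℝ}
    (hτ : ∀ i, μ.real (del i) = τ i) (N : ℕ) (f : Finset ℕ → ℝ) :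
    ∫ ω, f (delF del N ω) ∂μ = E τ (range N) f := by
  simp_rw [ind_eq del N f]
  rw [integral_finsetSum]
  · unfold E
    refine Finset.sum_congr rfl fun S hS => ?_
    have hS' := Finset.mem_powerset.1 hS
    rw [integral_indicator_const _ (cyl_meas hm hS'), cyl_prob hm hi hτ hS', smul_eq_mul]
  · intro S hS
    exact (integrable_const _).indicator (cyl_meas hm (Finset.mem_powerset.1 hS))

theorem prob_le [MeasurableSpace Ω] {μ : Measure Ω} [IsProbabilityMeasure μ]
    {del : ℕ → Set Ω} (hm : ∀ i, MeasurableSet (del i)) (hi : iIndepSet del μ) {τ : ℕ → ℝ}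
    (hτ : ∀ i, μ.real (del i) = τ i) (N : ℕ) (f : Finset ℕ → ℝ) {u : ℝ} (hu : 0 < u) :
    μ {ω | u ≤ |f (delF del N ω)|} ≤ ENNReal.ofReal (E τ (range N) (fun S => f S ^ 2) / u ^ 2) := by
  have h1 := mul_meas_ge_le_integral_of_nonneg (μ := μ) (f := fun ω => f (delF del N ω) ^ 2)
    (Filter.Eventually.of_forall fun ω => sq_nonneg _) (integrable_delF hm N (fun S => f S ^ 2)) (u ^ 2)
  rw [integral_eq_E hm hi hτ N (fun S => f S ^ 2)] at h1
  have h2 : {ω | u ≤ |f (delF del N ω)|} = {ω | u ^ 2 ≤ f (delF del N ω) ^ 2} := by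
    ext ω
    show u ≤ |f (delF del N ω)| ↔ u ^ 2 ≤ f (delF del N ω) ^ 2
    rw [← sq_abs (f (delF del N ω)), sq_le_sq₀ hu.le (abs_nonneg _)]
  rw [h2, ← ENNReal.ofReal_toReal (measure_ne_top μ _)]
  apply ENNReal.ofReal_le_ofReal
  rw [le_div_iff₀ (by positivity), mul_comm]
  exact h1

end Pool.Agent.Helper55.PS
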