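import Pool.Agent.Helper55.PS.J1
import Pool.Agent.Helper55.PS.I

/-!
# Block PS-J2: Borel–Cantelli

* `ae_D`: for large `k` (`scale_second`) and `l ≤ λ = lam k`, `prob_le` with
  `u = 4 pr(2^k) 2^k / λ²` gives `μ {|Δ| ≥ u} ≤ 4 / λ^4`; union over `l ≤ λ`:
  `(λ + 1) 4 / λ^4 ≤ 8 / λ³ ≤ 64 / k³`, summable: `measure_limsup_eq_zero` /
  `ae_eventually_notMem`. `D (delS del ω) n = D (delF del n' ω) n` for `n ≤ n'` (`D_congr`).
* `ae_K`: the number of deleted indices in `[2^k, 2^(k+1))` has mean `∑ τ i ≤ 2^k / 2` and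
  variance `∑ τ i (1 - τ i) ≤ 2^k / 4`; if `2^k + 4 K(2^k) ≤ 4 K(2^(k+1))` fails then more than
  `3/4 · 2^k` are deleted, so the deviation is more than `2^k / 4`; probability at most
  `(2^k/4) / (2^k/4)² = 4 / 2^k`, summable.
-/

open Finset Filter MeasureTheory ProbabilityTheory
open scoped Topology

namespace Pool.Agent.Helper55.PS

variable {Ω : Type*} [MeasurableSpace Ω]

omit [MeasurableSpace Ω] in
private lemma j2a_D {del : ℕ → Set Ω} {ω : Ω} {n N : ℕ} (h : n ≤ N) :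
    D (delS del ω) n = D ((delF del N ω : Finset ℕ) : Set ℕ) n := by
  refine D_congr fun i hi => ?_
  rw [Finset.mem_coe, mem_delF]
  exact ⟨fun h1 => ⟨lt_of_lt_of_le hi h, h1⟩, fun h1 => h1.2⟩

private lemma j2a_alg {P L : ℝ} (hP : 0 < P) (hL : 0 < L) :
    (4 * P ^ 2 / L ^ 8) / (P / L ^ 2) ^ 2 = 4 / L ^ 4 := by
  field_simp

theorem ae_D {μ : Measure Ω} [IsProbabilityMeasure μ]
    {del : ℕ → Set Ω} (hm : ∀ i, MeasurableSet (del i)) (hi : iIndepSet del μ) {τ : ℕ → ℝ}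
    (hτ : ∀ i, μ.real (del i) = τ i) (h1 : ∀ i, τ i ≤ 1 / 2)
    (h2 : ∀ᶠ i : ℕ in atTop, Real.log i ^ 100 / i ≤ τ i) :
    ∀ᵐ ω ∂μ, ∀ᶠ k : ℕ in atTop, ∀ l ≤ lam k,
      |D (delS del ω) (2 ^ k + l * (2 ^ k / lam k)) - D (delS del ω) (2 ^ k)| ≤
        4 * pr (2 ^ k) * 2 ^ k / (lam k : ℝ) ^ 2 := by
  have h0 : ∀ i, 0 ≤ τ i := fun i => by rw [← hτ i]; exact measureReal_nonneg
  obtain ⟨k0, hk0⟩ := Filter.eventually_atTop.1 (scale_second h0 h1 h2)
  have hlam : ∀ k, (1 : ℝ) ≤ lam k := fun k => by exact_mod_cast lam_pos k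
  have hP : ∀ k, (0 : ℝ) < 4 * pr (2 ^ k) * 2 ^ k := fun k => by
    have h3 : (0 : ℝ) < pr (2 ^ k) := by exact_mod_cast pr_pos (2 ^ k)
    positivity
  have hupos : ∀ k, (0 : ℝ) < 4 * pr (2 ^ k) * 2 ^ k / (lam k : ℝ) ^ 2 := fun k =>
    div_pos (hP k) (by have := hlam k; positivity)
  let A : ℕ → ℕ → Set Ω := fun k l => {ω | 4 * pr (2 ^ k) * 2 ^ k / (lam k : ℝ) ^ 2 ≤
    |(fun S : Finset ℕ => D (S : Set ℕ) (2 ^ k + l * (2 ^ k / lam k)) - D (S : Set ℕ) (2 ^ k))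
      (delF del (2 ^ k + l * (2 ^ k / lam k)) ω)|}
  let s : ℕ → Set Ω := fun k => {ω | k0 + 1 ≤ k ∧ ∃ l ≤ lam k, ω ∈ A k l}
  have hA : ∀ k, k0 + 1 ≤ k → ∀ l ≤ lam k, μ (A k l) ≤ ENNReal.ofReal (4 / (lam k : ℝ) ^ 4) := by
    intro k hk l hl
    refine (prob_le hm hi hτ (2 ^ k + l * (2 ^ k / lam k))
      (fun S : Finset ℕ => D (S : Set ℕ) (2 ^ k + l * (2 ^ k / lam k)) - D (S : Set ℕ) (2 ^ k))
      (hupos k)).trans (ENNReal.ofReal_le_ofReal ?_)
    have h4 := hk0 k (by omega) l hl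
    have h5 := hP k
    have h6 := hlam k
    have h7 : (0 : ℝ) < lam k := by linarith
    calc _ ≤ (4 * (4 * pr (2 ^ k) * 2 ^ k) ^ 2 / (lam k : ℝ) ^ 8) /
          (4 * pr (2 ^ k) * 2 ^ k / (lam k : ℝ) ^ 2) ^ 2 :=
          div_le_div_of_nonneg_right h4 (sq_nonneg _)
      _ = 4 / (lam k : ℝ) ^ 4 := j2a_alg h5 h7
  have hs : ∀ k, μ (s k) ≤ ENNReal.ofReal (64 * (1 / (k : ℝ) ^ 3)) := by
    intro k
    by_cases hk : k0 + 1 ≤ k
    · have hsub : s k ⊆ ⋃ l ∈ Finset.range (lam k + 1), A k l := by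
        rintro ω ⟨-, l, hl, hω⟩
        rw [Set.mem_iUnion₂]
        exact ⟨l, Finset.mem_range.2 (by omega), hω⟩
      have h6 := hlam k
      have h7 : (0 : ℝ) < lam k := by linarith
      have hk1 : (1 : ℝ) ≤ k := by exact_mod_cast (by omega : 1 ≤ k)
      calc μ (s k) ≤ μ (⋃ l ∈ Finset.range (lam k + 1), A k l) := measure_mono hsub
        _ ≤ ∑ l ∈ Finset.range (lam k + 1), μ (A k l) := measure_biUnion_finset_le _ _
        _ ≤ ∑ l ∈ Finset.range (lam k + 1), ENNReal.ofReal (4 / (lam k : ℝ) ^ 4) :=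
            Finset.sum_le_sum fun l hl => hA k hk l (by
              have := Finset.mem_range.1 hl
              omega)
        _ = ENNReal.ofReal (((lam k : ℝ) + 1) * (4 / (lam k : ℝ) ^ 4)) := by
            rw [Finset.sum_const, Finset.card_range, nsmul_eq_mul,
              ENNReal.ofReal_mul (by positivity)]
            congr 1
            rw [← Nat.cast_succ, ENNReal.ofReal_natCast]
        _ ≤ ENNReal.ofReal (64 * (1 / (k : ℝ) ^ 3)) := by
            refine ENNReal.ofReal_le_ofReal ?_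
            have h8 : ((lam k : ℝ) + 1) * (4 / (lam k : ℝ) ^ 4) ≤ 8 / (lam k : ℝ) ^ 3 := by
              have e1 : 8 / (lam k : ℝ) ^ 3 = (2 * lam k) * (4 / (lam k : ℝ) ^ 4) := by
                field_simp
                ring
              rw [e1]
              exact mul_le_mul_of_nonneg_right (by linarith) (by positivity)
            refine h8.trans ?_
            have h9 : (k : ℝ) ≤ 2 * lam k := by exact_mod_cast (lt_two_mul_lam k).le
            have h10 : (k : ℝ) ^ 3 ≤ (2 * lam k) ^ 3 := pow_le_pow_left₀ (by positivity) h9 3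
            rw [mul_one_div, div_le_div_iff₀ (by positivity) (by positivity)]
            nlinarith
    · have he : s k = ∅ := by
        ext ω
        simp only [s, Set.mem_ofPred_eq, Set.mem_empty_iff_false, iff_false, not_and]
        intro h
        exact absurd h hk
      rw [he, measure_empty]
      exact zero_le
  have hsum : ∑' k, μ (s k) ≠ ⊤ := by
    have h3 : Summable (fun k : ℕ => 64 * (1 / (k : ℝ) ^ 3)) :=
      (Real.summable_one_div_nat_pow.2 (by norm_num)).mul_left 64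
    exact ne_top_of_le_ne_top h3.tsum_ofReal_ne_top (ENNReal.tsum_le_tsum hs)
  filter_upwards [ae_eventually_notMem hsum] with ω hω
  filter_upwards [hω, eventually_ge_atTop (k0 + 1)] with k hk hkk l hl
  by_contra hcon
  rw [not_le] at hcon
  refine hk ⟨hkk, l, hl, ?_⟩
  change 4 * (pr (2 ^ k) : ℝ) * 2 ^ k / (lam k : ℝ) ^ 2 ≤
    |D ((delF del (2 ^ k + l * (2 ^ k / lam k)) ω : Finset ℕ) : Set ℕ) (2 ^ k + l * (2 ^ k / lam k)) -
      D ((delF del (2 ^ k + l * (2 ^ k / lam k)) ω : Finset ℕ) : Set ℕ) (2 ^ k)|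
  rw [← j2a_D le_rfl, ← j2a_D (Nat.le_add_right _ _)]
  exact hcon.le

omit [MeasurableSpace Ω] in
open Classical in
private lemma j2b_K (S : Set ℕ) (k : ℕ) :
    K S (2 ^ (k + 1)) + ((Finset.Ico (2 ^ k) (2 ^ (k + 1))).filter fun i => i ∈ S).card =
      K S (2 ^ k) + 2 ^ k := by
  have h1 : (2 : ℕ) ^ k ≤ 2 ^ (k + 1) := Nat.pow_le_pow_right (by norm_num) (Nat.le_succ k)
  have h2 : K S (2 ^ (k + 1)) = K S (2 ^ k) +
      ((Finset.Ico (2 ^ k) (2 ^ (k + 1))).filter fun i => i ∉ S).card := by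
    unfold K
    rw [Finset.range_eq_Ico, Finset.range_eq_Ico, Finset.card_filter, Finset.card_filter,
      Finset.card_filter, Finset.sum_Ico_consecutive _ (Nat.zero_le _) h1]
  have h3 := Finset.card_filter_add_card_filter_not (s := Finset.Ico (2 ^ k) (2 ^ (k + 1)))
    (fun i => i ∈ S)
  rw [Nat.card_Ico, pow_succ] at h3
  rw [h2, pow_succ]
  omega

theorem ae_K {μ : Measure Ω} [IsProbabilityMeasure μ]
    {del : ℕ → Set Ω} (hm : ∀ i, MeasurableSet (del i)) (hi : iIndepSet del μ) {τ : ℕ → ℝ}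
    (hτ : ∀ i, μ.real (del i) = τ i) (h1 : ∀ i, τ i ≤ 1 / 2) :
    ∀ᵐ ω ∂μ, ∀ᶠ k : ℕ in atTop,
      2 ^ k + 4 * K (delS del ω) (2 ^ k) ≤ 4 * K (delS del ω) (2 ^ (k + 1)) := by
  classical
  let Y : ℕ → Ω → ℝ := fun i => (del i).indicator (fun _ => (1 : ℝ))
  have hind : iIndepFun Y μ := hi.iIndepFun_indicator
  have hL : ∀ i, MemLp (Y i) 2 μ := fun i =>
    memLp_indicator_const 2 (hm i) 1 (Or.inr (measure_ne_top μ _))
  have hint : ∀ i, ∫ ω, Y i ω ∂μ = τ i := by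
    intro i
    rw [← hτ i]
    exact integral_indicator_one (hm i)
  have hvar : ∀ i, Var[Y i; μ] ≤ 1 / 2 := by
    intro i
    refine (variance_le_expectation_sq (hL i).aestronglyMeasurable).trans ?_
    have e1 : (Y i) ^ 2 = Y i := by
      funext ω
      by_cases h : ω ∈ del i
      · simp [Y, h]
      · simp [Y, h]
    rw [e1, hint]
    exact h1 i
  let Z : ℕ → Ω → ℝ := fun k => ∑ i ∈ Finset.Ico (2 ^ k) (2 ^ (k + 1)), Y i
  have hcard : ∀ k : ℕ, ((Finset.Ico (2 ^ k) (2 ^ (k + 1))).card : ℝ) = 2 ^ k := by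
    intro k
    have h2 : (2 : ℕ) ^ (k + 1) - 2 ^ k = 2 ^ k := by rw [pow_succ]; omega
    rw [Nat.card_Ico, h2]
    push_cast
    rfl
  have hZL : ∀ k, MemLp (Z k) 2 μ := fun k => memLp_finset_sum' _ fun i _ => hL i
  have hZvar : ∀ k, Var[Z k; μ] ≤ 2 ^ k / 2 := by
    intro k
    rw [IndepFun.variance_sum (fun i _ => hL i) (fun i _ j _ hij => hind.indepFun hij)]
    refine (Finset.sum_le_sum fun i _ => hvar i).trans ?_
    rw [Finset.sum_const, nsmul_eq_mul, hcard]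
    linarith
  have hZint : ∀ k, ∫ ω, Z k ω ∂μ ≤ 2 ^ k / 2 := by
    intro k
    have e1 : ∫ ω, Z k ω ∂μ = ∑ i ∈ Finset.Ico (2 ^ k) (2 ^ (k + 1)), τ i := by
      simp only [Z, Finset.sum_apply]
      rw [integral_finset_sum _ fun i _ => (hL i).integrable (by norm_num)]
      exact Finset.sum_congr rfl fun i _ => hint i
    rw [e1]
    refine (Finset.sum_le_sum fun i _ => h1 i).trans ?_
    rw [Finset.sum_const, nsmul_eq_mul, hcard]
    linarith
  let s : ℕ → Set Ω := fun k => {ω | (2 : ℝ) ^ k / 4 ≤ |Z k ω - ∫ ω, Z k ω ∂μ|}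
  have hs : ∀ k, μ (s k) ≤ ENNReal.ofReal (8 * (1 / 2) ^ k) := by
    intro k
    have hpos : (0 : ℝ) < 2 ^ k / 4 := by positivity
    refine (meas_ge_le_variance_div_sq (hZL k) hpos).trans (ENNReal.ofReal_le_ofReal ?_)
    rw [div_le_iff₀ (by positivity)]
    refine (hZvar k).trans (le_of_eq ?_)
    have e2 : ((1 : ℝ) / 2) ^ k = 1 / 2 ^ k := by rw [one_div_pow]
    rw [e2]
    field_simp
    norm_num
  have hsum : ∑' k, μ (s k) ≠ ⊤ := by
    have h3 : Summable (fun k : ℕ => 8 * ((1 : ℝ) / 2) ^ k) :=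
      (summable_geometric_of_lt_one (by norm_num) (by norm_num)).mul_left 8
    exact ne_top_of_le_ne_top h3.tsum_ofReal_ne_top (ENNReal.tsum_le_tsum hs)
  filter_upwards [ae_eventually_notMem hsum] with ω hω
  filter_upwards [hω] with k hk
  have h3 : |Z k ω - ∫ ω, Z k ω ∂μ| < 2 ^ k / 4 := not_le.1 hk
  have h4 := (abs_lt.1 h3).2
  have h5 := hZint k
  have h6 : Z k ω = (((Finset.Ico (2 ^ k) (2 ^ (k + 1))).filter
      fun i => i ∈ delS del ω).card : ℝ) := by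
    rw [Finset.card_filter]
    push_cast
    simp only [Z, Finset.sum_apply, Y, Set.indicator_apply]
    rfl
  have h7 := j2b_K (delS del ω) k
  have h8 : (((Finset.Ico (2 ^ k) (2 ^ (k + 1))).filter
      fun i => i ∈ delS del ω).card : ℝ) * 4 < 3 * 2 ^ k := by
    rw [← h6]
    linarith
  have h9 : ((Finset.Ico (2 ^ k) (2 ^ (k + 1))).filter
      fun i => i ∈ delS del ω).card * 4 < 3 * 2 ^ k := by exact_mod_cast h8
  omega

end Pool.Agent.Helper55.PS
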