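import Pool.Agent.Helper55.PS.N1

/-!
# Block PS-K1: sizes (deterministic)

`h2`: at least a quarter of the indices in `[2^k, 2^(k+1))` is kept, for large `k`.
* `K_lower`: `2^k ≤ N < 2^(k+1)`: `K N ≥ K (2^k) ≥ 2^(k-1) / 4 = 2^(k+1) / 16 ≥ N / 16`.
* `T_lower`: same `k`: `T N ≥ (K (2^k) - K (2^(k-1))) pr (2^(k-1)) ≥ 2^(k-3) pr (2^(k-1))` and
  `N pr N ≤ 2^(k+1) pr (2^(k+1)) ≤ 2^(k+1) · 16 pr (2^(k-1))` (`pr_two_mul` twice).
* `T_le`: `T N ≤ N * pr N`.
* `log_T`: `N² / 256 ≤ T N ≤ N pr N ≤ 5 N² log N` (`lt_pr`, `pr_le`), so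
  `log (T N) / (2 log N) → 1`.
* `pi_T`: hence `π (T N) / (T N / (2 log N)) → 1` (`pi_div` at `T N → ∞`).
-/

open Finset Filter
open scoped Topology

namespace Pool.Agent.Helper55.PS

theorem K_mono' (S : Set ℕ) : Monotone (K S) := by
  classical
  intro a b hab
  unfold K
  exact Finset.card_le_card (Finset.filter_subset_filter _ (Finset.range_subset_range.2 hab))

theorem K_lower {S : Set ℕ}
    (h2 : ∀ᶠ k : ℕ in atTop, 2 ^ k + 4 * K S (2 ^ k) ≤ 4 * K S (2 ^ (k + 1))) :
    ∀ᶠ N : ℕ in atTop, N ≤ 16 * K S N := by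
  obtain ⟨k0, hk0⟩ := eventually_atTop.1 h2
  filter_upwards [eventually_ge_atTop (2 ^ (k0 + 1))] with N hN
  have hN0 : N ≠ 0 := by
    have : 0 < 2 ^ (k0 + 1) := by positivity
    omega
  set k := Nat.log 2 N with hk
  have h1 : 2 ^ k ≤ N := Nat.pow_log_le_self 2 hN0
  have h3 : N < 2 ^ (k + 1) := Nat.lt_pow_succ_log_self (by norm_num) N
  have hkk : k0 + 1 ≤ k := Nat.le_log_of_pow_le (by norm_num) hN
  obtain ⟨j, hj⟩ : ∃ j, k = j + 1 := ⟨k - 1, by omega⟩
  have h4 := hk0 j (by omega)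
  rw [hj] at h1 h3
  have h5 := K_mono' S h1
  have h6 : 2 ^ (j + 1 + 1) = 4 * 2 ^ j := by ring
  omega

theorem T_le (S : Set ℕ) (N : ℕ) : T S N ≤ N * pr N := by
  unfold T
  calc ∑ i ∈ range N, st S i ≤ ∑ _i ∈ range N, pr N :=
        Finset.sum_le_sum fun i hi => (st_le S i).trans
          (pr_strictMono.monotone (Finset.mem_range.1 hi).le)
    _ = N * pr N := by rw [Finset.sum_const, Finset.card_range, smul_eq_mul]

theorem K_sub (S : Set ℕ) {a b : ℕ} (hab : a ≤ b) :
    (K S b - K S a) * pr a ≤ T S b - T S a := by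
  classical
  induction b, hab using Nat.le_induction with
  | base => simp
  | succ b hab ih =>
    have h1 : T S a ≤ T S b := T_mono S hab
    have h2 : K S a ≤ K S b := K_mono' S hab
    have h3 : K S (b + 1) = K S b + if b ∈ S then 0 else 1 := by
      unfold K
      rw [Finset.range_add_one, Finset.filter_insert]
      by_cases h4 : b ∈ S
      · rw [if_neg (not_not.2 h4), if_pos h4, Nat.add_zero]
      · rw [if_pos h4, if_neg h4, Finset.card_insert_of_notMem]
        simp
    have h4 : st S b = if b ∈ S then 0 else pr b := by unfold st; rfl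
    rw [T_succ, h3, h4]
    split_ifs with h5
    · simpa using ih
    · have h6 : pr a ≤ pr b := pr_strictMono.monotone hab
      have e1 : K S b + 1 - K S a = (K S b - K S a) + 1 := by omega
      rw [e1, add_mul, one_mul]
      omega

theorem T_lower {S : Set ℕ}
    (h2 : ∀ᶠ k : ℕ in atTop, 2 ^ k + 4 * K S (2 ^ k) ≤ 4 * K S (2 ^ (k + 1))) :
    ∀ᶠ N : ℕ in atTop, N * pr N ≤ 256 * T S N := by
  obtain ⟨k0, hk0⟩ := eventually_atTop.1 h2
  obtain ⟨n1, hn1⟩ := eventually_atTop.1 pr_two_mul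
  filter_upwards [eventually_ge_atTop (2 ^ (k0 + n1 + 1))] with N hN
  have hN0 : N ≠ 0 := by
    have : 0 < 2 ^ (k0 + n1 + 1) := by positivity
    omega
  set k := Nat.log 2 N with hk
  have h1 : 2 ^ k ≤ N := Nat.pow_log_le_self 2 hN0
  have h3 : N < 2 ^ (k + 1) := Nat.lt_pow_succ_log_self (by norm_num) N
  have hkk : k0 + n1 + 1 ≤ k := Nat.le_log_of_pow_le (by norm_num) hN
  obtain ⟨j, hj⟩ : ∃ j, k = j + 1 := ⟨k - 1, by omega⟩
  have h4 := hk0 j (by omega)
  rw [hj] at h1 h3
  have hjn : n1 ≤ 2 ^ j := by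
    have : j < 2 ^ j := Nat.lt_two_pow_self
    omega
  have h5 := hn1 (2 ^ j) hjn
  have h6 := hn1 (2 * 2 ^ j) (by omega)
  have h7 : 2 * (2 * 2 ^ j) = 2 ^ (j + 1 + 1) := by ring
  rw [h7] at h6
  have h8 : pr N ≤ pr (2 ^ (j + 1 + 1)) := pr_strictMono.monotone h3.le
  have h9 : pr N ≤ 16 * pr (2 ^ j) := by omega
  have h10 : T S (2 ^ (j + 1)) ≤ T S N := T_mono S h1
  have h11 := K_sub S (show 2 ^ j ≤ 2 ^ (j + 1) by rw [pow_succ]; omega)
  have h12 : 2 ^ j ≤ 4 * (K S (2 ^ (j + 1)) - K S (2 ^ j)) := by omega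
  have h13 : 2 ^ j * pr (2 ^ j) ≤ 4 * T S N := by
    calc 2 ^ j * pr (2 ^ j) ≤ 4 * (K S (2 ^ (j + 1)) - K S (2 ^ j)) * pr (2 ^ j) :=
          Nat.mul_le_mul_right _ h12
      _ = 4 * ((K S (2 ^ (j + 1)) - K S (2 ^ j)) * pr (2 ^ j)) := by ring
      _ ≤ 4 * (T S (2 ^ (j + 1)) - T S (2 ^ j)) := Nat.mul_le_mul_left _ h11
      _ ≤ 4 * T S N := by omega
  calc N * pr N ≤ (4 * 2 ^ j) * (16 * pr (2 ^ j)) := by
        refine Nat.mul_le_mul ?_ h9
        have : 2 ^ (j + 1 + 1) = 4 * 2 ^ j := by ring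
        omega
    _ = 64 * (2 ^ j * pr (2 ^ j)) := by ring
    _ ≤ 64 * (4 * T S N) := Nat.mul_le_mul_left _ h13
    _ = 256 * T S N := by ring

theorem log_T {S : Set ℕ} (hT : ∀ᶠ N : ℕ in atTop, N * pr N ≤ 256 * T S N) :
    Tendsto (fun N : ℕ => Real.log (T S N) / (2 * Real.log N)) atTop (𝓝 1) := by
  have hlog : Tendsto (fun N : ℕ => Real.log N) atTop atTop :=
    Real.tendsto_log_atTop.comp tendsto_natCast_atTop_atTop
  have hinv : Tendsto (fun N : ℕ => (Real.log N)⁻¹) atTop (𝓝 0) := tendsto_inv_atTop_zero.comp hlog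
  have hll : Tendsto (fun N : ℕ => Real.log (Real.log N) / Real.log N) atTop (𝓝 0) := by
    have h : Tendsto (fun x : ℝ => Real.log x / x) atTop (𝓝 0) := by
      have := Real.tendsto_pow_log_div_mul_add_atTop 1 0 1 one_ne_zero
      simpa using this
    exact h.comp hlog
  have hlow : Tendsto (fun N : ℕ => 1 - Real.log 256 / 2 * (Real.log N)⁻¹) atTop (𝓝 1) := by
    have := (hinv.const_mul (Real.log 256 / 2)).const_sub 1
    simpa using this
  have hup : Tendsto (fun N : ℕ => 1 + Real.log 5 / 2 * (Real.log N)⁻¹ +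
      1 / 2 * (Real.log (Real.log N) / Real.log N)) atTop (𝓝 1) := by
    have := ((hinv.const_mul (Real.log 5 / 2)).const_add 1).add (hll.const_mul (1 / 2))
    simpa using this
  refine tendsto_of_tendsto_of_tendsto_of_le_of_le' hlow hup ?_ ?_
  · filter_upwards [hT, eventually_ge_atTop 2] with N h1 h2
    have hN : (2 : ℝ) ≤ N := by exact_mod_cast h2
    have hl : 0 < Real.log N := Real.log_pos (by linarith)
    have h3 : (N : ℝ) * N ≤ 256 * T S N := by
      have : N * N ≤ 256 * T S N := le_trans (Nat.mul_le_mul_left _ (lt_pr N).le) h1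
      exact_mod_cast this
    have h4 : Real.log ((N : ℝ) * N) ≤ Real.log (256 * T S N) :=
      Real.log_le_log (by positivity) h3
    have hTpos : (0 : ℝ) < T S N := by nlinarith
    rw [Real.log_mul (by positivity) (by positivity), Real.log_mul (by norm_num) hTpos.ne'] at h4
    rw [le_div_iff₀ (by positivity)]
    have e : (1 - Real.log 256 / 2 * (Real.log N)⁻¹) * (2 * Real.log N) =
        2 * Real.log N - Real.log 256 := by
      field_simp
    rw [e]
    linarith
  · filter_upwards [hT, pr_le, eventually_ge_atTop 3] with N h1 h0 h2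
    have hN : (3 : ℝ) ≤ N := by exact_mod_cast h2
    have hl1 : 1 < Real.log N := by
      rw [Real.lt_log_iff_exp_lt (by linarith)]
      exact lt_of_lt_of_le Real.exp_one_lt_d9 (by linarith)
    have hl : 0 < Real.log N := by linarith
    have hTpos : (0 : ℝ) < T S N := by
      have : N * N ≤ 256 * T S N := le_trans (Nat.mul_le_mul_left _ (lt_pr N).le) h1
      have h3 : (N : ℝ) * N ≤ 256 * T S N := by exact_mod_cast this
      nlinarith
    have h3 : (T S N : ℝ) ≤ N * (5 * N * Real.log N) := by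
      have : (T S N : ℝ) ≤ N * pr N := by exact_mod_cast T_le S N
      exact this.trans (mul_le_mul_of_nonneg_left h0 (by positivity))
    have h4 := Real.log_le_log hTpos h3
    rw [Real.log_mul (by positivity) (by positivity), Real.log_mul (by positivity) hl.ne',
      Real.log_mul (by norm_num) (by positivity)] at h4
    rw [div_le_iff₀ (by positivity)]
    have e : (1 + Real.log 5 / 2 * (Real.log N)⁻¹ + 1 / 2 * (Real.log (Real.log N) / Real.log N)) *
        (2 * Real.log N) = 2 * Real.log N + Real.log 5 + Real.log (Real.log N) := by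
      field_simp
    rw [e]
    linarith

theorem pi_T {S : Set ℕ} (hT : ∀ᶠ N : ℕ in atTop, N * pr N ≤ 256 * T S N) :
    Tendsto (fun N : ℕ => (Nat.primeCounting (T S N) : ℝ) / (T S N / (2 * Real.log N)))
      atTop (𝓝 1) := by
  have hTinf : Tendsto (fun N => T S N) atTop atTop := by
    refine tendsto_atTop.2 fun b => ?_
    filter_upwards [hT, eventually_ge_atTop (256 * (b + 1))] with N h1 h2
    have h3 : N * 1 ≤ N * pr N := Nat.mul_le_mul_left _ (pr_pos N)
    omega
  have h1 := pi_div.comp hTinf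
  have h2 := h1.mul ((log_T hT).inv₀ one_ne_zero)
  rw [inv_one, mul_one] at h2
  refine h2.congr' ?_
  filter_upwards [hTinf.eventually_ge_atTop 2, eventually_ge_atTop 2] with N h3 h4
  have h5 : (2 : ℝ) ≤ T S N := by exact_mod_cast h3
  have h6 : (2 : ℝ) ≤ N := by exact_mod_cast h4
  have h7 : 0 < Real.log (T S N) := Real.log_pos (by linarith)
  have h8 : 0 < Real.log N := Real.log_pos (by linarith)
  simp only [Function.comp]
  field_simp

end Pool.Agent.Helper55.PS
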