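import Pool.Agent.Helper55.PS.J1

/-!
# The number of deleted primes
-/

open Finset Filter MeasureTheory ProbabilityTheory
open scoped Topology

namespace Pool.Agent.Helper55.PS

theorem mean_sq_insert {τ : ℕ → ℝ} {s : Finset ℕ} {j : ℕ} (hj : j ∉ s) (f : Finset ℕ → ℝ) :
    E τ (insert j s) f = (1 - τ j) * E τ s f + τ j * E τ s (fun S => f (insert j S)) := by
  classical
  have h : insert j s = s ∪ {j} := by rw [Finset.union_comm]; rfl
  have hd : Disjoint s {j} := Finset.disjoint_singleton_right.2 hj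
  rw [h, E_union hd]
  have e : ∀ S, E τ {j} (fun S' => f (S ∪ S')) = (1 - τ j) * f S + τ j * f (insert j S) := by
    intro S
    have hU : S ∪ {j} = insert j S := by rw [Finset.union_comm]; rfl
    have hp : ({j} : Finset ℕ).powerset = {∅, {j}} := by
      ext t
      simp [Finset.subset_singleton_iff]
    unfold E W
    rw [hp, Finset.sum_pair (Finset.singleton_nonempty j).ne_empty.symm]
    simp [hU]
  simp_rw [e]
  rw [E_add, E_mul, E_mul]

theorem mean_card (τ : ℕ → ℝ) (s : Finset ℕ) :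
    E τ s (fun S => (S.card : ℝ)) = ∑ i ∈ s, τ i := by
  classical
  induction s using Finset.induction_on with
  | empty => simp [E, W]
  | insert j s hj ih =>
    rw [mean_sq_insert hj, Finset.sum_insert hj, ih]
    have : E τ s (fun S => ((insert j S).card : ℝ)) = E τ s (fun S => (S.card : ℝ) + 1) := by
      refine E_congr fun S hS => ?_
      rw [Finset.card_insert_of_notMem fun h => hj (hS h)]
      push_cast
      ring
    rw [this, E_add, ih, E_const]
    ring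

theorem var_card (τ : ℕ → ℝ) (s : Finset ℕ) :
    E τ s (fun S => ((S.card : ℝ) - ∑ i ∈ s, τ i) ^ 2) = ∑ i ∈ s, τ i * (1 - τ i) := by
  classical
  induction s using Finset.induction_on with
  | empty => simp [E, W]
  | insert j s hj ih =>
    rw [mean_sq_insert hj, Finset.sum_insert hj, Finset.sum_insert hj]
    have h1 : E τ s (fun S => ((S.card : ℝ) - (τ j + ∑ i ∈ s, τ i)) ^ 2) =
        ∑ i ∈ s, τ i * (1 - τ i) + τ j ^ 2 := by
      have : E τ s (fun S => ((S.card : ℝ) - (τ j + ∑ i ∈ s, τ i)) ^ 2) =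
          E τ s (fun S => ((S.card : ℝ) - ∑ i ∈ s, τ i) ^ 2 +
            ((-2 * τ j) * (S.card : ℝ) + (2 * τ j * ∑ i ∈ s, τ i + τ j ^ 2))) :=
        E_congr fun S _ => by ring
      rw [this, E_add, E_add, E_mul, ih, mean_card, E_const]
      ring
    have h2 : E τ s (fun S => (((insert j S).card : ℝ) - (τ j + ∑ i ∈ s, τ i)) ^ 2) =
        ∑ i ∈ s, τ i * (1 - τ i) + (1 - τ j) ^ 2 := by
      have : E τ s (fun S => (((insert j S).card : ℝ) - (τ j + ∑ i ∈ s, τ i)) ^ 2) =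
          E τ s (fun S => ((S.card : ℝ) - ∑ i ∈ s, τ i) ^ 2 +
            ((2 * (1 - τ j)) * (S.card : ℝ) +
              (-2 * (1 - τ j) * ∑ i ∈ s, τ i + (1 - τ j) ^ 2))) := by
        refine E_congr fun S hS => ?_
        rw [Finset.card_insert_of_notMem fun h => hj (hS h)]
        push_cast
        ring
      rw [this, E_add, E_add, E_mul, ih, mean_card, E_const]
      ring
    rw [h1, h2]
    ring

/-- the expected number of deletions below `2 ^ k` grows at least like `k ^ 2` -/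
theorem mean_large {τ : ℕ → ℝ} (h0 : ∀ i, 0 ≤ τ i)
    (h2 : ∀ᶠ i : ℕ in atTop, Real.log i ^ 100 / i ≤ τ i) :
    ∀ᶠ k : ℕ in atTop, ((k : ℝ) ^ 2) ≤ ∑ i ∈ range (2 ^ k), τ i := by
  obtain ⟨n0, hn0⟩ := eventually_atTop.1 h2
  filter_upwards [eventually_ge_atTop (n0 + 10)] with k hk
  obtain ⟨j, rfl⟩ : ∃ j, k = j + 1 := ⟨k - 1, by omega⟩
  have hj : 9 ≤ j := by omega
  have hsub : Ico (2 ^ j) (2 ^ (j + 1)) ⊆ range (2 ^ (j + 1)) := by
    intro i hi
    rw [Finset.mem_Ico] at hi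
    exact Finset.mem_range.2 hi.2
  refine le_trans ?_ (Finset.sum_le_sum_of_subset_of_nonneg hsub fun i _ _ => h0 i)
  have hb : ∀ i ∈ Ico (2 ^ j) (2 ^ (j + 1)), ((j : ℝ) / 2) ^ 100 / 2 ^ (j + 1) ≤ τ i := by
    intro i hi
    rw [Finset.mem_Ico] at hi
    have hjn : n0 ≤ i := by
      have : j < 2 ^ j := Nat.lt_two_pow_self
      omega
    refine le_trans ?_ (hn0 i hjn)
    have hi1 : ((2 : ℝ) ^ j) ≤ i := by exact_mod_cast hi.1
    have hi2 : (i : ℝ) ≤ 2 ^ (j + 1) := by exact_mod_cast hi.2.le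
    have hlog : (j : ℝ) / 2 ≤ Real.log i := by
      have h1 : Real.log ((2 : ℝ) ^ j) ≤ Real.log i := Real.log_le_log (by positivity) hi1
      rw [Real.log_pow] at h1
      have h2 := Real.log_two_gt_d9
      have h3 : (j : ℝ) * 0.5 ≤ j * Real.log 2 :=
        mul_le_mul_of_nonneg_left (by linarith) (Nat.cast_nonneg j)
      linarith
    have hipos : (0 : ℝ) < i := lt_of_lt_of_le (by positivity) hi1
    refine div_le_div₀ (pow_nonneg (Real.log_natCast_nonneg i) _) ?_ hipos hi2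
    exact pow_le_pow_left₀ (by positivity) hlog _
  have hc := Finset.card_nsmul_le_sum _ _ _ hb
  refine le_trans ?_ hc
  rw [Nat.card_Ico, nsmul_eq_mul]
  have hcard : (2 : ℕ) ^ (j + 1) - 2 ^ j = 2 ^ j := by rw [pow_succ]; omega
  rw [hcard]
  push_cast
  have hj' : (9 : ℝ) ≤ j := by exact_mod_cast hj
  have e1 : (2 : ℝ) ^ j * (((j : ℝ) / 2) ^ 100 / 2 ^ (j + 1)) = ((j : ℝ) / 2) ^ 100 / 2 := by
    rw [pow_succ (2 : ℝ) j]
    field_simp
  rw [e1]
  have h4 : (4 : ℝ) ≤ (j : ℝ) / 2 := by linarith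
  have h5 : ((j : ℝ) / 2) ^ 4 ≤ ((j : ℝ) / 2) ^ 100 :=
    pow_le_pow_right₀ (by linarith) (by norm_num)
  have h6 : ((j : ℝ) + 1) ^ 2 ≤ ((j : ℝ) / 2) ^ 4 / 2 := by
    have : (j : ℝ) + 1 ≤ ((j : ℝ) / 2) ^ 2 / 2 * 1 := by nlinarith
    have h7 : 0 ≤ (j : ℝ) + 1 := by positivity
    nlinarith [mul_le_mul this this h7 (by positivity)]
  linarith

theorem ae_count {Ω : Type*} [MeasurableSpace Ω] {μ : Measure Ω} [IsProbabilityMeasure μ]
    {del : ℕ → Set Ω} (hm : ∀ i, MeasurableSet (del i)) (hi : iIndepSet del μ) {τ : ℕ → ℝ}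
    (hτ : ∀ i, μ.real (del i) = τ i)
    (h2 : ∀ᶠ i : ℕ in atTop, Real.log i ^ 100 / i ≤ τ i) :
    ∀ᵐ ω ∂μ, ∀ᶠ x : ℕ in atTop,
      (((pr '' delS del ω) ∩ Set.Icc 1 x).ncard : ℝ) ≤ 2 * ∑ i ∈ range (2 * x), τ i := by
  classical
  have h0 : ∀ i, 0 ≤ τ i := fun i => by rw [← hτ i]; exact measureReal_nonneg
  have h1 : ∀ i, τ i ≤ 1 := fun i => by rw [← hτ i]; exact measureReal_le_one
  set M : ℕ → ℝ := fun k => ∑ i ∈ range (2 ^ k), τ i with hM
  set B : ℕ → Set Ω := fun k => {ω | M k ≤ |((delF del (2 ^ k) ω).card : ℝ) - M k|} with hB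
  have hBk : ∀ᶠ k : ℕ in atTop, μ (B k) ≤ ENNReal.ofReal (1 / (k : ℝ) ^ 2) := by
    filter_upwards [mean_large h0 h2, eventually_ge_atTop 1] with k hk hk1
    have hk' : (0 : ℝ) < (k : ℝ) ^ 2 := by positivity
    have hMpos : 0 < M k := lt_of_lt_of_le hk' hk
    have h := prob_le hm hi hτ (2 ^ k) (fun S => (S.card : ℝ) - M k) hMpos
    refine h.trans (ENNReal.ofReal_le_ofReal ?_)
    rw [hM, var_card]
    have h3 : ∑ i ∈ range (2 ^ k), τ i * (1 - τ i) ≤ M k :=
      Finset.sum_le_sum fun i _ => by nlinarith [h0 i, h1 i, sq_nonneg (τ i)]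
    calc (∑ i ∈ range (2 ^ k), τ i * (1 - τ i)) / (M k) ^ 2 ≤ M k / (M k) ^ 2 :=
          div_le_div_of_nonneg_right h3 (by positivity)
      _ = 1 / M k := by field_simp
      _ ≤ 1 / (k : ℝ) ^ 2 := one_div_le_one_div_of_le hk' hk
  have hsum : ∑' k, μ (B k) ≠ ⊤ := by
    obtain ⟨k0, hk0⟩ := eventually_atTop.1 hBk
    have hs : Summable fun k : ℕ => 1 / (k : ℝ) ^ 2 := Real.summable_one_div_nat_pow.2 (by norm_num)
    have h3 : ∀ k, μ (B k) ≤ (if k < k0 then 1 else 0) + ENNReal.ofReal (1 / (k : ℝ) ^ 2) := by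
      intro k
      by_cases hk : k < k0
      · rw [if_pos hk]
        exact le_add_right prob_le_one
      · rw [if_neg hk, zero_add]
        exact hk0 k (by omega)
    refine ne_top_of_le_ne_top ?_ (ENNReal.tsum_le_tsum h3)
    rw [ENNReal.tsum_add]
    refine ENNReal.add_ne_top.2 ⟨?_, ?_⟩
    · rw [tsum_eq_sum (s := range k0) (fun k hk => if_neg (by simpa using hk))]
      exact (ENNReal.sum_lt_top.2 fun k _ => by split_ifs <;> simp).ne
    · rw [← ENNReal.ofReal_tsum_of_nonneg (fun k => by positivity) hs]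
      exact ENNReal.ofReal_ne_top
  filter_upwards [ae_eventually_notMem hsum] with ω hω
  obtain ⟨k0, hk0⟩ := eventually_atTop.1 hω
  filter_upwards [eventually_ge_atTop (2 ^ k0 + 1)] with x hx
  have h2p : 0 < 2 ^ k0 := by positivity
  have hx0 : x ≠ 0 := by omega
  set k := Nat.log 2 x + 1 with hk
  have hxk : x < 2 ^ k := Nat.lt_pow_succ_log_self (by norm_num) x
  have hkx : 2 ^ k ≤ 2 * x := by
    rw [hk, pow_succ']
    exact Nat.mul_le_mul_left 2 (Nat.pow_log_le_self 2 hx0)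
  have hkk : k0 ≤ k := by
    have : k0 ≤ Nat.log 2 x := Nat.le_log_of_pow_le (by norm_num) (by omega)
    omega
  have h3 := hk0 k hkk
  simp only [hB, Set.mem_ofPred_eq, not_le] at h3
  have h4 : ((delF del (2 ^ k) ω).card : ℝ) ≤ 2 * M k := by
    have := (abs_lt.1 h3).2
    linarith
  have h5 : M k ≤ ∑ i ∈ range (2 * x), τ i :=
    Finset.sum_le_sum_of_subset_of_nonneg (Finset.range_subset_range.2 hkx) fun i _ _ => h0 i
  have h6 : ((pr '' delS del ω) ∩ Set.Icc 1 x).ncard ≤ (delF del (2 ^ k) ω).card := by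
    have hsub : ((pr '' delS del ω) ∩ Set.Icc 1 x) ⊆ ((delF del (2 ^ k) ω).image pr : Finset ℕ) := by
      rintro p ⟨⟨i, hi1, rfl⟩, hp⟩
      rw [Finset.coe_image]
      refine ⟨i, ?_, rfl⟩
      rw [Finset.mem_coe, mem_delF]
      exact ⟨lt_of_lt_of_le (lt_pr i) (hp.2.trans hxk.le), hi1⟩
    refine (Set.ncard_le_ncard hsub (Finset.finite_toSet _)).trans ?_
    rw [Set.ncard_coe_finset]
    exact Finset.card_image_le
  have h7 : (((pr '' delS del ω) ∩ Set.Icc 1 x).ncard : ℝ) ≤ ((delF del (2 ^ k) ω).card : ℝ) := by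
    exact_mod_cast h6
  linarith

end Pool.Agent.Helper55.PS
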