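import Pool.Agent.Helper55.PS.Defs

/-!
# Block PS-S: smoothing

`g : ℕ → [0, 1]` any function (later: the indicator function of the primes), `s j` steps of size
at most `P`, `v n = ∑_{j<n} s j`. Averaged over a window of shifts, the sum of `s i * g` at the
points of the walk is the sum of `g` over all integers passed by the walk, up to `P * v n`.

Proof: induction on `n`. The new terms are
`∑_{h<H} [s_n g(t+h+v_{n+1}) - ∑_{v_n ≤ v < v_{n+1}} g(t+h+v+1)]
 = ∑_{v_n ≤ v < v_{n+1}} ∑_{h<H} [g(t+h+v_{n+1}) - g(t+h+v+1)]` and for `a ≥ 0`, `d = v_{n+1}-(v+1)`: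
`|∑_{h<H} g(a+d+h) - ∑_{h<H} g(a+h)| ≤ d ≤ P` (`shift_sum`; both sums telescope to a sum over the
last `d` minus a sum over the first `d`; simple induction on `d`: changing the shift by one changes
the sum by `g (a + H) - g a`).
-/

open Finset

namespace Pool.Agent.Helper55.PS

theorem shift_sum (g : ℕ → ℝ) (hg0 : ∀ n, 0 ≤ g n) (hg1 : ∀ n, g n ≤ 1) (H d a : ℕ) :
    |∑ h ∈ range H, (g (a + d + h) - g (a + h))| ≤ d := by
  have key : ∀ d : ℕ, ∑ h ∈ range H, (g (a + d + h) - g (a + h)) =
      ∑ j ∈ range d, (g (a + j + H) - g (a + j)) := by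
    intro d
    induction d with
    | zero => simp
    | succ d ih =>
      rw [Finset.sum_range_succ, ← ih]
      have h1 := Finset.sum_range_succ (fun h => g (a + d + h)) H
      have h2 := Finset.sum_range_succ' (fun h => g (a + d + h)) H
      have h3 : ∑ h ∈ range H, g (a + (d + 1) + h) = ∑ h ∈ range H, g (a + d + (h + 1)) :=
        Finset.sum_congr rfl fun h _ => by congr 1; ring
      simp only [add_zero] at h2
      rw [Finset.sum_sub_distrib, Finset.sum_sub_distrib, h3]
      linarith
  rw [key d]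
  refine (Finset.abs_sum_le_sum_abs _ _).trans ?_
  have h : ∀ j ∈ range d, |g (a + j + H) - g (a + j)| ≤ 1 := by
    intro j _
    rw [abs_le]
    constructor <;> linarith [hg0 (a + j + H), hg1 (a + j + H), hg0 (a + j), hg1 (a + j)]
  refine (Finset.sum_le_sum h).trans ?_
  simp

theorem smooth (g : ℕ → ℝ) (hg0 : ∀ n, 0 ≤ g n) (hg1 : ∀ n, g n ≤ 1) (s : ℕ → ℕ) (P n : ℕ)
    (hs : ∀ i < n, s i ≤ P) (t H : ℕ) :
    |∑ h ∈ range H, ((∑ i ∈ range n, (s i : ℝ) * g (t + h + ∑ j ∈ range (i + 1), s j)) -
        ∑ v ∈ range (∑ j ∈ range n, s j), g (t + h + v + 1))| ≤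
      P * ((∑ j ∈ range n, s j : ℕ) : ℝ) := by
  induction n with
  | zero => simp
  | succ n ih =>
    have ih := ih fun i hi => hs i (Nat.lt_succ_of_lt hi)
    set V : ℕ := ∑ j ∈ range n, s j with hV
    have hV1 : ∑ j ∈ range (n + 1), s j = V + s n := Finset.sum_range_succ _ _
    rw [hV1]
    have e1 : ∑ h ∈ range H, ((∑ i ∈ range (n + 1), (s i : ℝ) * g (t + h + ∑ j ∈ range (i + 1), s j)) -
        ∑ v ∈ range (V + s n), g (t + h + v + 1)) =
        (∑ h ∈ range H, ((∑ i ∈ range n, (s i : ℝ) * g (t + h + ∑ j ∈ range (i + 1), s j)) -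
          ∑ v ∈ range V, g (t + h + v + 1))) +
        ∑ w ∈ range (s n), ∑ h ∈ range H,
          (g ((t + V + w + 1) + (s n - w - 1) + h) - g ((t + V + w + 1) + h)) := by
      rw [Finset.sum_comm (s := range (s n)), ← Finset.sum_add_distrib]
      refine Finset.sum_congr rfl fun h _ => ?_
      rw [Finset.sum_range_succ, hV1, Finset.sum_range_add, Finset.sum_sub_distrib]
      have e2 : ∑ w ∈ range (s n), g ((t + V + w + 1) + (s n - w - 1) + h) =
          (s n : ℝ) * g (t + h + (V + s n)) := by
        rw [Finset.sum_congr rfl (g := fun _ => g (t + h + (V + s n)))]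
        · simp
        · intro w hw
          rw [Finset.mem_range] at hw
          congr 1
          omega
      have e3 : ∑ w ∈ range (s n), g ((t + V + w + 1) + h) =
          ∑ w ∈ range (s n), g (t + h + (V + w) + 1) :=
        Finset.sum_congr rfl fun w _ => by congr 1; ring
      rw [e2, e3]
      ring
    rw [e1]
    refine (abs_add_le _ _).trans ?_
    have h2 : |∑ w ∈ range (s n), ∑ h ∈ range H,
          (g ((t + V + w + 1) + (s n - w - 1) + h) - g ((t + V + w + 1) + h))| ≤ P * (s n : ℝ) := by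
      refine (Finset.abs_sum_le_sum_abs _ _).trans ?_
      have h3 : ∀ w ∈ range (s n), |∑ h ∈ range H,
          (g ((t + V + w + 1) + (s n - w - 1) + h) - g ((t + V + w + 1) + h))| ≤ (P : ℝ) := by
        intro w _
        refine (shift_sum g hg0 hg1 H (s n - w - 1) (t + V + w + 1)).trans ?_
        have : s n - w - 1 ≤ P := by
          have := hs n (Nat.lt_succ_self n)
          omega
        exact_mod_cast this
      refine (Finset.sum_le_sum h3).trans ?_
      rw [Finset.sum_const, Finset.card_range, nsmul_eq_mul, mul_comm]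
    push_cast at ih ⊢
    linarith

end Pool.Agent.Helper55.PS
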